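import Pool.Agent.Lib.MP_078aef_co_q.Base

/-! A region is Hamilton-connected. -/

namespace Pool.Agent.RamQ

open Finset Pool.Agent.RamseyHam

/-- the graph of the edges inside `S` -/
def inG {V : Type*} (G : SimpleGraph V) (S : Finset V) : SimpleGraph V where
  Adj x y := G.Adj x y ∧ x ∈ S ∧ y ∈ S
  symm := ⟨fun _ _ h => ⟨h.1.symm, h.2.2, h.2.1⟩⟩
  loopless := ⟨fun x h => G.loopless.irrefl x h.1⟩

theorem inG_mem {V : Type*} {G : SimpleGraph V} {S : Finset V} {h x : V} (hh : h ∈ S)
    (hx : (inG G S).Reachable h x) : x ∈ S := by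
  obtain ⟨p⟩ := hx
  induction p with
  | nil => exact hh
  | cons hadj p ih => exact ih hadj.2.2

theorem inG_seg {V : Type*} [DecidableEq V] {G : SimpleGraph V} {S : Finset V} {x y : V}
    (hxy : (inG G S).Reachable x y) :
    ∃ w, Seg G x w y ∧ w.Nodup ∧ ∀ z ∈ w, (inG G S).Reachable x z := by
  obtain ⟨p⟩ := hxy
  have hp := (p.toPath).2
  refine ⟨(p.toPath : (inG G S).Walk x y).support, ⟨?_, ?_, ?_⟩, hp.support_nodup, ?_⟩
  · exact (SimpleGraph.Walk.isChain_adj_support _).imp (fun _ _ h => h.1)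
  · rw [List.head?_eq_some_head (SimpleGraph.Walk.support_ne_nil _),
      SimpleGraph.Walk.head_support]
  · rw [List.getLast?_eq_some_getLast (SimpleGraph.Walk.support_ne_nil _),
      SimpleGraph.Walk.getLast_support]
  · intro z hz
    exact ⟨SimpleGraph.Walk.takeUntil _ z hz⟩

/-- `c 0, …, c (m-1)` is a path from `u` to `v` -/
structure PF {V : Type*} (G : SimpleGraph V) (c : ℕ → V) (m : ℕ) (u v : V) : Prop where
  two : 2 ≤ m
  inj : ∀ i j, i < m → j < m → c i = c j → i = j
  adj : ∀ i, i + 1 < m → G.Adj (c i) (c (i + 1))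
  first : c 0 = u
  last : c (m - 1) = v

theorem PF.seg_nodup {V : Type*} {G : SimpleGraph V} {c : ℕ → V} {m a b : ℕ} {u v : V}
    (hc : PF G c m u v) (hb : b ≤ m) : (seg c a b).Nodup := by
  unfold seg
  apply List.Nodup.map_on
  · intro x hx y hy hxy
    rw [List.mem_range'_1] at hx hy
    exact hc.inj x y (by omega) (by omega) hxy
  · exact List.nodup_range'

theorem PF.seg_Seg {V : Type*} {G : SimpleGraph V} {c : ℕ → V} {m a b : ℕ} {u v : V}
    (hc : PF G c m u v) (hab : a < b) (hb : b ≤ m) : Seg G (c a) (seg c a b) (c (b - 1)) := by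
  refine ⟨?_, ?_, ?_⟩
  · unfold seg
    rw [List.isChain_map]
    rw [List.isChain_iff_getElem]
    intro i hi
    simp only [List.length_range'] at hi
    simp only [List.getElem_range', one_mul]
    have := hc.adj (a + i) (by omega)
    rw [show a + (i + 1) = a + i + 1 by omega]
    exact this
  · unfold seg
    obtain ⟨n, hn⟩ : ∃ n, b - a = n + 1 := ⟨b - a - 1, by omega⟩
    rw [hn, List.range'_succ]
    rfl
  · unfold seg
    obtain ⟨n, hn⟩ : ∃ n, b - a = n + 1 := ⟨b - a - 1, by omega⟩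
    rw [hn, List.range'_concat]
    simp
    congr 1
    omega

theorem Seg.toPF {V : Type*} {G : SimpleGraph V} {u v : V} {l : List V} (hs : Seg G u l v)
    (hn : l.Nodup) (huv : u ≠ v) :
    ∃ c : ℕ → V, PF G c l.length u v ∧ ∀ x, x ∈ l ↔ ∃ i < l.length, c i = x := by
  have h2 : 2 ≤ l.length := by
    rcases l with _ | ⟨a, l⟩
    · have := hs.head
      simp at this
    · rcases l with _ | ⟨b, l⟩
      · have h3 := hs.head
        have h4 := hs.last
        simp only [List.head?_cons, List.getLast?_singleton, Option.some.injEq] at h3 h4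
        exact absurd (h3.symm.trans h4) huv
      · simp
  refine ⟨fun i => l.getD i u, ⟨h2, ?_, ?_, ?_, ?_⟩, ?_⟩
  · intro i j hi hj hij
    simp only [List.getD_eq_getElem _ _ hi, List.getD_eq_getElem _ _ hj] at hij
    exact (List.Nodup.getElem_inj_iff hn).mp hij
  · intro i hi
    simp only [List.getD_eq_getElem _ _ hi, List.getD_eq_getElem _ _ (show i < l.length by omega)]
    exact List.isChain_iff_getElem.mp hs.chain i hi
  · show l.getD 0 u = u
    rw [List.getD_eq_getElem _ _ (by omega)]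
    have := hs.head
    rw [List.head?_eq_getElem?, List.getElem?_eq_getElem (by omega)] at this
    simpa using this
  · show l.getD (l.length - 1) u = v
    rw [List.getD_eq_getElem _ _ (by omega)]
    have := hs.last
    rw [List.getLast?_eq_getElem?, List.getElem?_eq_getElem (by omega)] at this
    simpa using this
  · intro x
    rw [List.mem_iff_getElem]
    constructor
    · rintro ⟨i, hi, rfl⟩
      exact ⟨i, hi, List.getD_eq_getElem _ _ hi⟩
    · rintro ⟨i, hi, rfl⟩
      exact ⟨i, hi, (List.getD_eq_getElem _ _ hi).symm⟩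

/-- a longer path contradicts maximality -/
theorem PF.no_long {V : Type*} {G : SimpleGraph V} {D : Finset V} {c : ℕ → V} {m : ℕ} {u v : V}
    (hc : PF G c m u v) (hcD : ∀ i < m, c i ∈ D)
    (hmax : ∀ l, Seg G u l v → l.Nodup → (∀ x ∈ l, x ∈ D) → l.length ≤ m)
    {w : List V} (hw : w ≠ []) (hwn : w.Nodup) (hwd : ∀ x ∈ w, ∀ i < m, c i ≠ x)
    (hwD : ∀ x ∈ w, x ∈ D) {L : List V} (hperm : L.Perm (seg c 0 m ++ w)) (hL : Seg G u L v) :
    False := by
  have hlen : L.length = m + w.length := by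
    rw [hperm.length_eq, List.length_append, seg_length]; simp
  have hwl : 0 < w.length := List.length_pos_of_ne_nil hw
  have hnod : L.Nodup := by
    rw [hperm.nodup_iff, List.nodup_append]
    refine ⟨hc.seg_nodup le_rfl, hwn, ?_⟩
    intro x hx y hy hxy
    obtain ⟨i, -, hi, rfl⟩ := mem_seg.mp hx
    exact hwd y hy i hi hxy
  have := hmax L hL hnod (fun x hx => by
    rw [hperm.mem_iff, List.mem_append] at hx
    rcases hx with hx | hx
    · obtain ⟨i, -, hi, rfl⟩ := mem_seg.mp hx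
      exact hcD i hi
    · exact hwD x hx)
  omega

theorem PF.E0 {V : Type*} {G : SimpleGraph V} {D : Finset V} {c : ℕ → V} {m : ℕ} {u v : V}
    (hc : PF G c m u v) (hcD : ∀ i < m, c i ∈ D)
    (hmax : ∀ l, Seg G u l v → l.Nodup → (∀ x ∈ l, x ∈ D) → l.length ≤ m)
    {H : Set V} (hH : HConn G H) (hoff : ∀ x ∈ H, ∀ i < m, c i ≠ x) (hHD : ∀ x ∈ H, x ∈ D)
    {i : ℕ} (hi : i + 1 < m) (h1 : TT G c H i) (h2 : TT G c H (i + 1)) : False := by
  obtain ⟨x, hx, hix⟩ := h1
  obtain ⟨y, hy, hiy⟩ := h2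
  obtain ⟨w, hw, hwn, hwH⟩ := hH x hx y hy
  have hwne : w ≠ [] := by rintro rfl; simpa using hw.head
  have s1 := hc.seg_Seg (show 0 < i + 1 by omega) (show i + 1 ≤ m by omega)
  have s2 := hc.seg_Seg hi le_rfl
  rw [show i + 1 - 1 = i by omega, hc.first] at s1
  rw [hc.last] at s2
  refine hc.no_long hcD hmax hwne hwn (fun x hx => hoff x (hwH x hx))
    (fun x hx => hHD x (hwH x hx)) ?_ ((s1.append hw hix).append s2 hiy.symm)
  rw [← seg_append (show 0 ≤ i + 1 by omega) (show i + 1 ≤ m by omega), List.append_assoc,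
    List.append_assoc]
  exact List.Perm.append_left _ List.perm_append_comm

theorem PF.E1 {V : Type*} [DecidableEq V] {G : SimpleGraph V} {D : Finset V} {c : ℕ → V} {m : ℕ}
    {u v : V} (hc : PF G c m u v) (hcD : ∀ i < m, c i ∈ D)
    (hmax : ∀ l, Seg G u l v → l.Nodup → (∀ x ∈ l, x ∈ D) → l.length ≤ m)
    {H : Set V} (hH : HConn G H) (hoff : ∀ x ∈ H, ∀ i < m, c i ≠ x) (hHD : ∀ x ∈ H, x ∈ D)
    {i j : ℕ} (hij : i < j) (hj : j + 1 < m) (h1 : TT G c H i) (h2 : TT G c H j)
    (hadj : G.Adj (c (i + 1)) (c (j + 1))) : False := by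
  obtain ⟨x, hx, hix⟩ := h1
  obtain ⟨y, hy, hiy⟩ := h2
  obtain ⟨w, hw, hwn, hwH⟩ := hH x hx y hy
  have hwne : w ≠ [] := by rintro rfl; simpa using hw.head
  have s1 := hc.seg_Seg (show 0 < i + 1 by omega) (show i + 1 ≤ m by omega)
  have s0 := (hc.seg_Seg (show i + 1 < j + 1 by omega) (show j + 1 ≤ m by omega)).reverse
  have s2 := hc.seg_Seg hj le_rfl
  rw [show i + 1 - 1 = i by omega, hc.first] at s1
  rw [show j + 1 - 1 = j by omega] at s0
  rw [hc.last] at s2
  refine hc.no_long hcD hmax hwne hwn (fun x hx => hoff x (hwH x hx))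
    (fun x hx => hHD x (hwH x hx)) ?_
    (((s1.append hw hix).append s0 hiy.symm).append s2 hadj)
  rw [← seg_append (show 0 ≤ i + 1 by omega) (show i + 1 ≤ m by omega),
    ← seg_append (show i + 1 ≤ j + 1 by omega) (show j + 1 ≤ m by omega), List.perm_iff_count]
  intro z
  simp only [List.count_append, List.count_reverse]
  omega

variable {V : Type*} [Fintype V] [DecidableEq V]

omit [Fintype V] in
/-- a path inside a region -/
theorem Reg.path {G : SimpleGraph V} {D : Finset V} (hD : Reg G D) {u v : V} (hu : u ∈ D)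
    (hv : v ∈ D) : ∃ l : List V, Seg G u l v ∧ l.Nodup ∧ ∀ x ∈ l, x ∈ D := by
  classical
  have h1 := hD ∅ (empty_subset _) (by simp) (D.filter fun x => (inG G D).Reachable u x)
    (D.filter fun x => ¬ (inG G D).Reachable u x) (by
      rw [sdiff_empty]
      exact filter_union_filter_not_eq _ D) (disjoint_filter_filter_not _ _ _) (by
      intro x hx y hy hxy
      obtain ⟨hxD, hx⟩ := mem_filter.1 hx
      obtain ⟨hyD, hy⟩ := mem_filter.1 hy
      have h2 : (inG G D).Adj x y := ⟨hxy, hxD, hyD⟩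
      exact hy (hx.trans h2.reachable))
  rcases h1 with h1 | h1
  · have h2 : u ∈ D.filter fun x => (inG G D).Reachable u x :=
      mem_filter.2 ⟨hu, SimpleGraph.Reachable.refl _⟩
    rw [h1] at h2
    exact absurd h2 (notMem_empty _)
  · have h2 : (inG G D).Reachable u v := by
      by_contra h3
      have h4 : v ∈ D.filter fun x => ¬ (inG G D).Reachable u x := mem_filter.2 ⟨hv, h3⟩
      rw [h1] at h4
      exact absurd h4 (notMem_empty _)
    obtain ⟨w, hw, hwn, hwR⟩ := inG_seg h2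
    exact ⟨w, hw, hwn, fun x hx => inG_mem hu (hwR x hx)⟩

/-- a region is Hamilton-connected -/
theorem hamConn {G : SimpleGraph V} {D : Finset V} (hD : Reg G D) {u v : V} (hu : u ∈ D)
    (hv : v ∈ D) (huv : u ≠ v) : ∃ l : List V, Seg G u l v ∧ l.Nodup ∧ ∀ x, x ∈ l ↔ x ∈ D := by
  classical
  -- a longest path
  obtain ⟨l, hl, hln, hlD, hmax⟩ : ∃ l : List V, Seg G u l v ∧ l.Nodup ∧ (∀ x ∈ l, x ∈ D) ∧
      ∀ l', Seg G u l' v → l'.Nodup → (∀ x ∈ l', x ∈ D) → l'.length ≤ l.length := by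
    obtain ⟨l0, hl0, hl0n, hl0D⟩ := hD.path hu hv
    have hne : {n | ∃ l, Seg G u l v ∧ l.Nodup ∧ (∀ x ∈ l, x ∈ D) ∧ l.length = n}.Nonempty :=
      ⟨_, l0, hl0, hl0n, hl0D, rfl⟩
    have hbd : BddAbove {n | ∃ l, Seg G u l v ∧ l.Nodup ∧ (∀ x ∈ l, x ∈ D) ∧ l.length = n} := by
      refine ⟨Fintype.card V, ?_⟩
      rintro n ⟨l, -, hl, -, rfl⟩
      exact hl.length_le_card
    obtain ⟨l, hl, hln, hlD, hlen⟩ := Nat.sSup_mem hne hbd
    refine ⟨l, hl, hln, hlD, fun l' hl' hn' hD' => ?_⟩
    rw [hlen]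
    exact le_csSup hbd ⟨l', hl', hn', hD', rfl⟩
  refine ⟨l, hl, hln, fun x => ⟨hlD x, fun hxD => ?_⟩⟩
  by_contra hxl
  obtain ⟨c, hc, hcl⟩ := Seg.toPF hl hln huv
  obtain ⟨m, hm⟩ : ∃ m, m = l.length := ⟨_, rfl⟩
  rw [← hm] at hc hcl hmax
  have hcD : ∀ i < m, c i ∈ D := fun i hi => hlD _ ((hcl _).2 ⟨i, hi, rfl⟩)
  have hxc : ∀ i < m, c i ≠ x := fun i hi h1 => hxl ((hcl x).2 ⟨i, hi, h1⟩)
  -- the component of `x` off the path
  let S : Finset V := D.filter fun y => ∀ i < m, c i ≠ y
  have hxS : x ∈ S := mem_filter.2 ⟨hxD, hxc⟩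
  let H : Finset V := S.filter fun y => (inG G S).Reachable x y
  have hHS : ∀ y, y ∈ H ↔ (inG G S).Reachable x y := fun y =>
    ⟨fun h => (mem_filter.1 h).2, fun h => mem_filter.2 ⟨inG_mem hxS h, h⟩⟩
  have hHc : HConn G (H : Set V) := by
    intro y hy z hz
    have hy' := (hHS y).1 hy
    have hz' := (hHS z).1 hz
    obtain ⟨w, hw, hwn, hwR⟩ := inG_seg (hy'.symm.trans hz')
    exact ⟨w, hw, hwn, fun t ht => (hHS t).2 (hy'.trans (hwR t ht))⟩
  have hHoff : ∀ y ∈ (H : Set V), ∀ i < m, c i ≠ y := fun y hy =>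
    (mem_filter.1 (mem_filter.1 hy).1).2
  have hHD : ∀ y ∈ (H : Set V), y ∈ D := fun y hy => (mem_filter.1 (mem_filter.1 hy).1).1
  have hxH : x ∈ H := (hHS x).2 (SimpleGraph.Reachable.refl _)
  let T : Finset ℕ := (range m).filter fun i => TT G c (H : Set V) i
  have hT : ∀ i, i ∈ T ↔ i < m ∧ TT G c (H : Set V) i := fun i => by
    rw [mem_filter, mem_range]
  have hNcard : (T.image c).card = T.card := card_image_of_injOn fun i hi j hj hij =>
    hc.inj i j ((hT i).1 hi).1 ((hT j).1 hj).1 hij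
  have h2m := hc.two
  by_cases hcase : (T.image c).card ≤ al G D
  · have h1 := hD (T.image c) (by
      intro y hy
      obtain ⟨i, hi, rfl⟩ := mem_image.1 hy
      exact hcD i ((hT i).1 hi).1) hcase H (D \ (T.image c ∪ H)) (by
      ext y
      simp only [mem_union, mem_sdiff, not_or]
      constructor
      · rintro (hy | ⟨h1, h2, -⟩)
        · refine ⟨hHD y hy, fun h3 => ?_⟩
          obtain ⟨i, hi, rfl⟩ := mem_image.1 h3
          exact hHoff _ hy i ((hT i).1 hi).1 rfl
        · exact ⟨h1, h2⟩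
      · rintro ⟨h1, h2⟩
        by_cases hy : y ∈ H
        · exact Or.inl hy
        · exact Or.inr ⟨h1, h2, hy⟩) (by
      rw [disjoint_left]
      intro y hy h2
      exact (mem_sdiff.1 h2).2 (mem_union_right _ hy)) (by
      intro y hy z hz hyz
      obtain ⟨hzD, hz2⟩ := mem_sdiff.1 hz
      rw [mem_union, not_or] at hz2
      by_cases hzc : ∀ i < m, c i ≠ z
      · apply hz2.2
        have hzS : z ∈ S := mem_filter.2 ⟨hzD, hzc⟩
        have hyS : y ∈ S := (mem_filter.1 hy).1
        have h3 : (inG G S).Adj y z := ⟨hyz, hyS, hzS⟩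
        exact (hHS z).2 (((hHS y).1 hy).trans h3.reachable)
      · push Not at hzc
        obtain ⟨i, hi, rfl⟩ := hzc
        exact hz2.1 (mem_image.2 ⟨i, (hT i).2 ⟨hi, y, hy, hyz.symm⟩, rfl⟩))
    rcases h1 with h1 | h1
    · rw [h1] at hxH
      exact absurd hxH (notMem_empty _)
    · have key : ∀ i < m, TT G c (H : Set V) i := by
        intro i hi
        have h2 : c i ∈ T.image c := by
          by_contra h3
          have h4 : c i ∈ D \ (T.image c ∪ H) := mem_sdiff.2 ⟨hcD i hi, fun h5 => by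
            rcases mem_union.1 h5 with h5 | h5
            · exact h3 h5
            · exact hHoff _ h5 i hi rfl⟩
          rw [h1] at h4
          exact absurd h4 (notMem_empty _)
        obtain ⟨j, hj, hij⟩ := mem_image.1 h2
        have h3 := hc.inj j i ((hT j).1 hj).1 hi hij
        rw [← h3]
        exact ((hT j).1 hj).2
      exact hc.E0 hcD hmax hHc hHoff hHD (show 0 + 1 < m by omega) (key 0 (by omega))
        (key (0 + 1) (by omega))
  · rw [not_le, hNcard] at hcase
    let T' : Finset ℕ := T.filter fun i => i + 1 < m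
    have hT' : ∀ i, i ∈ T' ↔ i + 1 < m ∧ TT G c (H : Set V) i := fun i => by
      rw [mem_filter, hT]
      constructor
      · rintro ⟨⟨-, h1⟩, h2⟩
        exact ⟨h2, h1⟩
      · rintro ⟨h1, h2⟩
        exact ⟨⟨by omega, h2⟩, h1⟩
    have hTcard : T.card ≤ T'.card + 1 := by
      have h1 : T ⊆ insert (m - 1) T' := by
        intro i hi
        rw [mem_insert]
        by_cases h2 : i + 1 < m
        · exact Or.inr ((hT' i).2 ⟨h2, ((hT i).1 hi).2⟩)
        · have h3 := ((hT i).1 hi).1
          exact Or.inl (by omega)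
      exact (card_le_card h1).trans (card_insert_le _ _)
    have hI : Ind G (insert x (T'.image fun i => c (i + 1))) := by
      have hxi : ∀ i ∈ T', ¬ G.Adj x (c (i + 1)) := by
        intro i hi hadj
        obtain ⟨h1, h2⟩ := (hT' i).1 hi
        exact hc.E0 hcD hmax hHc hHoff hHD h1 h2 ⟨x, hxH, hadj.symm⟩
      intro y hy z hz hyz
      rcases mem_insert.1 hy with hy | hy <;> rcases mem_insert.1 hz with hz | hz
      · rw [hy, hz] at hyz
        exact G.loopless.irrefl _ hyz
      · obtain ⟨i, hi, rfl⟩ := mem_image.1 hz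
        rw [hy] at hyz
        exact hxi i hi hyz
      · obtain ⟨i, hi, rfl⟩ := mem_image.1 hy
        rw [hz] at hyz
        exact hxi i hi hyz.symm
      · obtain ⟨i, hi, rfl⟩ := mem_image.1 hy
        obtain ⟨j, hj, rfl⟩ := mem_image.1 hz
        obtain ⟨h1, h2⟩ := (hT' i).1 hi
        obtain ⟨h3, h4⟩ := (hT' j).1 hj
        rcases lt_trichotomy i j with h5 | h5 | h5
        · exact hc.E1 hcD hmax hHc hHoff hHD h5 h3 h2 h4 hyz
        · rw [h5] at hyz
          exact G.loopless.irrefl _ hyz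
        · exact hc.E1 hcD hmax hHc hHoff hHD h5 h1 h4 h2 hyz.symm
    have hIcard : (insert x (T'.image fun i => c (i + 1))).card = T'.card + 1 := by
      rw [card_insert_of_notMem, card_image_of_injOn]
      · intro i hi j hj hij
        have h1 := ((hT' i).1 hi).1
        have h2 := ((hT' j).1 hj).1
        have h3 := hc.inj _ _ h1 h2 hij
        omega
      · intro h1
        obtain ⟨i, hi, hix⟩ := mem_image.1 h1
        exact hxc _ ((hT' i).1 hi).1 hix
    have h1 := hI.card_le_al (D := D) (by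
      intro y hy
      rcases mem_insert.1 hy with hy | hy
      · rw [hy]
        exact hxD
      · obtain ⟨i, hi, rfl⟩ := mem_image.1 hy
        exact hcD _ ((hT' i).1 hi).1)
    omega

end Pool.Agent.RamQ
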