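import Pool.Agent.Lib.MP_078aef_co_q.Base
import Pool.Agent.Lib.MP_078aef_co.Cut

/-! The gluing inequality and the bound for independent sets of vertices of low degree. -/

namespace Pool.Agent.RamQ

open Finset Pool.Agent.RamseyHam

/-- `R(k,p) - 1 + R(k,q) - 1 + (k-2) ≤ R(k,p+q-1) - 1` -/
theorem glueR {k p q : ℕ} (hk : 2 ≤ k) (R : ℕ → ℕ) (hR : ∀ p, 2 ≤ p → IsRam k p (R p))
    (hp : 2 ≤ p) (hq : 2 ≤ q) : R p + R q + (k - 2) ≤ R (p + q - 1) + 1 := by
  obtain ⟨HA, a, hHA, ha⟩ := exists_big hk hp (hR p hp)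
  obtain ⟨HB, b, hHB, hb⟩ := exists_big hk hq (hR q hq)
  have hF : KS k (p + q - 1) (glue HA HB a b) :=
    ⟨glue_cliqueFree hHA.1 hHB.1 ha hb (by omega), glue_compl hHA.2 hHB.2 (by omega) (by omega)⟩
  have h1 := (hR (p + q - 1) (by omega)).card_lt hF
  have h2 := (hR p hp).pos
  have h3 := (hR q hq).pos
  simp at h1
  omega

/-- independent sets of vertices of degree less than `D` in a critical graph are small -/
theorem low {V : Type*} [Fintype V] [DecidableEq V] {G : SimpleGraph V} {k s : ℕ} (hk : 2 ≤ k)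
    (hG : KS k s G) (R : ℕ → ℕ) (hR : ∀ p, 2 ≤ p → IsRam k p (R p))
    (hcrit : Fintype.card V + 1 = R s) {D J M : ℕ} (hJ : 1 ≤ J) (hJs : J + 2 ≤ s)
    (hM : ∃ H : SimpleGraph (Fin M), KS k (J + 1) H) (hD : J * D < M + (k - 2))
    {I : Finset V} (hI : Ind G I) (hdeg : ∀ v ∈ I, (nb G v).card < D) : I.card < J := by
  classical
  by_contra hcon
  obtain ⟨I', hI', hcard⟩ := exists_subset_card_eq (not_lt.mp hcon)
  have hI'i : Ind G I' := hI.mono hI'
  set N : Finset V := I'.biUnion (fun v => insert v (nb G v)) with hN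
  set U : Finset V := univ \ N with hU
  have hNcard : N.card ≤ J * D := by
    rw [← hcard]
    refine card_biUnion_le_card_mul _ _ _ fun v hv => ?_
    have h1 := hdeg v (hI' hv)
    have h2 := card_insert_le v (nb G v)
    omega
  have hUcard : Fintype.card V ≤ U.card + J * D := by
    have h1 : U.card = Fintype.card V - N.card := by
      rw [hU, card_sdiff_of_subset (subset_univ _), card_univ]
    omega
  have hKS : KS k (s - J) (SimpleGraph.comap (Subtype.val : {x // x ∈ U} → V) G) := by
    refine ⟨hG.1.comap (SimpleGraph.Embedding.comap ⟨_, Subtype.val_injective⟩ G).isContained, ?_⟩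
    intro Q hQ
    have hQU : ∀ x ∈ Q.map ⟨Subtype.val, Subtype.val_injective⟩, x ∈ U := by
      intro x hx
      obtain ⟨y, hy, rfl⟩ := mem_map.mp hx
      exact y.2
    have hfar : ∀ v ∈ I', ∀ x ∈ U, v ≠ x ∧ ¬ G.Adj v x := by
      intro v hv x hx
      have h1 : x ∉ N := (mem_sdiff.mp hx).2
      constructor
      · rintro rfl
        exact h1 (mem_biUnion.mpr ⟨v, hv, mem_insert_self _ _⟩)
      · intro h
        exact h1 (mem_biUnion.mpr ⟨v, hv, mem_insert_of_mem (mem_nb.mpr h)⟩)
    have hdis : Disjoint I' (Q.map ⟨Subtype.val, Subtype.val_injective⟩) := by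
      rw [disjoint_left]
      intro x hx hx'
      exact (hfar x hx x (hQU x hx')).1 rfl
    have hcl : Gᶜ.IsClique ((I' ∪ Q.map ⟨Subtype.val, Subtype.val_injective⟩ : Finset V) : Set V) := by
      intro x hx y hy hxy
      rw [SimpleGraph.compl_adj]
      refine ⟨hxy, ?_⟩
      simp only [coe_union, Set.mem_union, mem_coe] at hx hy
      rcases hx with hx | hx <;> rcases hy with hy | hy
      · exact hI'i x hx y hy
      · exact (hfar x hx y (hQU y hy)).2
      · exact fun h => (hfar y hy x (hQU x hx)).2 h.symm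
      · obtain ⟨x', hx', rfl⟩ := mem_map.mp hx
        obtain ⟨y', hy', rfl⟩ := mem_map.mp hy
        have := hQ.isClique hx' hy' (fun h => hxy (by rw [h]))
        rw [SimpleGraph.compl_adj] at this
        exact fun h => this.2 h
    have h1 := clique_card_lt hG.2 hcl
    rw [card_union_of_disjoint hdis, card_map, hQ.card_eq, hcard] at h1
    omega
  have h1 := (hR (s - J) (by omega)).card_lt hKS
  simp only [Fintype.card_coe] at h1
  obtain ⟨H, hH⟩ := hM
  have h2 := (hR (J + 1) (by omega)).card_lt hH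
  simp only [Fintype.card_fin] at h2
  have h3 := glueR hk R hR (show 2 ≤ J + 1 by omega) (show 2 ≤ s - J by omega)
  rw [show J + 1 + (s - J) - 1 = s by omega] at h3
  omega

end Pool.Agent.RamQ
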