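import Mathlib

/-! The numerical choice for the quadratic range. -/

namespace Pool.Agent.RamQ

open Finset

theorem numA_step {n c : ℕ} (h : 25 * c ≤ n + 1) :
    24 * (n + 1).choose c ≤ 25 * n.choose c := by
  have h1 := Nat.choose_mul_succ_eq n c
  have hpos : 0 < n + 1 := Nat.succ_pos n
  refine Nat.le_of_mul_le_mul_left (c := n + 1) ?_ hpos
  obtain ⟨d, hd⟩ : ∃ d, n + 1 = c + d := ⟨n + 1 - c, by omega⟩
  have h2 : n + 1 - c = d := by omega
  rw [h2] at h1
  have h3 : 24 * (n + 1) ≤ 25 * d := by omega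
  calc (n + 1) * (24 * (n + 1).choose c) = (24 * (n + 1)) * (n + 1).choose c := by ring
    _ ≤ (25 * d) * (n + 1).choose c := Nat.mul_le_mul_right _ h3
    _ = 25 * ((n + 1).choose c * d) := by ring
    _ = 25 * (n.choose c * (n + 1)) := by rw [h1]
    _ = (n + 1) * (25 * n.choose c) := by ring

theorem numA_iter {n c : ℕ} (h : 25 * c ≤ n + 1) (j : ℕ) :
    24 ^ j * (n + j).choose c ≤ 25 ^ j * n.choose c := by
  induction j with
  | zero => simp
  | succ j ih =>
    have h1 := numA_step (n := n + j) (c := c) (by omega)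
    calc 24 ^ (j + 1) * (n + (j + 1)).choose c = 24 ^ j * (24 * (n + j + 1).choose c) := by
          rw [← add_assoc]; ring
      _ ≤ 24 ^ j * (25 * (n + j).choose c) := Nat.mul_le_mul_left _ h1
      _ = 25 * (24 ^ j * (n + j).choose c) := by ring
      _ ≤ 25 * (25 ^ j * n.choose c) := Nat.mul_le_mul_left _ ih
      _ = 25 ^ (j + 1) * n.choose c := by ring

theorem numA_ratio {c : ℕ} (hc : 2 ≤ c) :
    (25 * (c + 1) + 22).choose (c + 1) ≤ 88 * (25 * c + 22).choose c := by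
  have h1 := numA_iter (n := 25 * c + 22) (c := c) (by omega) 24
  have h2 : 33 * 25 ^ 24 ≤ 88 * 24 ^ 24 := by norm_num
  have h3 := Nat.add_one_mul_choose_eq (25 * c + 22 + 24) c
  have h4 : 25 * (c + 1) + 22 = 25 * c + 22 + 24 + 1 := by ring
  rw [h4]
  have h5 : (25 * c + 22 + 24 + 1).choose (c + 1) ≤ 33 * (25 * c + 22 + 24).choose c := by
    refine Nat.le_of_mul_le_mul_right (c := c + 1) ?_ (Nat.succ_pos c)
    calc (25 * c + 22 + 24 + 1).choose (c + 1) * (c + 1)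
        = (25 * c + 22 + 24 + 1) * (25 * c + 22 + 24).choose c := h3.symm
      _ ≤ (33 * (c + 1)) * (25 * c + 22 + 24).choose c := Nat.mul_le_mul_right _ (by omega)
      _ = 33 * (25 * c + 22 + 24).choose c * (c + 1) := by ring
  refine Nat.le_of_mul_le_mul_left (c := 24 ^ 24) ?_ (by positivity)
  calc 24 ^ 24 * (25 * c + 22 + 24 + 1).choose (c + 1)
      ≤ 24 ^ 24 * (33 * (25 * c + 22 + 24).choose c) := Nat.mul_le_mul_left _ h5
    _ = 33 * (24 ^ 24 * (25 * c + 22 + 24).choose c) := by ring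
    _ ≤ 33 * (25 ^ 24 * (25 * c + 22).choose c) := Nat.mul_le_mul_left _ h1
    _ = (33 * 25 ^ 24) * (25 * c + 22).choose c := by ring
    _ ≤ (88 * 24 ^ 24) * (25 * c + 22).choose c := Nat.mul_le_mul_right _ h2
    _ = 24 ^ 24 * (88 * (25 * c + 22).choose c) := by ring

theorem numA_main {c : ℕ} (hc : 2 ≤ c) :
    ((15 * c + 5) * (2 * (64 * (25 * c + 22).choose c + (24 * c + 23) ^ 2))) ^ 2 <
      2 ^ (15 * c + 17) := by
  induction c, hc using Nat.le_induction with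
  | base =>
    have : (25 * 2 + 22).choose 2 = 2556 := by decide
    rw [this]
    norm_num
  | succ c hc ih =>
    have h1 := numA_ratio hc
    have h2 : (24 * (c + 1) + 23) ^ 2 ≤ 88 * (24 * c + 23) ^ 2 := by nlinarith
    have h3 : 7 * (15 * (c + 1) + 5) ≤ 10 * (15 * c + 5) := by omega
    have h4 : 7 * ((15 * (c + 1) + 5) *
        (2 * (64 * (25 * (c + 1) + 22).choose (c + 1) + (24 * (c + 1) + 23) ^ 2))) ≤
        880 * ((15 * c + 5) * (2 * (64 * (25 * c + 22).choose c + (24 * c + 23) ^ 2))) := by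
      calc 7 * ((15 * (c + 1) + 5) *
        (2 * (64 * (25 * (c + 1) + 22).choose (c + 1) + (24 * (c + 1) + 23) ^ 2)))
          = (7 * (15 * (c + 1) + 5)) *
        (2 * (64 * (25 * (c + 1) + 22).choose (c + 1) + (24 * (c + 1) + 23) ^ 2)) := by ring
        _ ≤ (10 * (15 * c + 5)) *
        (2 * (64 * (88 * (25 * c + 22).choose c) + 88 * (24 * c + 23) ^ 2)) :=
          Nat.mul_le_mul h3 (Nat.mul_le_mul_left _
            (Nat.add_le_add (Nat.mul_le_mul_left _ h1) h2))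
        _ = _ := by ring
    generalize (15 * (c + 1) + 5) *
        (2 * (64 * (25 * (c + 1) + 22).choose (c + 1) + (24 * (c + 1) + 23) ^ 2)) = X at h4 ⊢
    generalize (15 * c + 5) * (2 * (64 * (25 * c + 22).choose c + (24 * c + 23) ^ 2)) = Y
      at h4 ih
    have h5 : (7 * X) ^ 2 ≤ (880 * Y) ^ 2 := Nat.pow_le_pow_left h4 2
    have h6 : 2 ^ (15 * (c + 1) + 17) = 32768 * 2 ^ (15 * c + 17) := by
      rw [show 15 * (c + 1) + 17 = 15 + (15 * c + 17) by ring, pow_add]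
      norm_num
    rw [h6]
    have h7 : (7 * X) ^ 2 = 49 * X ^ 2 := by ring
    have h8 : (880 * Y) ^ 2 = 774400 * Y ^ 2 := by ring
    rw [h7, h8] at h5
    omega

theorem numA_mono {A J₀ : ℕ} (h3 : 3 ≤ J₀) (h : (J₀ * A) ^ 2 < 2 ^ J₀) {J : ℕ} (hJ : J₀ ≤ J) :
    (J * A) ^ 2 < 2 ^ J := by
  induction J, hJ using Nat.le_induction with
  | base => exact h
  | succ J hJ ih =>
    have h1 : (J + 1) ^ 2 ≤ 2 * J ^ 2 := by nlinarith
    calc ((J + 1) * A) ^ 2 = (J + 1) ^ 2 * A ^ 2 := by ring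
      _ ≤ (2 * J ^ 2) * A ^ 2 := Nat.mul_le_mul_right _ h1
      _ = 2 * (J * A) ^ 2 := by ring
      _ < 2 * 2 ^ J := by omega
      _ = 2 ^ (J + 1) := by ring

theorem numA {k s : ℕ} (hk : 1 ≤ k) (hks : k ≤ s) (h : 64 * s ≤ k ^ 2) :
    ∃ J b : ℕ, 1 ≤ J ∧ 2 ≤ b ∧ J + 2 ≤ k ∧ s ≤ (k - 1 - J) * b ∧
      J * (2 * (k + b - 2).choose (k - 1) + 2 * s) < 2 ^ ((J + 1) / 2) := by
  have hk64 : 64 ≤ k := by nlinarith
  obtain ⟨c, e, hce, he⟩ : ∃ c e, k = 24 * c + e ∧ e < 24 :=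
    ⟨k / 24, k % 24, (Nat.div_add_mod k 24).symm, Nat.mod_lt _ (by norm_num)⟩
  have hc : 2 ≤ c := by omega
  -- the number of blocks
  obtain ⟨t, ht1, ht2⟩ : ∃ t, s ≤ t * (c + 1) ∧ t * (c + 1) ≤ s + c := by
    refine ⟨(s + c) / (c + 1), ?_, Nat.div_mul_le_self _ _⟩
    have h1 := Nat.div_add_mod (s + c) (c + 1)
    have h2 := Nat.mod_lt (s + c) (Nat.succ_pos c)
    rw [mul_comm]
    have h3 : (s + c) % (c + 1) ≤ c := Nat.lt_succ_iff.mp h2
    omega
  have ht0 : 1 ≤ t := by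
    rcases Nat.eq_zero_or_pos t with h0 | h0
    · rw [h0] at ht1; omega
    · exact h0
  have hs64 : 64 * s ≤ 576 * c ^ 2 + 48 * (c * e) + e ^ 2 := by
    calc 64 * s ≤ k ^ 2 := h
      _ = 576 * c ^ 2 + 48 * (c * e) + e ^ 2 := by rw [hce]; ring
  have htb : t + 6 ≤ 9 * c + e := by
    by_contra hcon
    have hcon : 9 * c + e ≤ t + 5 := by omega
    have h1 : (9 * c + e) * (c + 1) ≤ s + c + 5 * (c + 1) := by
      calc (9 * c + e) * (c + 1) ≤ (t + 5) * (c + 1) := Nat.mul_le_mul_right _ hcon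
        _ = t * (c + 1) + 5 * (c + 1) := by ring
        _ ≤ _ := Nat.add_le_add_right ht2 _
    have h2 : 64 * ((9 * c + e) * (c + 1)) = 576 * c ^ 2 + 64 * (c * e) + 576 * c + 64 * e := by
      ring
    have h3 : e ^ 2 ≤ 23 * e := by rw [sq]; exact Nat.mul_le_mul_right _ (by omega)
    have h4 : 2 * e ≤ c * e := Nat.mul_le_mul_right _ hc
    omega
  have hJ : 15 * c + 5 ≤ k - 1 - t := by omega
  refine ⟨k - 1 - t, c + 1, by omega, by omega, by omega, ?_, ?_⟩
  · have h1 : k - 1 - (k - 1 - t) = t := by omega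
    rw [h1]
    exact ht1
  · have h1 : k + (c + 1) - 2 = k - 1 + c := by omega
    have h2 : (k - 1 + c).choose (k - 1) = (k - 1 + c).choose c := Nat.choose_symm_add
    have h3 : (k - 1 + c).choose c ≤ (25 * c + 22).choose c := Nat.choose_le_choose c (by omega)
    rw [h1, h2]
    set A := 2 * (k - 1 + c).choose c + 2 * s with hA
    have h4 : 64 * A ≤ 2 * (64 * (25 * c + 22).choose c + (24 * c + 23) ^ 2) := by
      have h5 : k ^ 2 ≤ (24 * c + 23) ^ 2 := Nat.pow_le_pow_left (by omega) 2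
      omega
    have h6 := numA_main hc
    have h7 : ((15 * c + 5) * A) ^ 2 < 2 ^ (15 * c + 5) := by
      have h8 : ((15 * c + 5) * (64 * A)) ^ 2 < 2 ^ (15 * c + 17) :=
        lt_of_le_of_lt (Nat.pow_le_pow_left (Nat.mul_le_mul_left _ h4) 2) h6
      have h9 : ((15 * c + 5) * (64 * A)) ^ 2 = 4096 * ((15 * c + 5) * A) ^ 2 := by ring
      have h10 : 2 ^ (15 * c + 17) = 4096 * 2 ^ (15 * c + 5) := by
        rw [show 15 * c + 17 = 12 + (15 * c + 5) by ring, pow_add]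
        norm_num
      rw [h9, h10] at h8
      omega
    have h11 := numA_mono (by omega) h7 hJ
    set J := k - 1 - t with hJd
    by_contra hcon
    have hcon : 2 ^ ((J + 1) / 2) ≤ J * A := not_lt.mp hcon
    have h12 : 2 ^ J ≤ (2 ^ ((J + 1) / 2)) ^ 2 := by
      rw [← pow_mul]
      exact Nat.pow_le_pow_right (by norm_num) (by omega)
    have h13 : (2 ^ ((J + 1) / 2)) ^ 2 ≤ (J * A) ^ 2 := Nat.pow_le_pow_left hcon 2
    omega

end Pool.Agent.RamQ
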