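import Mathlib

/-! The numerical estimates for the cubic range, first part. -/

namespace Pool.Agent.RamQ

open Finset

/-- doubling the number of extra vertices -/
theorem choose_double (r β : ℕ) : (r + 2 * β).choose r ≤ 2 ^ r * (r + β).choose r := by
  induction r with
  | zero => simp
  | succ r ih =>
    have h1 := Nat.add_one_mul_choose_eq (r + 2 * β) r
    have h2 := Nat.add_one_mul_choose_eq (r + β) r
    have e1 : r + 1 + 2 * β = r + 2 * β + 1 := by ring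
    have e2 : r + 1 + β = r + β + 1 := by ring
    rw [e1, e2]
    refine Nat.le_of_mul_le_mul_right ?_ (Nat.succ_pos r)
    calc (r + 2 * β + 1).choose (r + 1) * (r + 1) = (r + 2 * β + 1) * (r + 2 * β).choose r := h1.symm
      _ ≤ (2 * (r + β + 1)) * (2 ^ r * (r + β).choose r) := Nat.mul_le_mul (by omega) ih
      _ = 2 ^ (r + 1) * ((r + β + 1) * (r + β).choose r) := by ring
      _ = 2 ^ (r + 1) * (r + β + 1).choose (r + 1) * (r + 1) := by rw [h2]; ring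

theorem numB_double (r β i : ℕ) : (r + β * 2 ^ i).choose r ≤ 2 ^ (i * r) * (r + β).choose r := by
  induction i with
  | zero => simp
  | succ i ih =>
    have h := choose_double r (β * 2 ^ i)
    have e : r + β * 2 ^ (i + 1) = r + 2 * (β * 2 ^ i) := by ring
    rw [e]
    calc _ ≤ 2 ^ r * (r + β * 2 ^ i).choose r := h
      _ ≤ 2 ^ r * (2 ^ (i * r) * (r + β).choose r) := Nat.mul_le_mul_left _ ih
      _ = 2 ^ ((i + 1) * r) * (r + β).choose r := by ring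

theorem numB_fact (B : ℕ) : B ^ B ≤ 3 ^ B * B.factorial := by
  have h1 := Real.pow_div_factorial_le_exp (B : ℝ) (Nat.cast_nonneg B) B
  have hf : (0 : ℝ) < B.factorial := by exact_mod_cast Nat.factorial_pos B
  rw [div_le_iff₀ hf] at h1
  have h2 : Real.exp B ≤ 3 ^ B := by
    have h3 : Real.exp B = Real.exp 1 ^ B := by rw [← Real.exp_nat_mul, mul_one]
    rw [h3]
    exact pow_le_pow_left₀ (Real.exp_pos 1).le (Real.exp_one_lt_d9.le.trans (by norm_num)) B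
  have h4 : ((B ^ B : ℕ) : ℝ) ≤ ((3 ^ B * B.factorial : ℕ) : ℝ) := by
    push_cast
    exact h1.trans (mul_le_mul_of_nonneg_right h2 hf.le)
  exact_mod_cast h4

theorem numB_base {n B : ℕ} (h : n ≤ 258 * B) : n.choose B ≤ 2 ^ (10 * B) := by
  have hf := Nat.factorial_pos B
  refine Nat.le_of_mul_le_mul_right ?_ hf
  calc n.choose B * B.factorial = n.descFactorial B := by
        rw [Nat.descFactorial_eq_factorial_mul_choose, mul_comm]
    _ ≤ n ^ B := Nat.descFactorial_le_pow n B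
    _ ≤ (258 * B) ^ B := Nat.pow_le_pow_left h B
    _ = 258 ^ B * B ^ B := mul_pow _ _ _
    _ ≤ 258 ^ B * (3 ^ B * B.factorial) := Nat.mul_le_mul_left _ (numB_fact B)
    _ = 774 ^ B * B.factorial := by
        rw [← mul_assoc, ← mul_pow]
        norm_num
    _ ≤ 1024 ^ B * B.factorial :=
        Nat.mul_le_mul_right _ (Nat.pow_le_pow_left (by norm_num) B)
    _ = 2 ^ (10 * B) * B.factorial := by
        rw [pow_mul]
        norm_num

theorem numB_choose {k : ℕ} (hk : 2 ^ 16 ≤ k) (i : ℕ) :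
    (k + k / 256 * 2 ^ i - 2).choose (k - 1) ≤ 2 ^ (i * k) * 2 ^ (10 * (k / 256)) := by
  obtain ⟨B, hB⟩ : ∃ B, B = k / 256 := ⟨_, rfl⟩
  rw [← hB]
  have h1 : k + B * 2 ^ i - 2 ≤ (k - 1) + B * 2 ^ i := by omega
  have h2 : (k - 1) + B ≤ 258 * B := by omega
  calc (k + B * 2 ^ i - 2).choose (k - 1) ≤ ((k - 1) + B * 2 ^ i).choose (k - 1) :=
        Nat.choose_le_choose _ h1
    _ ≤ 2 ^ (i * (k - 1)) * ((k - 1) + B).choose (k - 1) := numB_double _ _ _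
    _ ≤ 2 ^ (i * k) * 2 ^ (10 * B) := by
        refine Nat.mul_le_mul (Nat.pow_le_pow_right (by norm_num)
          (Nat.mul_le_mul_left _ (Nat.sub_le _ _))) ?_
        rw [Nat.choose_symm_add]
        exact numB_base h2

theorem numB_lt {m : ℕ} (hm : 5 ≤ m) : 4 * m < 2 ^ m := by
  induction m, hm using Nat.le_induction with
  | base => norm_num
  | succ m hm ih =>
    rw [pow_succ]
    omega

theorem numB_cube {k : ℕ} (hk : 2 ^ 16 ≤ k) : k ^ 3 ≤ 2 ^ (k / 16) := by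
  obtain ⟨a, ha⟩ : ∃ a, a = k / 64 := ⟨_, rfl⟩
  have h1 : k ≤ 128 * a := by omega
  have h2 : 4 * a ≤ k / 16 := by omega
  have h3 : 24 ≤ a := by omega
  calc k ^ 3 ≤ (128 * a) ^ 3 := Nat.pow_le_pow_left h1 3
    _ = 2 ^ 21 * a ^ 3 := by ring
    _ ≤ 2 ^ a * (2 ^ a) ^ 3 := Nat.mul_le_mul (Nat.pow_le_pow_right (by norm_num) (by omega))
        (Nat.pow_le_pow_left Nat.lt_two_pow_self.le 3)
    _ = 2 ^ (4 * a) := by ring
    _ ≤ 2 ^ (k / 16) := Nat.pow_le_pow_right (by norm_num) h2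

theorem numB_k {k L : ℕ} (hL : 1 ≤ L) (hk : 2 ^ 15 * L * 2 ^ L ≤ k) :
    2 ^ 16 ≤ k ∧ 2 ^ 16 * L ≤ k ∧ 2 ^ L ≤ k := by
  have h2 : 2 ^ 1 ≤ 2 ^ L := Nat.pow_le_pow_right (by norm_num) hL
  have h3 : 2 ^ 15 * L * 2 ^ 1 ≤ 2 ^ 15 * L * 2 ^ L := Nat.mul_le_mul_left _ h2
  have h4 : 1 * 2 ^ L ≤ 2 ^ 15 * L * 2 ^ L := Nat.mul_le_mul_right _ (by omega)
  have h5 : 2 ^ 16 * L ≤ k := by
    refine le_trans (le_of_eq ?_) (h3.trans hk)
    ring
  refine ⟨by omega, h5, by omega⟩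

theorem numB_E {k L : ℕ} (hL : 1 ≤ L) (hk : 2 ^ 15 * L * 2 ^ L ≤ k) :
    4 * L * 2 ^ (10 * (k / 256)) < 2 ^ (k / 16) := by
  obtain ⟨h1, h2, -⟩ := numB_k hL hk
  obtain ⟨B, hB⟩ : ∃ B, B = k / 256 := ⟨_, rfl⟩
  rw [← hB]
  have h3 : L + 2 + 10 * B ≤ k / 16 := by omega
  calc 4 * L * 2 ^ (10 * B) < 4 * 2 ^ L * 2 ^ (10 * B) := by
        have := Nat.lt_two_pow_self (n := L)
        exact Nat.mul_lt_mul_of_pos_right (by omega) (by positivity)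
    _ = 2 ^ (L + 2 + 10 * B) := by ring
    _ ≤ 2 ^ (k / 16) := Nat.pow_le_pow_right (by norm_num) h3

theorem numB_s {k s L : ℕ} (hL : 1 ≤ L) (hk : 2 ^ 15 * L * 2 ^ L ≤ k)
    (hs : s ≤ k / 2 * (k / 256 * 2 ^ (L - 1))) : 4 * s + k ≤ 2 ^ (k / 16) := by
  obtain ⟨h1, -, h2⟩ := numB_k hL hk
  refine le_trans ?_ (numB_cube h1)
  have h3 : 2 ^ (L - 1) ≤ k := (Nat.pow_le_pow_right (by norm_num) (Nat.sub_le _ _)).trans h2
  have h4 : s ≤ k / 2 * (k / 256 * k) :=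
    hs.trans (Nat.mul_le_mul_left _ (Nat.mul_le_mul_left _ h3))
  have h5 : 256 * (k / 256) ≤ k := Nat.mul_div_le k 256
  have h6 : 2 * (k / 2) ≤ k := Nat.mul_div_le k 2
  have h7 : (2 * (k / 2)) * (256 * (k / 256)) * k ≤ k * k * k :=
    Nat.mul_le_mul_right _ (Nat.mul_le_mul h6 h5)
  have h8 : 512 * s ≤ k ^ 3 := by
    calc 512 * s ≤ 512 * (k / 2 * (k / 256 * k)) := Nat.mul_le_mul_left _ h4
      _ = (2 * (k / 2)) * (256 * (k / 256)) * k := by ring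
      _ ≤ k * k * k := h7
      _ = k ^ 3 := by ring
  have h9 : 2 * k ≤ k ^ 3 := by
    calc 2 * k ≤ k * k := Nat.mul_le_mul_right _ (by omega)
      _ ≤ k * k * k := Nat.le_mul_of_pos_right _ (by omega)
      _ = k ^ 3 := by ring
  omega

theorem numB_zero {k : ℕ} (hk : 2 ^ 16 ≤ k) :
    4 * (k / 16) * 2 ^ (k / 16) < 2 ^ (2 * (k / 16)) := by
  have h1 : 5 ≤ k / 16 := by omega
  calc 4 * (k / 16) * 2 ^ (k / 16) < 2 ^ (k / 16) * 2 ^ (k / 16) :=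
        Nat.mul_lt_mul_of_pos_right (numB_lt h1) (by positivity)
    _ = 2 ^ (2 * (k / 16)) := by ring

theorem numB_J {k ℓ L : ℕ} (hk : 2 ^ 15 * L * 2 ^ L ≤ k) (hℓ : 1 ≤ ℓ) (hℓL : ℓ < L) :
    2 ^ (2 * (ℓ + 1)) * (2 * (ℓ + 1) * (k - 1)) * 2 ^ (ℓ * k + k / 16)
      < 2 ^ ((ℓ + 1) * (k - 1)) := by
  obtain ⟨h1, h2, -⟩ := numB_k (by omega) hk
  have h3 : 2 * (ℓ + 1) * (k - 1) ≤ k ^ 3 := by
    calc 2 * (ℓ + 1) * (k - 1) ≤ k * k := Nat.mul_le_mul (by omega) (by omega)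
      _ ≤ k * k * k := Nat.le_mul_of_pos_right _ (by omega)
      _ = k ^ 3 := by ring
  have h4 : (ℓ + 1) * (k - 1) = ℓ * k + (k - 1) - ℓ := by
    have : (ℓ + 1) * (k - 1) + ℓ = ℓ * k + (k - 1) := by
      obtain ⟨j, rfl⟩ : ∃ j, k = j + 1 := ⟨k - 1, by omega⟩
      rw [Nat.add_sub_cancel]
      ring
    omega
  have h5 : 2 * (ℓ + 1) + k / 16 + (ℓ * k + k / 16) < ℓ * k + (k - 1) - ℓ := by omega
  calc 2 ^ (2 * (ℓ + 1)) * (2 * (ℓ + 1) * (k - 1)) * 2 ^ (ℓ * k + k / 16)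
      ≤ 2 ^ (2 * (ℓ + 1)) * 2 ^ (k / 16) * 2 ^ (ℓ * k + k / 16) :=
        Nat.mul_le_mul_right _ (Nat.mul_le_mul_left _ (h3.trans (numB_cube h1)))
    _ = 2 ^ (2 * (ℓ + 1) + k / 16 + (ℓ * k + k / 16)) := by
        rw [← pow_add, ← pow_add]
    _ < 2 ^ (ℓ * k + (k - 1) - ℓ) := Nat.pow_lt_pow_right (by norm_num) h5
    _ = 2 ^ ((ℓ + 1) * (k - 1)) := by rw [h4]

end Pool.Agent.RamQ
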