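import Mathlib

/-! The numerical estimates for the cubic range, second part. -/

namespace Pool.Agent.RamQ

open Finset

private theorem numC_geo : ∀ L : ℕ, 1 ≤ L →
    ∑ ℓ ∈ Ico 1 L, (ℓ + 1) * 2 ^ ℓ = (L - 1) * 2 ^ L := by
  intro L hL
  induction L, hL using Nat.le_induction with
  | base => simp
  | succ n hn ih =>
    rw [Finset.sum_Ico_succ_top hn, ih]
    obtain ⟨m, rfl⟩ : ∃ m, n = m + 1 := ⟨n - 1, by omega⟩
    simp only [Nat.add_sub_cancel]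
    ring

private theorem numC_term {k D ℓ : ℕ} (hℓ : 1 ≤ ℓ) (hD : 0 < D) (hk : k - 1 ≤ 257 * D) :
    2 ^ (2 * (ℓ + 1)) * (2 * (ℓ + 1) * (k - 1)) / (D * 2 ^ (ℓ - 1)) ≤
      4112 * ((ℓ + 1) * 2 ^ ℓ) := by
  obtain ⟨m, rfl⟩ : ∃ m, ℓ = m + 1 := ⟨ℓ - 1, by omega⟩
  simp only [Nat.add_sub_cancel]
  refine Nat.div_le_of_le_mul ?_
  calc 2 ^ (2 * (m + 1 + 1)) * (2 * (m + 1 + 1) * (k - 1))
      ≤ 2 ^ (2 * (m + 1 + 1)) * (2 * (m + 1 + 1) * (257 * D)) := by gcongr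
    _ = D * 2 ^ m * (4112 * ((m + 1 + 1) * 2 ^ (m + 1))) := by ring

theorem numB_sum {k s L : ℕ} (hL : 1 ≤ L) (hk : 2 ^ 15 * L * 2 ^ L ≤ k)
    (hs : s ≤ k / 2 * (k / 256 * 2 ^ (L - 1))) :
    4 * (k / 16) + ∑ ℓ ∈ Ico 1 L, 2 ^ (2 * (ℓ + 1)) * (2 * (ℓ + 1) * (k - 1)) /
      (k / 256 * 2 ^ (ℓ - 1)) + s / (k / 256 * 2 ^ (L - 1)) < k - 2 := by
  have h2 : 2 ≤ 2 ^ L := by
    calc 2 = 2 ^ 1 := by norm_num
      _ ≤ 2 ^ L := Nat.pow_le_pow_right (by norm_num) hL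
  have h1 : 65536 ≤ k := by
    calc 65536 = 2 ^ 15 * 1 * 2 := by norm_num
      _ ≤ 2 ^ 15 * L * 2 ^ L := by gcongr
      _ ≤ k := hk
  have hD : 0 < k / 256 := by omega
  have hS : ∑ ℓ ∈ Ico 1 L, 2 ^ (2 * (ℓ + 1)) * (2 * (ℓ + 1) * (k - 1)) /
      (k / 256 * 2 ^ (ℓ - 1)) ≤ 4112 * (L * 2 ^ L) := by
    calc ∑ ℓ ∈ Ico 1 L, 2 ^ (2 * (ℓ + 1)) * (2 * (ℓ + 1) * (k - 1)) /
        (k / 256 * 2 ^ (ℓ - 1))
        ≤ ∑ ℓ ∈ Ico 1 L, 4112 * ((ℓ + 1) * 2 ^ ℓ) := by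
          refine Finset.sum_le_sum fun ℓ hℓ => ?_
          rw [Finset.mem_Ico] at hℓ
          exact numC_term hℓ.1 hD (by omega)
      _ = 4112 * ((L - 1) * 2 ^ L) := by rw [← Finset.mul_sum, numC_geo L hL]
      _ ≤ 4112 * (L * 2 ^ L) := by
          gcongr
          exact Nat.sub_le _ _
  have hS2 : 32768 * (L * 2 ^ L) ≤ k := by
    calc 32768 * (L * 2 ^ L) = 2 ^ 15 * L * 2 ^ L := by ring
      _ ≤ k := hk
  have hl : s / (k / 256 * 2 ^ (L - 1)) ≤ k / 2 := by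
    refine Nat.div_le_of_le_mul ?_
    rw [mul_comm]
    exact hs
  generalize (∑ ℓ ∈ Ico 1 L, 2 ^ (2 * (ℓ + 1)) * (2 * (ℓ + 1) * (k - 1)) /
      (k / 256 * 2 ^ (ℓ - 1))) = S at hS ⊢
  generalize s / (k / 256 * 2 ^ (L - 1)) = T at hl ⊢
  generalize L * 2 ^ L = A at hS hS2
  omega

/-- the choice of `L` -/
theorem numB_L {k s : ℕ} (hk : 2 ≤ k) (hks : k ^ 2 < 64 * s)
    (h : 2 ^ 26 * s * Nat.log 2 k ≤ k ^ 3) :
    ∃ L, 1 ≤ L ∧ 2 ^ 15 * L * 2 ^ L ≤ k ∧ s ≤ k / 2 * (k / 256 * 2 ^ (L - 1)) := by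
  set g : ℕ := Nat.log 2 k with hg
  have hg1 : 1 ≤ g := Nat.log_pos (by norm_num) hk
  have hk0 : 0 < k := by omega
  -- `2 ^ 20 * g < k`
  have hkg : 2 ^ 20 * g < k := by
    have h1 : k ^ 2 * (2 ^ 20 * g) < k ^ 2 * k := by
      calc k ^ 2 * (2 ^ 20 * g) < 64 * s * (2 ^ 20 * g) :=
            Nat.mul_lt_mul_of_pos_right hks (by positivity)
        _ = 2 ^ 26 * s * g := by ring
        _ ≤ k ^ 3 := h
        _ = k ^ 2 * k := by ring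
    exact lt_of_mul_lt_mul_left h1 (Nat.zero_le _)
  have hk16 : 2 ^ 16 ≤ k := by omega
  -- the choice of `L`
  have hex : ∃ L, k < 2 ^ 15 * (L + 1) * 2 ^ (L + 1) := by
    refine ⟨k, ?_⟩
    calc k < k + 1 := Nat.lt_succ_self k
      _ = 1 * (k + 1) * 1 := by ring
      _ ≤ 2 ^ 15 * (k + 1) * 2 ^ (k + 1) := by
          gcongr
          · norm_num
          · exact Nat.one_le_two_pow
  classical
  obtain ⟨L, hL1, hL2⟩ : ∃ L, k < 2 ^ 15 * (L + 1) * 2 ^ (L + 1) ∧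
      ∀ m < L, ¬ k < 2 ^ 15 * (m + 1) * 2 ^ (m + 1) :=
    ⟨Nat.find hex, Nat.find_spec hex, fun m hm => Nat.find_min hex hm⟩
  have hLp : 1 ≤ L := by
    rcases Nat.eq_zero_or_pos L with h0 | h0
    · subst h0
      norm_num at hL1
      omega
    · exact h0
  have hL3 : 2 ^ 15 * L * 2 ^ L ≤ k := by
    have h3 := hL2 (L - 1) (by omega)
    rw [Nat.sub_add_cancel hLp] at h3
    exact not_lt.1 h3
  refine ⟨L, hLp, hL3, ?_⟩
  -- `L + 15 ≤ g`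
  have hLg : L + 15 ≤ g := by
    rw [hg]
    refine Nat.le_log_of_pow_le (by norm_num) ?_
    calc 2 ^ (L + 15) = 2 ^ 15 * 1 * 2 ^ L := by ring
      _ ≤ 2 ^ 15 * L * 2 ^ L := by gcongr
      _ ≤ k := hL3
  by_contra hc
  push Not at hc
  obtain ⟨a, ha⟩ : ∃ a, a = k / 2 := ⟨_, rfl⟩
  obtain ⟨b, hb⟩ : ∃ b, b = k / 256 := ⟨_, rfl⟩
  obtain ⟨M, hM⟩ : ∃ M, M = L - 1 := ⟨_, rfl⟩
  have hLM : L = M + 1 := by omega
  rw [← ha, ← hb, ← hM] at hc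
  have ha2 : k ≤ 2 * a + 1 := by omega
  have hb2 : k ≤ 256 * b + 255 := by omega
  -- pass to the integers
  have e1 : 2 ^ 26 * (a * (b * 2 ^ M)) * g < k ^ 3 := by
    calc 2 ^ 26 * (a * (b * 2 ^ M)) * g < 2 ^ 26 * s * g := by
          gcongr
      _ ≤ k ^ 3 := h
  have e2 : k ^ 2 * (512 * (a * b) * g) < k ^ 2 * (k ^ 2 * (L + 1)) := by
    have e3 : k * (2 ^ 26 * (a * b) * g) ≤
        (2 ^ 15 * (L + 1) * 2 ^ (L + 1)) * (2 ^ 26 * (a * b) * g) := by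
      gcongr
    have e4 : (2 ^ 15 * (L + 1) * 2 ^ (L + 1)) * (2 ^ 26 * (a * b) * g) =
        2 ^ 17 * (L + 1) * (2 ^ 26 * (a * (b * 2 ^ M)) * g) := by
      rw [hLM]
      ring
    have e5 : 2 ^ 17 * (L + 1) * (2 ^ 26 * (a * (b * 2 ^ M)) * g) <
        2 ^ 17 * (L + 1) * k ^ 3 := by
      gcongr
    have e6 : k * (2 ^ 26 * (a * b) * g) < 2 ^ 17 * (L + 1) * k ^ 3 := by
      calc k * (2 ^ 26 * (a * b) * g)
          ≤ (2 ^ 15 * (L + 1) * 2 ^ (L + 1)) * (2 ^ 26 * (a * b) * g) := e3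
        _ = 2 ^ 17 * (L + 1) * (2 ^ 26 * (a * (b * 2 ^ M)) * g) := e4
        _ < 2 ^ 17 * (L + 1) * k ^ 3 := e5
    have e7 : 2 ^ 17 * (k * (512 * (a * b) * g)) < 2 ^ 17 * (k * (k ^ 2 * (L + 1))) := by
      calc 2 ^ 17 * (k * (512 * (a * b) * g)) = k * (2 ^ 26 * (a * b) * g) := by ring
        _ < 2 ^ 17 * (L + 1) * k ^ 3 := e6
        _ = 2 ^ 17 * (k * (k ^ 2 * (L + 1))) := by ring
    have e8 := lt_of_mul_lt_mul_left e7 (Nat.zero_le _)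
    calc k ^ 2 * (512 * (a * b) * g) = k * (k * (512 * (a * b) * g)) := by ring
      _ < k * (k * (k ^ 2 * (L + 1))) := by gcongr
      _ = k ^ 2 * (k ^ 2 * (L + 1)) := by ring
  have e9 : 512 * (a * b) * g < k ^ 2 * (L + 1) := lt_of_mul_lt_mul_left e2 (Nat.zero_le _)
  -- real inequalities in the integers
  have hk' : (2 : ℤ) ^ 20 * g < k := by exact_mod_cast hkg
  have i1 : (512 : ℤ) * (a * b) * g < (k : ℤ) ^ 2 * (L + 1) := by exact_mod_cast e9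
  have i2 : (k : ℤ) ≤ 2 * a + 1 := by exact_mod_cast ha2
  have i3 : (k : ℤ) ≤ 256 * b + 255 := by exact_mod_cast hb2
  have i4 : (L : ℤ) + 15 ≤ g := by exact_mod_cast hLg
  have i5 : (2 : ℤ) ^ 16 ≤ k := by exact_mod_cast hk16
  have i6 : ((k : ℤ) - 1) * (k - 255) ≤ 512 * (a * b) := by
    have j1 : (k : ℤ) - 1 ≤ 2 * a := by linarith
    have j2 : (k : ℤ) - 255 ≤ 256 * b := by linarith
    have j3 : (0 : ℤ) ≤ (k : ℤ) - 255 := by linarith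
    have j4 : (0 : ℤ) ≤ 2 * (a : ℤ) := by positivity
    calc ((k : ℤ) - 1) * (k - 255) ≤ (2 * a) * (256 * b) := mul_le_mul j1 j2 j3 j4
      _ = 512 * (a * b) := by ring
  have i7 : (0 : ℤ) ≤ g := by positivity
  have i8 : ((k : ℤ) - 1) * (k - 255) * g ≤ 512 * (a * b) * g :=
    mul_le_mul_of_nonneg_right i6 i7
  have i9 : (k : ℤ) ^ 2 * (L + 1) ≤ (k : ℤ) ^ 2 * (g - 14) :=
    mul_le_mul_of_nonneg_left (by linarith) (sq_nonneg _)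
  have i10 : ((k : ℤ) - 1) * (k - 255) * g < (k : ℤ) ^ 2 * (g - 14) := by linarith
  have i11 : 14 * (k : ℤ) ^ 2 < 256 * k * g := by nlinarith
  have i12 : (k : ℤ) * (14 * k) < k * (256 * g) := by nlinarith
  have i13 : 14 * (k : ℤ) < 256 * g := lt_of_mul_lt_mul_left i12 (by positivity)
  linarith

end Pool.Agent.RamQ
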