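import Mathlib

/-! A random colouring of the edges: few vertices do not force a clique or a large independent
set. -/

namespace Pool.Agent.RamQ

open Finset

theorem rand_num {q a y N : ℕ} (hq : 1 ≤ q) (hy : 3 ≤ y) (hN : N ^ 2 * a ^ (y - 1) ≤ q ^ (y - 1)) :
    2 * (N.choose y * a ^ (y.choose 2)) < q ^ (y.choose 2) := by
  by_contra hcon
  have hcon : q ^ (y.choose 2) ≤ 2 * (N.choose y * a ^ (y.choose 2)) := not_lt.mp hcon
  have h1 : N.choose y * y.factorial ≤ N ^ y := by
    rw [mul_comm, ← Nat.descFactorial_eq_factorial_mul_choose]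
    exact Nat.descFactorial_le_pow N y
  have h4 : y.choose 2 * 2 = (y - 1) * y := by
    rw [Nat.choose_two_right, Nat.div_mul_cancel (Nat.even_mul_pred_self y).two_dvd, mul_comm]
  have h2 : (q ^ (y.choose 2)) ^ 2 * (y.factorial) ^ 2 ≤ (q ^ (y.choose 2)) ^ 2 * 4 := by
    calc (q ^ (y.choose 2)) ^ 2 * (y.factorial) ^ 2
        ≤ (2 * (N.choose y * a ^ (y.choose 2))) ^ 2 * (y.factorial) ^ 2 :=
          Nat.mul_le_mul_right _ (Nat.pow_le_pow_left hcon 2)
      _ = 4 * (N.choose y * y.factorial) ^ 2 * (a ^ (y.choose 2)) ^ 2 := by ring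
      _ ≤ 4 * (N ^ y) ^ 2 * (a ^ (y.choose 2)) ^ 2 :=
          Nat.mul_le_mul_right _ (Nat.mul_le_mul_left _ (Nat.pow_le_pow_left h1 2))
      _ = 4 * (N ^ 2 * a ^ (y - 1)) ^ y := by
          rw [← pow_mul a, h4, mul_pow, ← pow_mul, ← pow_mul, ← pow_mul, Nat.mul_comm y 2]
          ring
      _ ≤ 4 * (q ^ (y - 1)) ^ y := Nat.mul_le_mul_left _ (Nat.pow_le_pow_left hN y)
      _ = (q ^ (y.choose 2)) ^ 2 * 4 := by rw [← pow_mul, ← pow_mul, h4]; ring
  have hpos : 0 < (q ^ (y.choose 2)) ^ 2 := by positivity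
  have h5 := Nat.le_of_mul_le_mul_left h2 hpos
  have h6 : 6 ≤ y.factorial := Nat.factorial_le (m := 3) hy
  nlinarith

theorem rand_pow (r n : ℕ) : r ^ (n + 1) + (n + 1) * r ^ n ≤ (r + 1) ^ (n + 1) := by
  induction n with
  | zero => simp
  | succ n ih =>
    calc r ^ (n + 1 + 1) + (n + 1 + 1) * r ^ (n + 1)
        ≤ (r ^ (n + 1) + (n + 1) * r ^ n) * (r + 1) := by
          have : 0 ≤ (n + 1) * r ^ n := Nat.zero_le _
          rw [pow_succ r (n + 1), pow_succ r n]
          nlinarith
      _ ≤ (r + 1) ^ (n + 1) * (r + 1) := Nat.mul_le_mul_right _ ih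
      _ = (r + 1) ^ (n + 1 + 1) := (pow_succ _ _).symm

theorem rand_two (r : ℕ) : 2 * r ^ (r + 1) ≤ (r + 1) ^ (r + 1) := by
  have h := rand_pow r r
  have h2 : r ^ (r + 1) ≤ (r + 1) * r ^ r := by rw [pow_succ]; nlinarith [Nat.zero_le (r ^ r)]
  omega

theorem rand_card {α : Type*} [Fintype α] [DecidableEq α] {r : ℕ} (T : Finset α)
    (A : Finset (Fin (r + 1))) :
    (Fintype.piFinset (fun p => if p ∈ T then A else (univ : Finset (Fin (r + 1))))).card *
      (r + 1) ^ T.card = A.card ^ T.card * (r + 1) ^ Fintype.card α := by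
  rw [Fintype.card_piFinset]
  have h1 : ∀ p, (if p ∈ T then A else (univ : Finset (Fin (r + 1)))).card =
      if p ∈ T then A.card else r + 1 := by
    intro p
    split_ifs <;> simp
  rw [Finset.prod_congr rfl (fun p _ => h1 p), Finset.prod_ite]
  rw [Finset.prod_const, Finset.prod_const]
  have h2 : (univ.filter (fun p => p ∈ T)).card = T.card := by
    congr 1
    ext p
    simp
  have h3 : (univ.filter (fun p => p ∉ T)).card + T.card = Fintype.card α := by
    rw [← h2, add_comm]
    exact Finset.card_filter_add_card_filter_not (s := univ) (fun p => p ∈ T)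
  rw [h2, mul_assoc, ← pow_add, h3]

/-- the graph of the pairs of colour zero -/
def rgr {N r : ℕ} (f : Finset (Fin N) → Fin (r + 1)) : SimpleGraph (Fin N) where
  Adj a b := a ≠ b ∧ f {a, b} = 0
  symm := ⟨by
    intro a b h
    exact ⟨h.1.symm, by rw [Finset.pair_comm]; exact h.2⟩⟩
  loopless := ⟨fun a h => h.1 rfl⟩

theorem rand_half {N r y : ℕ} (A : Finset (Fin (r + 1)))
    (hA : 2 * (N.choose y * A.card ^ (y.choose 2)) < (r + 1) ^ (y.choose 2)) :
    2 * ((powersetCard y (univ : Finset (Fin N))).biUnion (fun S =>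
      Fintype.piFinset (fun p => if p ∈ powersetCard 2 S then A
        else (univ : Finset (Fin (r + 1)))))).card <
      Fintype.card (Finset (Fin N) → Fin (r + 1)) := by
  classical
  set M := Fintype.card (Finset (Fin N)) with hM
  have hc : Fintype.card (Finset (Fin N) → Fin (r + 1)) = (r + 1) ^ M := by
    rw [Fintype.card_fun]; simp [hM]
  have hpos : 0 < (r + 1) ^ (y.choose 2) := by positivity
  rw [hc]
  refine Nat.lt_of_mul_lt_mul_right (a := (r + 1) ^ (y.choose 2)) ?_
  calc 2 * ((powersetCard y (univ : Finset (Fin N))).biUnion (fun S =>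
      Fintype.piFinset (fun p => if p ∈ powersetCard 2 S then A
        else (univ : Finset (Fin (r + 1)))))).card * (r + 1) ^ (y.choose 2)
      ≤ 2 * (∑ S ∈ powersetCard y (univ : Finset (Fin N)),
      (Fintype.piFinset (fun p => if p ∈ powersetCard 2 S then A
        else (univ : Finset (Fin (r + 1))))).card) * (r + 1) ^ (y.choose 2) :=
        Nat.mul_le_mul_right _ (Nat.mul_le_mul_left _ card_biUnion_le)
    _ = 2 * ∑ S ∈ powersetCard y (univ : Finset (Fin N)),
      ((Fintype.piFinset (fun p => if p ∈ powersetCard 2 S then A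
        else (univ : Finset (Fin (r + 1))))).card * (r + 1) ^ (y.choose 2)) := by
        rw [mul_assoc, Finset.sum_mul]
    _ = 2 * ∑ S ∈ powersetCard y (univ : Finset (Fin N)),
        (A.card ^ (y.choose 2) * (r + 1) ^ M) := by
        congr 1
        refine Finset.sum_congr rfl ?_
        intro S hS
        have h2 : (powersetCard 2 S).card = y.choose 2 := by
          rw [card_powersetCard, (mem_powersetCard.mp hS).2]
        have := rand_card (powersetCard 2 S) A
        rw [h2] at this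
        exact this
    _ = 2 * (N.choose y * A.card ^ (y.choose 2)) * (r + 1) ^ M := by
        rw [Finset.sum_const, card_powersetCard]
        simp
        ring
    _ < (r + 1) ^ (y.choose 2) * (r + 1) ^ M := Nat.mul_lt_mul_of_pos_right hA (by positivity)
    _ = (r + 1) ^ M * (r + 1) ^ (y.choose 2) := mul_comm _ _

/-- `R(k, 2^m m (k-1) + 1) > N` if `N² ≤ 2^(m (k-1))` -/
theorem rand {k m N : ℕ} (hk : 3 ≤ k) (hm : 1 ≤ m) (hN : N ^ 2 ≤ 2 ^ (m * (k - 1))) :
    ∃ H : SimpleGraph (Fin N), H.CliqueFree k ∧ Hᶜ.CliqueFree (2 ^ m * (m * (k - 1)) + 1) := by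
  classical
  obtain ⟨r, hr⟩ : ∃ r, 2 ^ m = r + 1 := ⟨2 ^ m - 1, by have := Nat.one_le_two_pow (n := m); omega⟩
  set x := 2 ^ m * (m * (k - 1)) + 1 with hx
  have hr1 : 1 ≤ r := by
    have : 2 ^ 1 ≤ 2 ^ m := Nat.pow_le_pow_right (by norm_num) hm
    omega
  have hx3 : 3 ≤ x := by
    have h1 : 1 * 2 ≤ m * (k - 1) := Nat.mul_le_mul hm (by omega)
    have h2 : 2 * 2 ≤ 2 ^ m * (m * (k - 1)) := Nat.mul_le_mul (by omega) (by omega)
    omega
  have hN1 : N ^ 2 * 1 ^ (k - 1) ≤ (r + 1) ^ (k - 1) := by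
    rw [← hr, ← pow_mul, one_pow, mul_one]
    exact hN
  have hN2 : N ^ 2 * r ^ (x - 1) ≤ (r + 1) ^ (x - 1) := by
    have h1 : x - 1 = (r + 1) * (m * (k - 1)) := by rw [hx, hr]; simp
    rw [h1, pow_mul r (r + 1), pow_mul (r + 1) (r + 1)]
    calc N ^ 2 * (r ^ (r + 1)) ^ (m * (k - 1))
        ≤ 2 ^ (m * (k - 1)) * (r ^ (r + 1)) ^ (m * (k - 1)) := Nat.mul_le_mul_right _ hN
      _ = (2 * r ^ (r + 1)) ^ (m * (k - 1)) := (mul_pow _ _ _).symm
      _ ≤ ((r + 1) ^ (r + 1)) ^ (m * (k - 1)) := Nat.pow_le_pow_left (rand_two r) _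
  have hA := rand_half (N := N) (r := r) (y := k) {0}
    (by simpa using rand_num (q := r + 1) (a := 1) (by omega) hk hN1)
  have hB := rand_half (N := N) (r := r) (y := x) {0}ᶜ (by
    have h1 : ({0}ᶜ : Finset (Fin (r + 1))).card = r := by
      rw [card_compl]; simp
    rw [h1]
    exact rand_num (q := r + 1) (a := r) (by omega) hx3 hN2)
  obtain ⟨f, hf⟩ : ∃ f : Finset (Fin N) → Fin (r + 1), f ∉
      ((powersetCard k (univ : Finset (Fin N))).biUnion (fun S =>
      Fintype.piFinset (fun p => if p ∈ powersetCard 2 S then {0}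
        else (univ : Finset (Fin (r + 1)))))) ∪
      ((powersetCard x (univ : Finset (Fin N))).biUnion (fun S =>
      Fintype.piFinset (fun p => if p ∈ powersetCard 2 S then {0}ᶜ
        else (univ : Finset (Fin (r + 1)))))) := by
    by_contra hcon
    push Not at hcon
    have hall : Fintype.card (Finset (Fin N) → Fin (r + 1)) ≤ _ :=
      Finset.card_le_card (fun f _ => hcon f)
    have := hall.trans (card_union_le _ _)
    omega
  rw [mem_union, not_or] at hf
  refine ⟨rgr f, ?_, ?_⟩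
  · intro S hS
    apply hf.1
    rw [mem_biUnion]
    refine ⟨S, mem_powersetCard.mpr ⟨subset_univ _, hS.card_eq⟩, ?_⟩
    rw [Fintype.mem_piFinset]
    intro p
    split_ifs with hp
    · obtain ⟨hpS, hp2⟩ := mem_powersetCard.mp hp
      obtain ⟨a, b, hab, rfl⟩ := card_eq_two.mp hp2
      have ha : a ∈ S := hpS (by simp)
      have hb : b ∈ S := hpS (by simp)
      rw [mem_singleton]
      exact (hS.isClique (by exact_mod_cast ha) (by exact_mod_cast hb) hab).2
    · exact mem_univ _
  · intro S hS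
    apply hf.2
    rw [mem_biUnion]
    refine ⟨S, mem_powersetCard.mpr ⟨subset_univ _, hS.card_eq⟩, ?_⟩
    rw [Fintype.mem_piFinset]
    intro p
    split_ifs with hp
    · obtain ⟨hpS, hp2⟩ := mem_powersetCard.mp hp
      obtain ⟨a, b, hab, rfl⟩ := card_eq_two.mp hp2
      have ha : a ∈ S := hpS (by simp)
      have hb : b ∈ S := hpS (by simp)
      rw [mem_compl, mem_singleton]
      intro h0
      have hadj := hS.isClique (by exact_mod_cast ha) (by exact_mod_cast hb) hab
      rw [SimpleGraph.compl_adj] at hadj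
      exact hadj.2 ⟨hab, h0⟩
    · exact mem_univ _

end Pool.Agent.RamQ
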