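import Pool.Agent.Lib.MP_078aef_co_q.Levels
import Pool.Agent.Lib.MP_078aef_co_q.Low
import Pool.Agent.Lib.MP_078aef_co_q.NumA
import Pool.Agent.Lib.MP_078aef_co_q.NumB
import Pool.Agent.Lib.MP_078aef_co_q.NumC
import Pool.Agent.Lib.MP_078aef_co_q.Rand
import Pool.Agent.Lib.MP_078aef_co.Ham

/-! Ramsey-critical `(k,s)`-graphs are Hamiltonian for `64 s ≤ k²` and for
`2^26 s log₂ k ≤ k³`. -/

namespace Pool.Agent.RamQ

open Finset Pool.Agent.RamseyHam

variable {V : Type*} [Fintype V] [DecidableEq V]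

omit [Fintype V] [DecidableEq V] in
theorem Ind.compl {G : SimpleGraph V} {I : Finset V} (h : Ind G I) :
    Gᶜ.IsClique (I : Set V) := by
  intro x hx y hy hne
  rw [SimpleGraph.compl_adj]
  exact ⟨hne, h x hx y hy⟩

omit [Fintype V] [DecidableEq V] in
theorem ind_of_clique {G : SimpleGraph V} {I : Finset V} (h : Gᶜ.IsClique (I : Set V)) :
    Ind G I := by
  intro x hx y hy hadj
  have := h hx hy hadj.ne
  rw [SimpleGraph.compl_adj] at this
  exact this.2 hadj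

/-- the data of a critical graph -/
structure Crit (k s : ℕ) (G : SimpleGraph V) (R : ℕ → ℕ) : Prop where
  ks : KS k s G
  ram : ∀ p, 2 ≤ p → IsRam k p (R p)
  crit : Fintype.card V + 1 = R s

theorem Crit.cuts {k s : ℕ} {G : SimpleGraph V} {R : ℕ → ℕ} (h : Crit k s G R) (hk : 2 ≤ k)
    (hs : 2 ≤ s) : Cuts G (k - 2) :=
  fun P Q hP hQ hd hno => cut G hk h.ks R h.ram hs h.crit P Q hP hQ hd hno

omit [DecidableEq V] in
theorem Crit.ind_le {k s : ℕ} {G : SimpleGraph V} {R : ℕ → ℕ} (h : Crit k s G R) :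
    ∀ I, Ind G I → I.card ≤ s - 1 := by
  intro I hI
  have := clique_card_lt h.ks.2 hI.compl
  omega

theorem Crit.cyc {k s : ℕ} {G : SimpleGraph V} {R : ℕ → ℕ} (h : Crit k s G R) (hk : 4 ≤ k)
    (hs : 2 ≤ s) : ∃ l, Cyc G l := by
  have h3 : ¬ G.CliqueFree 3 := by
    intro hcf
    have h1 : KS (k - 1 + 1) s (dom G) := dom_KS hs ⟨hcf.mono (by omega), h.ks.2⟩
    rw [show k - 1 + 1 = k by omega] at h1
    have h2 := (h.ram s hs).card_lt h1
    have h4 := h.crit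
    simp at h2
    omega
  have h4 : ∃ K, G.IsNClique 3 K := by
    by_contra hcon
    exact h3 (fun K hK => hcon ⟨K, hK⟩)
  obtain ⟨K, hK⟩ := h4
  exact cyc_of_triangle hK

theorem Crit.low {k s : ℕ} {G : SimpleGraph V} {R : ℕ → ℕ} (h : Crit k s G R) (hk : 2 ≤ k)
    {D J M : ℕ} (hJ : 1 ≤ J) (hM : ∃ H : SimpleGraph (Fin M), KS k (J + 1) H) (hD : J * D < M)
    {I : Finset V} (hI : Ind G I) (hdeg : ∀ v ∈ I, (nb G v).card < D) : I.card ≤ J := by
  rcases Nat.lt_or_ge s (J + 2) with hs | hs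
  · have := h.ind_le I hI
    omega
  · exact (RamQ.low hk h.ks R h.ram h.crit hJ hs hM (by omega) hI hdeg).le

theorem choose_ge {k b : ℕ} (hk : 1 ≤ k) (hb : 2 ≤ b) : k ≤ (k + b - 2).choose (k - 1) := by
  calc k = k.choose (k - 1) := by
        obtain ⟨r, rfl⟩ : ∃ r, k = r + 1 := ⟨k - 1, by omega⟩
        rw [Nat.add_sub_cancel, Nat.choose_succ_self_right]
    _ ≤ (k + b - 2).choose (k - 1) := Nat.choose_le_choose _ (by omega)

/-- a set with many vertices contains an independent set -/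
theorem Crit.ind_of_card {k s : ℕ} {G : SimpleGraph V} {R : ℕ → ℕ} (h : Crit k s G R)
    (hk : 1 ≤ k) {b : ℕ} (hb : 1 ≤ b) {X : Finset V}
    (hX : (k + b - 2).choose (k - 1) ≤ X.card) : ∃ I ⊆ X, Ind G I ∧ I.card = b := by
  rcases upper G hk hb X hX with ⟨K, -, hK⟩ | ⟨I, hI, hIc⟩
  · exact absurd hK (h.ks.1 K)
  · exact ⟨I, hI, ind_of_clique hIc.isClique, hIc.card_eq⟩

/-- the quadratic range -/
theorem quad {k s : ℕ} {G : SimpleGraph V} {R : ℕ → ℕ} (h : Crit k s G R) (hk : 1 ≤ k)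
    (hks : k ≤ s) (h64 : 64 * s ≤ k ^ 2) : ∃ l, Cyc G l ∧ l.length = Fintype.card V := by
  have hk64 : 64 ≤ k := by
    by_contra hcon
    have h1 : k ^ 2 < 64 * k := by nlinarith
    omega
  obtain ⟨J, b, hJ1, hb2, hJk, hsb, hJM⟩ := numA hk hks h64
  have hC := choose_ge hk hb2
  obtain ⟨C, hCdef⟩ : ∃ C, C = (k + b - 2).choose (k - 1) := ⟨_, rfl⟩
  rw [← hCdef] at hJM hC
  have hJ2 : 2 ≤ J := by
    by_contra hcon
    have : J = 1 := by omega
    subst this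
    norm_num at hJM
    omega
  refine levels (κ := k - 2) (A := s - 1) (L := 1) (by omega) le_rfl (h.cuts (by omega) (by omega))
    h.ind_le (h.cyc (by omega) (by omega)) (fun _ => 2 * C + 2 * s)
    (fun ℓ => if ℓ = 0 then 2 * C + 5 else 1) (fun _ => b) (fun _ => J - 1)
    (Θ := 2 * C + 5) ?_ ?_ ?_ ?_ ?_ ?_ ?_ ?_ ?_
  · show 2 * (s - 1) + (k - 2) ≤ 2 * C + 2 * s + 3
    omega
  · intro ℓ _
    show 1 ≤ if ℓ = 0 then 2 * C + 5 else 1
    split_ifs <;> omega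
  · intro i l hil _
    show (if l = 0 then 2 * C + 5 else 1) ≤ if i = 0 then 2 * C + 5 else 1
    split_ifs <;> omega
  · exact le_rfl
  · intro ℓ h1 h2
    show 2 * C + 5 ≤ (2 * C + 2 * s + 3 - 2 * (s - 1)) * (if ℓ = 0 then 2 * C + 5 else 1)
    rw [if_neg (by omega)]
    omega
  · intro ℓ _ _
    show 1 ≤ b
    omega
  · intro ℓ h1 h2 X hX
    have hX' : 2 * C + 5 ≤ 2 * 1 * (if ℓ = 0 then 2 * C + 5 else 1) * X.card := hX
    rw [if_neg (by omega)] at hX'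
    exact h.ind_of_card hk (by omega) (by rw [← hCdef]; omega)
  · intro ℓ hℓ I hI hdeg
    show I.card ≤ J - 1
    have hM : ∃ H : SimpleGraph (Fin (2 ^ ((J + 1) / 2))), KS k (J + 1) H := by
      obtain ⟨H, hH1, hH2⟩ := erdos (J + 1) (2 ^ ((J + 1) / 2)) (by omega) (by
        rw [← pow_mul]
        exact Nat.pow_le_pow_right (by norm_num) (by omega))
      exact ⟨H, hH1.mono (by omega), hH2⟩
    have := low (by omega) h.ks R h.ram h.crit (D := 2 * C + 2 * s) hJ1 (by omega) hM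
      (by omega) hI hdeg
    omega
  · show J - 1 + ∑ ℓ ∈ Ico 1 1, (J - 1) / b + (s - 1) / b < k - 2
    rw [Ico_self, sum_empty]
    have h1 : (s - 1) / b < k - 1 - J := by
      rw [Nat.div_lt_iff_lt_mul (by omega)]
      omega
    omega

theorem pow_half {a : ℕ} (ha : 1 ≤ a) : 2 * 2 ^ (a - 1) = 2 ^ a := by
  obtain ⟨r, rfl⟩ : ∃ r, a = r + 1 := ⟨a - 1, by omega⟩
  rw [Nat.add_sub_cancel, pow_succ]
  ring

/-- the cubic range with the number of levels as a parameter -/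
theorem cubic_L {k s L : ℕ} {G : SimpleGraph V} {R : ℕ → ℕ} (h : Crit k s G R)
    (hks : k ≤ s) (hL : 1 ≤ L) (hk : 2 ^ 15 * L * 2 ^ L ≤ k)
    (hs : s ≤ k / 2 * (k / 256 * 2 ^ (L - 1))) :
    ∃ l, Cyc G l ∧ l.length = Fintype.card V := by
  have hk16 : 2 ^ 16 ≤ k := by
    calc 2 ^ 16 = 2 ^ 15 * 1 * 2 ^ 1 := by norm_num
      _ ≤ 2 ^ 15 * L * 2 ^ L := Nat.mul_le_mul (Nat.mul_le_mul_left _ hL)
          (Nat.pow_le_pow_right (by norm_num) hL)
      _ ≤ k := hk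
  have hk16' : 65536 ≤ k := by norm_num at hk16; exact hk16
  have hE := numB_E hL hk
  have hsE := numB_s hL hk hs
  obtain ⟨E, hEdef⟩ : ∃ E, E = k / 16 := ⟨_, rfl⟩
  have hE1 : 1 ≤ E := by omega
  rw [← hEdef] at hE hsE
  have hb1 : ∀ ℓ, 1 ≤ k / 256 * 2 ^ (ℓ - 1) := by
    intro ℓ
    exact Nat.mul_pos (by omega) (by positivity)
  refine levels (κ := k - 2) (A := s - 1) (L := L) (by omega) hL (h.cuts (by omega) (by omega))
    h.ind_le (h.cyc (by omega) (by omega)) (fun ℓ => 2 ^ (ℓ * k + E))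
    (fun ℓ => if ℓ = 0 then 2 ^ ((L - 1) * k + E - 1) else 2 ^ ((L - ℓ) * k))
    (fun ℓ => k / 256 * 2 ^ (ℓ - 1))
    (fun ℓ => if ℓ = 0 then 4 * (k / 16) else
      2 ^ (2 * (ℓ + 1)) * (2 * (ℓ + 1) * (k - 1)))
    (Θ := 2 ^ ((L - 1) * k + E - 1)) ?_ ?_ ?_ ?_ ?_ ?_ ?_ ?_ ?_
  · show 2 * (s - 1) + (k - 2) ≤ 2 ^ (0 * k + E) + 3
    rw [zero_mul, zero_add]
    omega
  · intro ℓ _
    show 1 ≤ if ℓ = 0 then 2 ^ ((L - 1) * k + E - 1) else 2 ^ ((L - ℓ) * k)
    split_ifs <;> exact Nat.one_le_two_pow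
  · intro i l hil hlL
    show (if l = 0 then 2 ^ ((L - 1) * k + E - 1) else 2 ^ ((L - l) * k)) ≤
      if i = 0 then 2 ^ ((L - 1) * k + E - 1) else 2 ^ ((L - i) * k)
    split_ifs with h1 h2 h2
    · exact le_rfl
    · omega
    · apply Nat.pow_le_pow_right (by norm_num)
      have : (L - l) * k ≤ (L - 1) * k := Nat.mul_le_mul_right _ (by omega)
      omega
    · exact Nat.pow_le_pow_right (by norm_num) (Nat.mul_le_mul_right _ (by omega))
  · exact le_rfl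
  · intro ℓ h1 h2
    show 2 ^ ((L - 1) * k + E - 1) ≤ (2 ^ ((ℓ - 1) * k + E) + 3 - 2 * (s - 1)) *
      (if ℓ = 0 then 2 ^ ((L - 1) * k + E - 1) else 2 ^ ((L - ℓ) * k))
    rw [if_neg (by omega)]
    have e1 : 2 * 2 ^ ((ℓ - 1) * k + E - 1) = 2 ^ ((ℓ - 1) * k + E) := pow_half (by omega)
    have e2 : 2 ^ E ≤ 2 ^ ((ℓ - 1) * k + E) := Nat.pow_le_pow_right (by norm_num) (by omega)
    calc 2 ^ ((L - 1) * k + E - 1) = 2 ^ ((ℓ - 1) * k + E - 1) * 2 ^ ((L - ℓ) * k) := by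
          rw [← pow_add]
          congr 1
          have : (L - 1) * k = (ℓ - 1) * k + (L - ℓ) * k := by
            rw [← Nat.add_mul]
            congr 1
            omega
          omega
      _ ≤ _ := Nat.mul_le_mul_right _ (by omega)
  · intro ℓ _ _
    exact hb1 ℓ
  · intro ℓ h1 h2 X hX
    have hX' : 2 ^ ((L - 1) * k + E - 1) ≤
      2 * L * (if ℓ = 0 then 2 ^ ((L - 1) * k + E - 1) else 2 ^ ((L - ℓ) * k)) * X.card := hX
    rw [if_neg (by omega)] at hX'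
    show ∃ I ⊆ X, Ind G I ∧ I.card = k / 256 * 2 ^ (ℓ - 1)
    apply h.ind_of_card (by omega) (hb1 ℓ)
    refine (numB_choose hk16 (ℓ - 1)).trans ?_
    by_contra hcon
    have hcon' := not_le.mp hcon
    have h3 : 2 * L * 2 ^ ((L - ℓ) * k) * X.card <
        2 * L * 2 ^ ((L - ℓ) * k) * (2 ^ ((ℓ - 1) * k) * 2 ^ (10 * (k / 256))) :=
      Nat.mul_lt_mul_of_pos_left hcon' (by positivity)
    have h4 : 2 * L * 2 ^ ((L - ℓ) * k) * (2 ^ ((ℓ - 1) * k) * 2 ^ (10 * (k / 256))) =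
        2 ^ ((L - 1) * k) * (2 * L * 2 ^ (10 * (k / 256))) := by
      have : 2 ^ ((L - 1) * k) = 2 ^ ((L - ℓ) * k) * 2 ^ ((ℓ - 1) * k) := by
        rw [← pow_add, ← Nat.add_mul]
        congr 2
        omega
      rw [this]
      ring
    have h5 : 2 * L * 2 ^ (10 * (k / 256)) ≤ 2 ^ (E - 1) := by
      have := pow_half hE1
      have e : 4 * L * 2 ^ (10 * (k / 256)) = 2 * (2 * L * 2 ^ (10 * (k / 256))) := by ring
      omega
    have h6 : 2 ^ ((L - 1) * k) * (2 * L * 2 ^ (10 * (k / 256))) ≤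
        2 ^ ((L - 1) * k + E - 1) := by
      rw [show (L - 1) * k + E - 1 = (L - 1) * k + (E - 1) by omega, pow_add]
      exact Nat.mul_le_mul_left _ h5
    omega
  · intro ℓ hℓ I hI hdeg
    show I.card ≤ if ℓ = 0 then 4 * (k / 16) else 2 ^ (2 * (ℓ + 1)) * (2 * (ℓ + 1) * (k - 1))
    have hdeg' : ∀ v ∈ I, (nb G v).card < 2 ^ (ℓ * k + k / 16) := by
      rw [← hEdef]
      exact hdeg
    split_ifs with h0
    · subst h0
      refine h.low (by omega) (by omega) (M := 2 ^ (2 * (k / 16))) ?_ ?_ hI hdeg'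
      · obtain ⟨H, hH1, hH2⟩ := erdos (4 * (k / 16) + 1) (2 ^ (2 * (k / 16))) (by omega) (by
          rw [← pow_mul]
          exact Nat.pow_le_pow_right (by norm_num) (by omega))
        exact ⟨H, hH1.mono (by omega), hH2⟩
      · rw [zero_mul, zero_add]
        exact numB_zero hk16
    · refine h.low (by omega) ?_ (M := 2 ^ ((ℓ + 1) * (k - 1))) ?_
        (numB_J hk (by omega) hℓ) hI hdeg'
      · exact Nat.mul_pos (by positivity) (Nat.mul_pos (by omega) (by omega))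
      · obtain ⟨H, hH1, hH2⟩ := rand (k := k) (m := 2 * (ℓ + 1)) (N := 2 ^ ((ℓ + 1) * (k - 1)))
          (by omega) (by omega) (by
            rw [← pow_mul]
            exact Nat.pow_le_pow_right (by norm_num) (le_of_eq (by ring)))
        exact ⟨H, hH1, hH2⟩
  · have h1 := numB_sum hL hk hs
    have h2 : ∑ ℓ ∈ Ico 1 L, (if ℓ = 0 then 4 * (k / 16) else
        2 ^ (2 * (ℓ + 1)) * (2 * (ℓ + 1) * (k - 1))) / (k / 256 * 2 ^ (ℓ - 1)) =
        ∑ ℓ ∈ Ico 1 L, 2 ^ (2 * (ℓ + 1)) * (2 * (ℓ + 1) * (k - 1)) /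
          (k / 256 * 2 ^ (ℓ - 1)) := by
      apply sum_congr rfl
      intro ℓ hℓ
      have := (mem_Ico.mp hℓ).1
      rw [if_neg (by omega)]
    have h3 : (s - 1) / (k / 256 * 2 ^ (L - 1)) ≤ s / (k / 256 * 2 ^ (L - 1)) :=
      Nat.div_le_div_right (by omega)
    show (if 0 = 0 then 4 * (k / 16) else _) + ∑ ℓ ∈ Ico 1 L, (if ℓ = 0 then 4 * (k / 16) else
        2 ^ (2 * (ℓ + 1)) * (2 * (ℓ + 1) * (k - 1))) / (k / 256 * 2 ^ (ℓ - 1)) +
        (s - 1) / (k / 256 * 2 ^ (L - 1)) < k - 2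
    rw [h2, if_pos rfl]
    omega

theorem final {k s : ℕ} (hk : 2 ≤ k) (hks : k ≤ s)
    (h : 64 * s ≤ k ^ 2 ∨ 2 ^ 26 * s * Nat.log 2 k ≤ k ^ 3) {G : SimpleGraph V}
    (hG : IsCritical k s G) : ∃ (a : V) (p : G.Walk a a), p.IsHamiltonianCycle := by
  have hR : ∀ p, 2 ≤ p → IsRam k p (ramsey k p) := fun p hp =>
    isRam_ramsey (by omega) (by omega)
  have hcrit : Fintype.card V + 1 = ramsey k s := by
    have h1 := hG.card
    have h2 := (hR s (by omega)).pos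
    omega
  have hC : Crit k s G (fun p => ramsey k p) :=
    ⟨⟨hG.cliqueFree, (indep_iff G s).mp hG.indep⟩, hR, hcrit⟩
  obtain ⟨l, hl, hlen⟩ : ∃ l, Cyc G l ∧ l.length = Fintype.card V := by
    rcases Nat.lt_or_ge (k ^ 2) (64 * s) with h1 | h1
    · have h2 : 2 ^ 26 * s * Nat.log 2 k ≤ k ^ 3 := by
        rcases h with h | h
        · omega
        · exact h
      obtain ⟨L, hL, hLk, hLs⟩ := numB_L hk h1 h2
      exact cubic_L hC hks hL hLk hLs
    · exact quad hC (by omega) hks h1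
  exact hl.hamiltonian hlen

end Pool.Agent.RamQ
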