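import Pool.Agent.Lib.MP_078aef_co.Cyc

/-! Independent sets, boundaries and the cut property. -/

namespace Pool.Agent.RamQ

open Finset Pool.Agent.RamseyHam

variable {V : Type*}

/-- `I` is independent -/
def Ind (G : SimpleGraph V) (I : Finset V) : Prop := ∀ x ∈ I, ∀ y ∈ I, ¬ G.Adj x y

/-- there is no edge between `P` and `Q` -/
def Non (G : SimpleGraph V) (P Q : Finset V) : Prop := ∀ x ∈ P, ∀ y ∈ Q, ¬ G.Adj x y

theorem Non.symm {G : SimpleGraph V} {P Q : Finset V} (h : Non G P Q) : Non G Q P :=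
  fun x hx y hy hxy => h y hy x hx hxy.symm

theorem Non.mono {G : SimpleGraph V} {P Q P' Q' : Finset V} (h : Non G P Q) (hP : P' ⊆ P)
    (hQ : Q' ⊆ Q) : Non G P' Q' :=
  fun x hx y hy => h x (hP hx) y (hQ hy)

theorem Ind.mono {G : SimpleGraph V} {I J : Finset V} (h : Ind G J) (hI : I ⊆ J) : Ind G I :=
  fun x hx y hy => h x (hI hx) y (hI hy)

theorem Ind.union [DecidableEq V] {G : SimpleGraph V} {I J : Finset V} (hI : Ind G I)
    (hJ : Ind G J) (h : Non G I J) : Ind G (I ∪ J) := by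
  intro x hx y hy
  rcases mem_union.mp hx with hx | hx <;> rcases mem_union.mp hy with hy | hy
  · exact hI x hx y hy
  · exact h x hx y hy
  · exact h.symm x hx y hy
  · exact hJ x hx y hy

/-- the cut property: two non-adjacent sets leave at least `κ` further vertices -/
def Cuts [Fintype V] (G : SimpleGraph V) (κ : ℕ) : Prop :=
  ∀ P Q : Finset V, P.Nonempty → Q.Nonempty → Disjoint P Q → Non G P Q →
    P.card + Q.card + κ ≤ Fintype.card V

section fin

variable [Fintype V]

/-- the neighbours of `v` -/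
noncomputable def nb (G : SimpleGraph V) (v : V) : Finset V := by
  classical exact univ.filter (fun u => G.Adj v u)

theorem mem_nb {G : SimpleGraph V} {v u : V} : u ∈ nb G v ↔ G.Adj v u := by
  classical
  unfold nb
  simp

/-- the outer boundary of `D` -/
noncomputable def bd (G : SimpleGraph V) (D : Finset V) : Finset V := by
  classical exact univ.filter (fun u => u ∉ D ∧ ∃ v ∈ D, G.Adj v u)

theorem mem_bd {G : SimpleGraph V} {D : Finset V} {u : V} :
    u ∈ bd G D ↔ u ∉ D ∧ ∃ v ∈ D, G.Adj v u := by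
  classical
  unfold bd
  simp

end fin

/-- the independence number of `D` -/
noncomputable def al (G : SimpleGraph V) (D : Finset V) : ℕ := by
  classical exact (D.powerset.filter (fun I => Ind G I)).sup card

theorem Ind.card_le_al {G : SimpleGraph V} {I D : Finset V} (h : Ind G I) (hI : I ⊆ D) :
    I.card ≤ al G D := by
  classical
  unfold al
  exact le_sup (f := card) (mem_filter.mpr ⟨mem_powerset.mpr hI, h⟩)

theorem exists_al (G : SimpleGraph V) (D : Finset V) : ∃ I ⊆ D, Ind G I ∧ I.card = al G D := by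
  classical
  have hne : (D.powerset.filter (fun I => Ind G I)).Nonempty :=
    ⟨∅, mem_filter.mpr ⟨mem_powerset.mpr (empty_subset _), by intro x hx; simp at hx⟩⟩
  obtain ⟨I, hI, h⟩ := exists_mem_eq_sup _ hne card
  obtain ⟨h1, h2⟩ := mem_filter.mp hI
  refine ⟨I, mem_powerset.mp h1, h2, ?_⟩
  unfold al
  exact h.symm

theorem al_mono {G : SimpleGraph V} {D E : Finset V} (h : D ⊆ E) : al G D ≤ al G E := by
  obtain ⟨I, hI, hi, hc⟩ := exists_al G D
  rw [← hc]
  exact hi.card_le_al (hI.trans h)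

theorem al_pos {G : SimpleGraph V} {D : Finset V} (h : D.Nonempty) : 1 ≤ al G D := by
  obtain ⟨v, hv⟩ := h
  have h1 : Ind G {v} := by
    intro x hx y hy
    rw [mem_singleton] at hx hy
    subst hx; subst hy
    exact G.loopless.irrefl _
  have := h1.card_le_al (show {v} ⊆ D by simpa using hv)
  simpa using this

theorem al_le {G : SimpleGraph V} {D : Finset V} {A : ℕ} (hA : ∀ I, Ind G I → I.card ≤ A) :
    al G D ≤ A := by
  obtain ⟨I, -, hi, hc⟩ := exists_al G D
  rw [← hc]
  exact hA I hi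

theorem al_add_le [DecidableEq V] {G : SimpleGraph V} {P Q D : Finset V} (hP : P ⊆ D)
    (hQ : Q ⊆ D) (hd : Disjoint P Q) (h : Non G P Q) : al G P + al G Q ≤ al G D := by
  obtain ⟨I, hI, hi, hc⟩ := exists_al G P
  obtain ⟨J, hJ, hj, hc'⟩ := exists_al G Q
  rw [← hc, ← hc', ← card_union_of_disjoint (disjoint_of_subset_left hI
    (disjoint_of_subset_right hJ hd))]
  exact (hi.union hj (h.mono hI hJ)).card_le_al (union_subset (hI.trans hP) (hJ.trans hQ))

/-- a system of `n` disjoint paths `f i` from `a i ∈ A` to `b i ∈ B`, each meeting `A` and `B`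
only in its ends -/
structure Linked (G : SimpleGraph V) (A B : Finset V) (n : ℕ) (f : Fin n → List V)
    (a b : Fin n → V) : Prop where
  sg : ∀ i, Seg G (a i) (f i) (b i)
  nodup : ∀ i, (f i).Nodup
  disj : ∀ i j, i ≠ j → ∀ v ∈ f i, v ∉ f j
  memA : ∀ i, a i ∈ A
  memB : ∀ i, b i ∈ B
  onlyA : ∀ i, ∀ v ∈ f i, v ∈ A → v = a i
  onlyB : ∀ i, ∀ v ∈ f i, v ∈ B → v = b i

/-- the region property: no set of at most `α(D)` vertices separates `D` -/
def Reg [DecidableEq V] (G : SimpleGraph V) (D : Finset V) : Prop :=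
  ∀ W ⊆ D, W.card ≤ al G D → ∀ P Q : Finset V, P ∪ Q = D \ W → Disjoint P Q → Non G P Q →
    P = ∅ ∨ Q = ∅

/-- any two of the vertices `c i`, `i ∈ X`, of the cycle `c 0, …, c (m-1)` are joined by a path off
the cycle whose inner vertices have total weight at least `Δ` -/
def Conn (G : SimpleGraph V) (c : ℕ → V) (m : ℕ) (wt : V → ℕ) (Δ : ℕ) (X : Finset ℕ) : Prop :=
  ∀ i ∈ X, ∀ j ∈ X, i ≠ j → ∃ (w : List V) (a b : V), Seg G a w b ∧ w.Nodup ∧
    G.Adj (c i) a ∧ G.Adj b (c j) ∧ (∀ v ∈ w, ∀ r < m, c r ≠ v) ∧ Δ ≤ (w.map wt).sum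

end Pool.Agent.RamQ
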