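import Pool.Agent.Lib.MP_078aef_co_q.Base

/-! Segments after the attachments of a cycle of maximal weight. -/

namespace Pool.Agent.RamQ

open Finset Pool.Agent.RamseyHam

variable {V : Type*} [DecidableEq V]

omit [DecidableEq V] in
theorem seg_wt {c : ℕ → V} {wt : V → ℕ} {a b : ℕ} (h : a ≤ b) :
    ((seg c a b).map wt).sum = ∑ i ∈ Ico a b, wt (c i) := by
  induction b, h using Nat.le_induction with
  | base => simp [seg]
  | succ b hb ih =>
    rw [← seg_append hb (Nat.le_succ b), List.map_append, List.sum_append, ih,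
      sum_Ico_succ_top hb]
    congr 1
    simp [seg]

omit [DecidableEq V] in
/-- no exchange gains weight -/
theorem no_gain {G : SimpleGraph V} {c : ℕ → V} {m : ℕ} (hc : CF G c m) {wt : V → ℕ}
    (hmax : ∀ l, Cyc G l → (l.map wt).sum ≤ ∑ i ∈ range m, wt (c i))
    {w L rem : List V} (hwn : w.Nodup) (hwd : ∀ v ∈ w, ∀ r < m, c r ≠ v)
    (hperm : (L ++ rem).Perm (seg c 0 m ++ w)) {a b : V} (hL : Seg G a L b) (hadj : G.Adj b a)
    (h3 : 3 ≤ L.length) (hlt : (rem.map wt).sum < (w.map wt).sum) : False := by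
  have hnod : (L ++ rem).Nodup := by
    rw [hperm.nodup_iff, List.nodup_append]
    refine ⟨seg_nodup hc le_rfl, hwn, ?_⟩
    intro x hx y hy hxy
    obtain ⟨i, -, hi, rfl⟩ := mem_seg.mp hx
    exact hwd y hy i hi hxy
  have h1 := hmax L ⟨(List.nodup_append.mp hnod).1, h3, a, b, hL, hadj⟩
  have h2 : ((L ++ rem).map wt).sum = ((seg c 0 m ++ w).map wt).sum :=
    (hperm.map wt).sum_eq
  rw [List.map_append, List.map_append, List.sum_append, List.sum_append, seg_wt (Nat.zero_le m),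
    ← range_eq_Ico] at h2
  omega

omit [DecidableEq V] in
/-- bridging the segment between two attachments -/
theorem X0 {G : SimpleGraph V} {c : ℕ → V} {m : ℕ} (hc : CF G c m) {wt : V → ℕ}
    (hmax : ∀ l, Cyc G l → (l.map wt).sum ≤ ∑ i ∈ range m, wt (c i)) {i j : ℕ} (hij : i < j)
    (hj : j < m) {w : List V} {x y : V} (hw : Seg G x w y) (hwn : w.Nodup)
    (hix : G.Adj (c i) x) (hyj : G.Adj y (c j)) (hwd : ∀ v ∈ w, ∀ r < m, c r ≠ v) :
    (w.map wt).sum ≤ ∑ r ∈ Ico (i + 1) j, wt (c r) := by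
  by_contra hlt
  have hwne : 0 < w.length := List.length_pos_of_ne_nil (by rintro rfl; simpa using hw.head)
  have s1 := seg_Seg hc (show 0 < i + 1 by omega) (show i + 1 ≤ m by omega)
  have s2 := seg_Seg hc hj le_rfl
  rw [show i + 1 - 1 = i by omega] at s1
  refine no_gain hc hmax (w := w) (L := seg c 0 (i + 1) ++ w ++ seg c j m)
    (rem := seg c (i + 1) j) hwn hwd ?_ ((s1.append hw hix).append s2 hyj) hc.close ?_ ?_
  · rw [← seg_append (show 0 ≤ i + 1 by omega) (show i + 1 ≤ m by omega),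
      ← seg_append (show i + 1 ≤ j by omega) (show j ≤ m by omega)]
    classical
    rw [List.perm_iff_count]
    intro z
    simp only [List.count_append]
    omega
  · simp only [List.length_append, seg_length]
    omega
  · rw [seg_wt (show i + 1 ≤ j by omega)]
    omega

omit [DecidableEq V] in
/-- bridging the last segment -/
theorem X0' {G : SimpleGraph V} {c : ℕ → V} {m : ℕ} (hc : CF G c m) {wt : V → ℕ}
    (hmax : ∀ l, Cyc G l → (l.map wt).sum ≤ ∑ i ∈ range m, wt (c i)) {i : ℕ} (hi0 : 0 < i)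
    (hi : i < m) {w : List V} {x y : V} (hw : Seg G x w y) (hwn : w.Nodup)
    (hix : G.Adj (c i) x) (hyj : G.Adj y (c 0)) (hwd : ∀ v ∈ w, ∀ r < m, c r ≠ v) :
    (w.map wt).sum ≤ ∑ r ∈ Ico (i + 1) m, wt (c r) := by
  by_contra hlt
  have hwne : 0 < w.length := List.length_pos_of_ne_nil (by rintro rfl; simpa using hw.head)
  have s1 := seg_Seg hc (show 0 < i + 1 by omega) (show i + 1 ≤ m by omega)
  rw [show i + 1 - 1 = i by omega] at s1
  refine no_gain hc hmax (w := w) (L := seg c 0 (i + 1) ++ w)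
    (rem := seg c (i + 1) m) hwn hwd ?_ (s1.append hw hix) hyj ?_ ?_
  · rw [← seg_append (show 0 ≤ i + 1 by omega) (show i + 1 ≤ m by omega)]
    classical
    rw [List.perm_iff_count]
    intro z
    simp only [List.count_append]
    omega
  · simp only [List.length_append, seg_length]
    omega
  · rw [seg_wt (show i + 1 ≤ m by omega)]
    omega

omit [DecidableEq V] in
/-- crossing exchange -/
theorem X1 {G : SimpleGraph V} {c : ℕ → V} {m : ℕ} (hc : CF G c m) {wt : V → ℕ}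
    (hmax : ∀ l, Cyc G l → (l.map wt).sum ≤ ∑ i ∈ range m, wt (c i)) {i j a b : ℕ} (hia : i < a)
    (haj : a ≤ j) (hjb : j < b) (hb : b < m) {w : List V} {x y : V} (hw : Seg G x w y)
    (hwn : w.Nodup) (hix : G.Adj (c i) x) (hyj : G.Adj y (c j))
    (hwd : ∀ v ∈ w, ∀ r < m, c r ≠ v) (hab : G.Adj (c a) (c b)) :
    (w.map wt).sum ≤ ∑ r ∈ Ico (i + 1) a, wt (c r) + ∑ r ∈ Ico (j + 1) b, wt (c r) := by
  by_contra hlt
  have hwne : 0 < w.length := List.length_pos_of_ne_nil (by rintro rfl; simpa using hw.head)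
  have s1 := seg_Seg hc (show 0 < i + 1 by omega) (show i + 1 ≤ m by omega)
  have s2 := (seg_Seg hc (show a < j + 1 by omega) (show j + 1 ≤ m by omega)).reverse
  have s3 := seg_Seg hc hb le_rfl
  rw [show i + 1 - 1 = i by omega] at s1
  rw [show j + 1 - 1 = j by omega] at s2
  refine no_gain hc hmax (w := w)
    (L := seg c 0 (i + 1) ++ w ++ (seg c a (j + 1)).reverse ++ seg c b m)
    (rem := seg c (i + 1) a ++ seg c (j + 1) b) hwn hwd ?_
    (((s1.append hw hix).append s2 hyj).append s3 hab) hc.close ?_ ?_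
  · rw [← seg_append (show 0 ≤ i + 1 by omega) (show i + 1 ≤ m by omega),
      ← seg_append (show i + 1 ≤ a by omega) (show a ≤ m by omega),
      ← seg_append (show a ≤ j + 1 by omega) (show j + 1 ≤ m by omega),
      ← seg_append (show j + 1 ≤ b by omega) (show b ≤ m by omega)]
    classical
    rw [List.perm_iff_count]
    intro z
    simp only [List.count_append, List.count_reverse]
    omega
  · simp only [List.length_append, seg_length]
    omega
  · rw [List.map_append, List.sum_append, seg_wt (show i + 1 ≤ a by omega),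
      seg_wt (show j + 1 ≤ b by omega)]
    omega

/-- the segments if `0` is an attachment -/
theorem segments0 {G : SimpleGraph V} {c : ℕ → V} {m : ℕ} (hc : CF G c m) {wt : V → ℕ}
    (hmax : ∀ l, Cyc G l → (l.map wt).sum ≤ ∑ i ∈ range m, wt (c i)) {Δ : ℕ} (hΔ : 1 ≤ Δ)
    {X : Finset ℕ} (hX : ∀ i ∈ X, i < m) (hX2 : 2 ≤ X.card) (h0 : 0 ∈ X)
    (hconn : Conn G c m wt Δ X) :
    ∃ T : ℕ → Finset V, (∀ i ∈ X, Δ ≤ 2 * ∑ v ∈ T i, wt v) ∧ (∀ i ∈ X, c ((i + 1) % m) ∈ T i) ∧
      (∀ i ∈ X, ∀ v ∈ T i, ∃ r < m, r ∉ X ∧ c r = v) ∧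
      (∀ i ∈ X, ∀ j ∈ X, i ≠ j → Disjoint (T i) (T j) ∧ Non G (T i) (T j)) := by
  have hm := hc.three
  -- the next attachment
  have key : ∀ i ∈ X, ∃ e, (i + 1 < e ∧ e ≤ m ∧ (∀ r, i < r → r < e → r ∉ X)) ∧
      Δ ≤ 2 * ∑ r ∈ Ico (i + 1) e, wt (c r) ∧
      ∀ e' < e, 2 * ∑ r ∈ Ico (i + 1) e', wt (c r) < Δ := by
    intro i hi
    have him := hX i hi
    have hex : ∃ r, i < r ∧ (r ∈ X ∨ r = m) := ⟨m, him, Or.inr rfl⟩
    obtain ⟨hn1, hn2⟩ := Nat.find_spec hex
    have hn3 : ∀ r < Nat.find hex, ¬ (i < r ∧ (r ∈ X ∨ r = m)) := fun r hr => Nat.find_min hex hr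
    have hnm : Nat.find hex ≤ m := Nat.find_min' hex ⟨him, Or.inr rfl⟩
    obtain ⟨n, hn⟩ : ∃ n, n = Nat.find hex := ⟨_, rfl⟩
    rw [← hn] at hn1 hn2 hn3 hnm
    have hsum : Δ ≤ ∑ r ∈ Ico (i + 1) n, wt (c r) := by
      rcases hn2 with hnX | hnm'
      · obtain ⟨w, x, y, hw, hwn, hix, hyj, hwd, hwt⟩ := hconn i hi n hnX (by omega)
        exact hwt.trans (X0 hc hmax hn1 (hX n hnX) hw hwn hix hyj hwd)
      · have hi0 : i ≠ 0 := by
          rintro rfl
          obtain ⟨j, hj, hj0⟩ := exists_mem_ne (show 1 < X.card by omega) 0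
          have := hX j hj
          exact hn3 j (by omega) ⟨by omega, Or.inl hj⟩
        obtain ⟨w, x, y, hw, hwn, hix, hyj, hwd, hwt⟩ := hconn i hi 0 h0 hi0
        rw [hnm']
        exact hwt.trans (X0' hc hmax (by omega) him hw hwn hix hyj hwd)
    have hex2 : ∃ e, Δ ≤ 2 * ∑ r ∈ Ico (i + 1) e, wt (c r) := ⟨n, by omega⟩
    have hle : Nat.find hex2 ≤ n := Nat.find_min' hex2 (by omega)
    have hsp := Nat.find_spec hex2
    refine ⟨Nat.find hex2, ⟨?_, by omega, ?_⟩, hsp, ?_⟩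
    · by_contra hcon
      rw [Ico_eq_empty (by omega), sum_empty] at hsp
      omega
    · intro r hr1 hr2 hrX
      exact hn3 r (by omega) ⟨hr1, Or.inl hrX⟩
    · intro e' he'
      have := Nat.find_min hex2 he'
      omega
  choose! e he1 he2 he3 using key
  have hinj : ∀ i ∈ X, ∀ x ∈ Ico (i + 1) (e i), ∀ y ∈ Ico (i + 1) (e i), c x = c y → x = y := by
    intro i hi x hx y hy hxy
    have h1 := (mem_Ico.mp hx).2
    have h2 := (mem_Ico.mp hy).2
    have h3 := (he1 i hi).2.1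
    exact hc.inj x y (by omega) (by omega) hxy
  have lt_case : ∀ i ∈ X, ∀ j ∈ X, i < j → Disjoint ((Ico (i + 1) (e i)).image c)
      ((Ico (j + 1) (e j)).image c) ∧ Non G ((Ico (i + 1) (e i)).image c)
      ((Ico (j + 1) (e j)).image c) := by
    intro i hi j hj hij
    obtain ⟨hi1, hi2, hi3⟩ := he1 i hi
    obtain ⟨hj1, hj2, hj3⟩ := he1 j hj
    have hej : e i ≤ j := by
      by_contra hcon
      exact hi3 j hij (by omega) hj
    constructor
    · rw [disjoint_left]
      intro v hv hv'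
      obtain ⟨a, ha, rfl⟩ := mem_image.mp hv
      obtain ⟨b, hb, hab⟩ := mem_image.mp hv'
      have h1 := mem_Ico.mp ha
      have h2 := mem_Ico.mp hb
      have := hc.inj b a (by omega) (by omega) hab
      omega
    · intro x hx y hy hadj
      obtain ⟨a, ha, rfl⟩ := mem_image.mp hx
      obtain ⟨b, hb, rfl⟩ := mem_image.mp hy
      have h1 := mem_Ico.mp ha
      have h2 := mem_Ico.mp hb
      obtain ⟨w, x', y', hw, hwn, hix, hyj, hwd, hwt⟩ := hconn i hi j hj (by omega)
      have h3 := X1 hc hmax (show i < a by omega) (show a ≤ j by omega) (show j < b by omega)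
        (show b < m by omega) hw hwn hix hyj hwd hadj
      have h4 := he3 i hi a h1.2
      have h5 := he3 j hj b h2.2
      omega
  refine ⟨fun i => (Ico (i + 1) (e i)).image c, ?_, ?_, ?_, ?_⟩
  · intro i hi
    rw [sum_image (hinj i hi)]
    exact he2 i hi
  · intro i hi
    obtain ⟨hi1, hi2, hi3⟩ := he1 i hi
    rw [Nat.mod_eq_of_lt (by omega)]
    exact mem_image.mpr ⟨i + 1, mem_Ico.mpr ⟨le_rfl, hi1⟩, rfl⟩
  · intro i hi v hv
    obtain ⟨hi1, hi2, hi3⟩ := he1 i hi
    obtain ⟨a, ha, rfl⟩ := mem_image.mp hv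
    have h1 := mem_Ico.mp ha
    exact ⟨a, by omega, hi3 a (by omega) h1.2, rfl⟩
  · intro i hi j hj hne
    rcases Nat.lt_or_gt_of_ne hne with h | h
    · exact lt_case i hi j hj h
    · obtain ⟨h1, h2⟩ := lt_case j hj i hi h
      exact ⟨h1.symm, h2.symm⟩

/-- the segments after the attachments of a cycle of maximal weight -/
theorem segments {G : SimpleGraph V} {c : ℕ → V} {m : ℕ} (hc : CF G c m) {wt : V → ℕ}
    (hmax : ∀ l, Cyc G l → (l.map wt).sum ≤ ∑ i ∈ range m, wt (c i)) {Δ : ℕ} (hΔ : 1 ≤ Δ)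
    {X : Finset ℕ} (hX : ∀ i ∈ X, i < m) (hX2 : 2 ≤ X.card) (hconn : Conn G c m wt Δ X) :
    ∃ T : ℕ → Finset V, (∀ i ∈ X, Δ ≤ 2 * ∑ v ∈ T i, wt v) ∧ (∀ i ∈ X, c ((i + 1) % m) ∈ T i) ∧
      (∀ i ∈ X, ∀ v ∈ T i, ∃ r < m, r ∉ X ∧ c r = v) ∧
      (∀ i ∈ X, ∀ j ∈ X, i ≠ j → Disjoint (T i) (T j) ∧ Non G (T i) (T j)) := by
  have hm := hc.three
  obtain ⟨r0, hr0⟩ : X.Nonempty := card_pos.mp (by omega)
  have hr0m := hX r0 hr0
  -- the two rotations
  have hpsi : ∀ j < m, ((j + (m - r0)) % m + r0) % m = j := by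
    intro j hj
    rw [Nat.mod_add_mod, show j + (m - r0) + r0 = j + m by omega, Nat.add_mod_right,
      Nat.mod_eq_of_lt hj]
  have hphi : ∀ j < m, ((j + r0) % m + (m - r0)) % m = j := by
    intro j hj
    rw [Nat.mod_add_mod, show j + r0 + (m - r0) = j + m by omega, Nat.add_mod_right,
      Nat.mod_eq_of_lt hj]
  have hlt : ∀ j, j % m < m := fun j => Nat.mod_lt _ (by omega)
  have hsum : ∑ i ∈ range m, wt (c ((i + r0) % m)) = ∑ i ∈ range m, wt (c i) := by
    apply sum_nbij' (fun i => (i + r0) % m) (fun i => (i + (m - r0)) % m)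
    · intro i _
      exact mem_range.mpr (hlt _)
    · intro i _
      exact mem_range.mpr (hlt _)
    · intro i hi
      exact hphi i (mem_range.mp hi)
    · intro i hi
      exact hpsi i (mem_range.mp hi)
    · intro i _
      rfl
  have hc' := hc.rotate r0
  obtain ⟨c', hc'def⟩ : ∃ c' : ℕ → V, c' = fun i => c ((i + r0) % m) := ⟨_, rfl⟩
  rw [← hc'def] at hc'
  have hmem : ∀ i, i ∈ X.image (fun j => (j + (m - r0)) % m) → i < m ∧ (i + r0) % m ∈ X := by
    intro i hi
    obtain ⟨j, hj, rfl⟩ := mem_image.mp hi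
    refine ⟨hlt _, ?_⟩
    show ((j + (m - r0)) % m + r0) % m ∈ X
    rw [hpsi j (hX j hj)]
    exact hj
  obtain ⟨T, hT1, hT2, hT3, hT4⟩ := segments0 (X := X.image (fun j => (j + (m - r0)) % m))
    (wt := wt) hc' (by rw [hc'def]; simp only [hsum]; exact hmax) hΔ
    (fun i hi => (hmem i hi).1) (by
      rw [card_image_of_injOn]
      · exact hX2
      · intro i hi j hj hij
        have e1 := hpsi i (hX i hi)
        have e2 := hpsi j (hX j hj)
        have hij' : (i + (m - r0)) % m = (j + (m - r0)) % m := hij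
        rw [hij', e2] at e1
        exact e1.symm) (by
      refine mem_image.mpr ⟨r0, hr0, ?_⟩
      show (r0 + (m - r0)) % m = 0
      rw [show r0 + (m - r0) = m by omega, Nat.mod_self]) (by
      intro i hi j hj hij
      obtain ⟨hi1, hi2⟩ := hmem i hi
      obtain ⟨hj1, hj2⟩ := hmem j hj
      have hne : (i + r0) % m ≠ (j + r0) % m := by
        intro h
        apply hij
        rw [← hphi i hi1, ← hphi j hj1, h]
      obtain ⟨w, x, y, hw, hwn, hix, hyj, hwd, hwt⟩ := hconn _ hi2 _ hj2 hne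
      refine ⟨w, x, y, hw, hwn, ?_, ?_, ?_, hwt⟩
      · rw [hc'def]; exact hix
      · rw [hc'def]; exact hyj
      · intro v hv r _
        rw [hc'def]
        exact hwd v hv _ (hlt _))
  have hin : ∀ i ∈ X, (i + (m - r0)) % m ∈ X.image (fun j => (j + (m - r0)) % m) :=
    fun i hi => mem_image.mpr ⟨i, hi, rfl⟩
  refine ⟨fun i => T ((i + (m - r0)) % m), fun i hi => hT1 _ (hin i hi), ?_, ?_, ?_⟩
  · intro i hi
    have h1 := hT2 _ (hin i hi)
    rw [hc'def] at h1
    simp only at h1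
    have h2 : (((i + (m - r0)) % m + 1) % m + r0) % m = (i + 1) % m := by
      rw [Nat.mod_add_mod, Nat.add_assoc, Nat.mod_add_mod,
        show i + (m - r0) + (1 + r0) = i + 1 + m by omega, Nat.add_mod_right]
    rw [h2] at h1
    exact h1
  · intro i hi v hv
    obtain ⟨r, hr, hrX, hrv⟩ := hT3 _ (hin i hi) v hv
    refine ⟨(r + r0) % m, hlt _, ?_, ?_⟩
    · intro hmem'
      apply hrX
      rw [← hphi r hr]
      exact mem_image.mpr ⟨_, hmem', rfl⟩
    · rw [hc'def] at hrv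
      exact hrv
  · intro i hi j hj hij
    refine hT4 _ (hin i hi) _ (hin j hj) ?_
    intro h
    apply hij
    have e1 := hpsi i (hX i hi)
    have e2 := hpsi j (hX j hj)
    rw [h, e2] at e1
    exact e1.symm

end Pool.Agent.RamQ
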