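import Pool.Agent.Lib.MP_078aef_co_q.Struct

/-! Weights by levels of degrees. -/

namespace Pool.Agent.RamQ

open Finset Pool.Agent.RamseyHam

variable {V : Type*} [Fintype V] [DecidableEq V]

/-- the level of a vertex -/
theorem exists_lev (G : SimpleGraph V) (D : ℕ → ℕ) (L : ℕ) : ∃ lev : V → ℕ,
    (∀ v, lev v ≤ L) ∧ (∀ v, lev v < L → (nb G v).card < D (lev v)) ∧
    (∀ v, 1 ≤ lev v → D (lev v - 1) ≤ (nb G v).card) ∧
    (∀ v, (nb G v).card < D 0 → lev v = 0) := by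
  classical
  have hex : ∀ v : V, ∃ ℓ, (ℓ = L ∨ (nb G v).card < D ℓ) ∧
      ∀ r < ℓ, ¬ (r = L ∨ (nb G v).card < D r) := by
    intro v
    have h : ∃ ℓ, ℓ = L ∨ (nb G v).card < D ℓ := ⟨L, Or.inl rfl⟩
    exact ⟨Nat.find h, Nat.find_spec h, fun r hr => Nat.find_min h hr⟩
  choose lev h1 h2 using hex
  refine ⟨lev, ?_, ?_, ?_, ?_⟩
  · intro v
    by_contra hcon
    exact h2 v L (by omega) (Or.inl rfl)
  · intro v hv
    rcases h1 v with h | h
    · omega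
    · exact h
  · intro v hv
    have := h2 v (lev v - 1) (by omega)
    rw [not_or] at this
    exact not_lt.mp this.2
  · intro v hv
    by_contra hcon
    exact h2 v 0 (by omega) (Or.inr hv)

/-- a set of large weight contains many independent vertices of one level -/
theorem exists_class {G : SimpleGraph V} {L : ℕ} (hL : 1 ≤ L) (W b : ℕ → ℕ) {Θ : ℕ}
    (hb : ∀ ℓ, 1 ≤ ℓ → ℓ ≤ L → ∀ X : Finset V, Θ ≤ 2 * L * W ℓ * X.card →
      ∃ I ⊆ X, Ind G I ∧ I.card = b ℓ) {lev : V → ℕ} (hlev : ∀ v, lev v ≤ L) {T : Finset V}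
    (hT : Θ ≤ 2 * ∑ v ∈ T, W (lev v)) : ∃ ℓ ≤ L, ∃ I ⊆ T, Ind G I ∧ (∀ v ∈ I, lev v = ℓ) ∧
      ((ℓ = 0 ∧ I.card = 1) ∨ (1 ≤ ℓ ∧ I.card = b ℓ)) := by
  classical
  by_cases h0 : ∃ v ∈ T, lev v = 0
  · obtain ⟨v, hv, hv0⟩ := h0
    refine ⟨0, Nat.zero_le _, {v}, by simpa using hv, ?_, by simpa using hv0,
      Or.inl ⟨rfl, by simp⟩⟩
    intro x hx y hy
    rw [mem_singleton] at hx hy
    subst hx; subst hy
    exact G.loopless.irrefl _
  · push Not at h0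
    by_cases hex : ∃ ℓ ∈ Icc 1 L, Θ ≤ 2 * L * W ℓ * (T.filter (fun v => lev v = ℓ)).card
    · obtain ⟨ℓ, hℓ, hΘ⟩ := hex
      obtain ⟨h1, h2⟩ := mem_Icc.mp hℓ
      obtain ⟨I, hI, hi, hc⟩ := hb ℓ h1 h2 _ hΘ
      exact ⟨ℓ, h2, I, hI.trans (filter_subset _ _), hi,
        fun v hv => (mem_filter.mp (hI hv)).2, Or.inr ⟨h1, hc⟩⟩
    · exfalso
      push Not at hex
      have h1 : ∑ v ∈ T, W (lev v) =
          ∑ ℓ ∈ Icc 1 L, W ℓ * (T.filter (fun v => lev v = ℓ)).card := by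
        rw [← sum_fiberwise_of_maps_to (s := T) (t := Icc 1 L) (g := lev)
          (fun v hv => mem_Icc.mpr ⟨Nat.one_le_iff_ne_zero.mpr (h0 v hv), hlev v⟩)]
        apply sum_congr rfl
        intro ℓ _
        rw [sum_congr rfl (fun v hv => by rw [(mem_filter.mp hv).2] : ∀ v ∈ T.filter
          (fun v => lev v = ℓ), W (lev v) = W ℓ), sum_const, smul_eq_mul, mul_comm]
      have h2 : ∑ ℓ ∈ Icc 1 L, 2 * L * W ℓ * (T.filter (fun v => lev v = ℓ)).card <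
          ∑ ℓ ∈ Icc 1 L, Θ :=
        sum_lt_sum_of_nonempty ⟨1, mem_Icc.mpr ⟨le_rfl, hL⟩⟩ hex
      rw [sum_const, Nat.card_Icc, smul_eq_mul, Nat.add_sub_cancel] at h2
      have h3 : ∑ ℓ ∈ Icc 1 L, 2 * L * W ℓ * (T.filter (fun v => lev v = ℓ)).card =
          L * (2 * ∑ v ∈ T, W (lev v)) := by
        rw [h1, mul_sum, mul_sum]
        apply sum_congr rfl
        intro ℓ _
        ring
      rw [h3] at h2
      exact absurd (Nat.mul_le_mul_left L hT) (not_le.mpr h2)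

/-- level `ℓ` consists of the vertices of degree less than `D ℓ` and of degree at least `D i` for
`i < ℓ`; the vertices of level `ℓ` have weight `W ℓ` -/
theorem levels {G : SimpleGraph V} {κ A L : ℕ} (hκ : 2 ≤ κ) (hL : 1 ≤ L) (hcut : Cuts G κ)
    (hA : ∀ I, Ind G I → I.card ≤ A) (hcyc : ∃ l, Cyc G l) (D W b j : ℕ → ℕ) {Θ : ℕ}
    (hD0 : 2 * A + κ ≤ D 0 + 3) (hW1 : ∀ ℓ ≤ L, 1 ≤ W ℓ)
    (hWa : ∀ i l, i ≤ l → l ≤ L → W l ≤ W i) (hW0 : Θ ≤ W 0)
    (hWl : ∀ ℓ, 1 ≤ ℓ → ℓ ≤ L → Θ ≤ (D (ℓ - 1) + 3 - 2 * A) * W ℓ)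
    (hb1 : ∀ ℓ, 1 ≤ ℓ → ℓ ≤ L → 1 ≤ b ℓ)
    (hb : ∀ ℓ, 1 ≤ ℓ → ℓ ≤ L → ∀ X : Finset V, Θ ≤ 2 * L * W ℓ * X.card →
      ∃ I ⊆ X, Ind G I ∧ I.card = b ℓ)
    (hj : ∀ ℓ < L, ∀ I, Ind G I → (∀ v ∈ I, (nb G v).card < D ℓ) → I.card ≤ j ℓ)
    (hsum : j 0 + ∑ ℓ ∈ Ico 1 L, j ℓ / b ℓ + A / b L < κ) :
    ∃ l, Cyc G l ∧ l.length = Fintype.card V := by
  classical
  by_contra hno
  obtain ⟨lev, hlev, hlt, hge, hzero⟩ := exists_lev G D L
  obtain ⟨D', X, T, hDne, hX, hdeg, hT, hTT⟩ := structure_thm hκ hcut hA hcyc hno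
    (fun v => W (lev v)) (fun v => hW1 _ (hlev v))
  have hΘD : Θ ≤ ∑ v ∈ D', W (lev v) := by
    have hone : ∀ v ∈ D', lev v = 0 → Θ ≤ ∑ v ∈ D', W (lev v) := by
      intro v hv hv0
      have h1 := single_le_sum (f := fun v => W (lev v)) (fun _ _ => Nat.zero_le _) hv
      simp only [hv0] at h1
      exact hW0.trans h1
    rcases hdeg with h | h
    · obtain ⟨v, hv⟩ := hDne
      exact hone v hv (hzero v (by have := h v hv; omega))
    · obtain ⟨v0, hv0, hmaxl⟩ := exists_max_image D' lev hDne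
      rcases Nat.eq_zero_or_pos (lev v0) with h0 | hpos
      · exact hone v0 hv0 h0
      · have h1 := hge v0 hpos
        have h2 := h v0 hv0
        calc Θ ≤ (D (lev v0 - 1) + 3 - 2 * A) * W (lev v0) := hWl _ hpos (hlev v0)
          _ ≤ D'.card * W (lev v0) := Nat.mul_le_mul_right _ (by omega)
          _ = ∑ v ∈ D', W (lev v0) := by rw [sum_const, smul_eq_mul]
          _ ≤ ∑ v ∈ D', W (lev v) := sum_le_sum (fun v hv => hWa _ _ (hmaxl v hv) (hlev v0))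
  have hcls : ∀ i ∈ X, ∃ ℓ ≤ L, ∃ I ⊆ T i, Ind G I ∧ (∀ v ∈ I, lev v = ℓ) ∧
      ((ℓ = 0 ∧ I.card = 1) ∨ (1 ≤ ℓ ∧ I.card = b ℓ)) := by
    intro i hi
    exact exists_class hL W b hb hlev (hΘD.trans (hT i hi))
  choose! cl hcl I hIT hIind hIlev hIcard using hcls
  -- the independent set of class `ℓ`
  have hU : ∀ ℓ, Ind G ((X.filter (fun i => cl i = ℓ)).biUnion I) ∧
      ((∀ v ∈ (X.filter (fun i => cl i = ℓ)).biUnion I, lev v = ℓ)) ∧
      ((X.filter (fun i => cl i = ℓ)).biUnion I).card =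
        ∑ i ∈ X.filter (fun i => cl i = ℓ), (I i).card := by
    intro ℓ
    refine ⟨?_, ?_, ?_⟩
    · intro x hx y hy hadj
      obtain ⟨i, hi, hxi⟩ := mem_biUnion.mp hx
      obtain ⟨i', hi', hyi⟩ := mem_biUnion.mp hy
      have h1 := (mem_filter.mp hi).1
      have h2 := (mem_filter.mp hi').1
      by_cases hii : i = i'
      · subst hii
        exact hIind i h1 x hxi y hyi hadj
      · exact (hTT i h1 i' h2 hii).2 x (hIT i h1 hxi) y (hIT i' h2 hyi) hadj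
    · intro v hv
      obtain ⟨i, hi, hvi⟩ := mem_biUnion.mp hv
      obtain ⟨h1, h2⟩ := mem_filter.mp hi
      rw [hIlev i h1 v hvi, h2]
    · apply card_biUnion
      intro i hi i' hi' hii
      have h1 := (mem_filter.mp hi).1
      have h2 := (mem_filter.mp hi').1
      exact disjoint_of_subset_left (hIT i h1) (disjoint_of_subset_right (hIT i' h2)
        (hTT i h1 i' h2 hii).1)
  have c0 : (X.filter (fun i => cl i = 0)).card ≤ j 0 := by
    obtain ⟨h1, h2, h3⟩ := hU 0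
    have h4 := hj 0 hL _ h1 (fun v hv => by
      have h5 := h2 v hv
      have h6 := hlt v (by omega)
      rwa [h5] at h6)
    rw [h3] at h4
    refine le_trans ?_ h4
    rw [card_eq_sum_ones]
    apply sum_le_sum
    intro i hi
    obtain ⟨hiX, hi0⟩ := mem_filter.mp hi
    rcases hIcard i hiX with h | h
    · exact h.2.symm.le
    · omega
  have cmul : ∀ ℓ, 1 ≤ ℓ → ((X.filter (fun i => cl i = ℓ)).biUnion I).card =
      (X.filter (fun i => cl i = ℓ)).card * b ℓ := by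
    intro ℓ hℓ
    rw [(hU ℓ).2.2, sum_congr rfl (g := fun _ => b ℓ), sum_const, smul_eq_mul]
    intro i hi
    obtain ⟨hiX, hi0⟩ := mem_filter.mp hi
    rcases hIcard i hiX with h | h
    · omega
    · rw [h.2, hi0]
  have cl1 : ∀ ℓ ∈ Ico 1 L, (X.filter (fun i => cl i = ℓ)).card ≤ j ℓ / b ℓ := by
    intro ℓ hℓ
    obtain ⟨hℓ1, hℓL⟩ := mem_Ico.mp hℓ
    obtain ⟨h1, h2, -⟩ := hU ℓ
    have h4 := hj ℓ hℓL _ h1 (fun v hv => by
      have h5 := h2 v hv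
      have h6 := hlt v (by omega)
      rwa [h5] at h6)
    rw [cmul ℓ hℓ1] at h4
    exact (Nat.le_div_iff_mul_le (hb1 ℓ hℓ1 hℓL.le)).mpr h4
  have cL : (X.filter (fun i => cl i = L)).card ≤ A / b L := by
    obtain ⟨h1, -, -⟩ := hU L
    have h4 := hA _ h1
    rw [cmul L hL] at h4
    exact (Nat.le_div_iff_mul_le (hb1 L hL le_rfl)).mpr h4
  have htot : X.card = ∑ ℓ ∈ range (L + 1), (X.filter (fun i => cl i = ℓ)).card :=
    card_eq_sum_card_fiberwise (fun i hi => by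
      have := hcl i hi
      simp only [coe_range, Set.mem_Iio]
      omega)
  have hsplit : ∑ ℓ ∈ range (L + 1), (X.filter (fun i => cl i = ℓ)).card =
      (X.filter (fun i => cl i = 0)).card + ∑ ℓ ∈ Ico 1 L, (X.filter (fun i => cl i = ℓ)).card +
        (X.filter (fun i => cl i = L)).card := by
    rw [sum_range_succ, range_eq_Ico, sum_eq_sum_Ico_succ_bot (show 0 < L by omega)]
  have := sum_le_sum cl1
  omega

end Pool.Agent.RamQ
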