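import Pool.Agent.Lib.MP_078aef_co_q.Base

/-! Menger's theorem for two vertex sets. -/

namespace Pool.Agent.RamQ

open Finset Pool.Agent.RamseyHam

section walks

variable {V : Type*}

/-- `l` is a walk from `A` to `B` along the arcs of `E` -/
private structure Wk (E : Finset (V × V)) (A B : Finset V) (l : List V) : Prop where
  chain : l.IsChain fun u v => (u, v) ∈ E
  head : ∃ a ∈ A, l.head? = some a
  last : ∃ b ∈ B, l.getLast? = some b

private theorem last_app (s t : List V) (v : V) : (s ++ v :: t).getLast? = (v :: t).getLast? :=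
  List.getLast?_append_of_ne_nil s (List.cons_ne_nil v t)

private theorem head_app (s t : List V) (v : V) : (s ++ v :: t).head? = (s ++ [v]).head? := by
  cases s <;> rfl

private theorem not_nodup_split : ∀ {l : List V}, ¬ l.Nodup →
    ∃ (v : V) (l1 l2 l3 : List V), l = l1 ++ v :: (l2 ++ v :: l3) := by
  intro l
  induction l with
  | nil => intro h; exact absurd List.nodup_nil h
  | cons a t ih =>
    intro h
    rw [List.nodup_cons, not_and_or, not_not] at h
    rcases h with h | h
    · obtain ⟨s, t', rfl⟩ := List.append_of_mem h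
      exact ⟨a, [], s, t', rfl⟩
    · obtain ⟨v, l1, l2, l3, rfl⟩ := ih h
      exact ⟨v, a :: l1, l2, l3, rfl⟩

/-- a shortest walk on the vertices of a given walk -/
private theorem Wk.exists_min {E : Finset (V × V)} {A B : Finset V} {l0 : List V}
    (h : Wk E A B l0) : ∃ l, Wk E A B l ∧ (∀ v ∈ l, v ∈ l0) ∧ l.Nodup ∧
      (∀ v ∈ l, v ∈ A → l.head? = some v) ∧ (∀ v ∈ l, v ∈ B → l.getLast? = some v) := by
  classical
  have hex : ∃ n, ∃ l : List V, (Wk E A B l ∧ ∀ v ∈ l, v ∈ l0) ∧ l.length = n :=
    ⟨_, l0, ⟨h, fun v hv => hv⟩, rfl⟩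
  obtain ⟨l, ⟨hl, hsub⟩, hlen⟩ := Nat.find_spec hex
  have hmin : ∀ l' : List V, Wk E A B l' → (∀ v ∈ l', v ∈ l) → l.length ≤ l'.length := by
    intro l' h1 h2
    rw [hlen]
    exact Nat.find_min' hex ⟨l', ⟨h1, fun v hv => hsub v (h2 v hv)⟩, rfl⟩
  refine ⟨l, hl, hsub, ?_, ?_, ?_⟩
  · by_contra hnd
    obtain ⟨v, l1, l2, l3, rfl⟩ := not_nodup_split hnd
    have h1 : Wk E A B (l1 ++ v :: l3) := by
      obtain ⟨a, ha, ha'⟩ := hl.head
      obtain ⟨b, hb, hb'⟩ := hl.last
      refine ⟨?_, ⟨a, ha, ?_⟩, ⟨b, hb, ?_⟩⟩
      · have h2 := hl.chain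
        rw [List.isChain_split] at h2 ⊢
        refine ⟨h2.1, ?_⟩
        have h3 := h2.2
        rw [← List.cons_append, List.isChain_split] at h3
        exact h3.2
      · rw [← ha', head_app, head_app _ (l2 ++ v :: l3)]
      · rw [← hb', last_app, last_app, ← List.cons_append, last_app]
    have h2 := hmin _ h1 (by intro w hw; simp at hw ⊢; tauto)
    simp at h2
    omega
  · intro v hv hvA
    obtain ⟨s, t, rfl⟩ := List.append_of_mem hv
    have h1 : Wk E A B (v :: t) := by
      obtain ⟨b, hb, hb'⟩ := hl.last
      refine ⟨?_, ⟨v, hvA, rfl⟩, ⟨b, hb, ?_⟩⟩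
      · have h2 := hl.chain
        rw [List.isChain_split] at h2
        exact h2.2
      · rw [← hb', last_app]
    have h2 := hmin _ h1 (by intro w hw; simp at hw ⊢; tauto)
    rw [List.length_append] at h2
    have h3 : s = [] := by
      rw [← List.length_eq_zero_iff]
      omega
    subst h3
    rfl
  · intro v hv hvB
    obtain ⟨s, t, rfl⟩ := List.append_of_mem hv
    have h1 : Wk E A B (s ++ [v]) := by
      obtain ⟨a, ha, ha'⟩ := hl.head
      refine ⟨?_, ⟨a, ha, ?_⟩, ⟨v, hvB, by simp⟩⟩
      · have h2 := hl.chain
        rw [List.isChain_split] at h2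
        exact h2.1
      · rw [← ha', head_app s t v]
    have h2 := hmin _ h1 (by intro w hw; simp at hw ⊢; tauto)
    simp at h2
    subst h2
    simp

/-- the first vertex in `P` -/
private theorem first_split {P : Finset V} : ∀ {l : List V}, (∃ v ∈ l, v ∈ P) →
    ∃ (l1 : List V) (p : V) (l2 : List V), l = l1 ++ p :: l2 ∧ p ∈ P ∧ ∀ v ∈ l1, v ∉ P := by
  classical
  intro l
  induction l with
  | nil => rintro ⟨v, hv, _⟩; simp at hv
  | cons a t ih =>
    rintro ⟨v, hv, hvP⟩
    by_cases ha : a ∈ P
    · exact ⟨[], a, t, rfl, ha, by simp⟩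
    · have hvt : v ∈ t := by
        rcases List.mem_cons.1 hv with rfl | h
        · exact absurd hvP ha
        · exact h
      obtain ⟨l1, p, l2, rfl, hp, hl1⟩ := ih ⟨v, hvt, hvP⟩
      refine ⟨a :: l1, p, l2, rfl, hp, ?_⟩
      intro w hw
      rcases List.mem_cons.1 hw with rfl | h
      · exact ha
      · exact hl1 w h

/-- the last vertex in `P` -/
private theorem last_split {P : Finset V} {l : List V} (h : ∃ v ∈ l, v ∈ P) :
    ∃ (l1 : List V) (p : V) (l2 : List V), l = l1 ++ p :: l2 ∧ p ∈ P ∧ ∀ v ∈ l2, v ∉ P := by
  obtain ⟨v, hv, hvP⟩ := h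
  obtain ⟨l1, p, l2, h1, h2, h3⟩ := first_split (P := P) (l := l.reverse)
    ⟨v, List.mem_reverse.2 hv, hvP⟩
  refine ⟨l2.reverse, p, l1.reverse, ?_, h2, fun w hw => h3 w (List.mem_reverse.1 hw)⟩
  rw [← List.reverse_reverse l, h1]
  simp

private theorem chain_avoid_left [DecidableEq V] {E : Finset (V × V)} {x y : V} {l1 : List V} {p : V}
    (h : (l1 ++ [p]).IsChain fun u v => (u, v) ∈ insert (x, y) E) (hx : ∀ v ∈ l1, v ≠ x) :
    (l1 ++ [p]).IsChain fun u v => (u, v) ∈ E := by
  rw [List.isChain_iff_forall_rel_of_append_cons_cons] at h ⊢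
  intro a b m1 m2 heq
  have h1 := h heq
  rw [Finset.mem_insert] at h1
  rcases h1 with h1 | h1
  · exfalso
    have ha : a ∈ (l1 ++ [p]).dropLast := by
      rw [heq]
      simp [List.dropLast_append_of_ne_nil]
    rw [List.dropLast_concat] at ha
    exact hx a ha (Prod.ext_iff.1 h1).1
  · exact h1

private theorem chain_avoid_right [DecidableEq V] {E : Finset (V × V)} {x y : V} {l2 : List V} {p : V}
    (h : (p :: l2).IsChain fun u v => (u, v) ∈ insert (x, y) E) (hy : ∀ v ∈ l2, v ≠ y) :
    (p :: l2).IsChain fun u v => (u, v) ∈ E := by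
  refine h.imp_of_mem_tail_imp fun a b _ hb hab => ?_
  rw [List.tail_cons] at hb
  rw [Finset.mem_insert] at hab
  rcases hab with h1 | h1
  · exact absurd (Prod.ext_iff.1 h1).2 (hy b hb)
  · exact h1

private theorem Wk.mono {E E' : Finset (V × V)} (hE : E ⊆ E') {A B : Finset V} {l : List V}
    (h : Wk E A B l) : Wk E' A B l :=
  ⟨h.chain.imp fun _ _ h => hE h, h.head, h.last⟩

end walks

section main

variable {V : Type*} [Fintype V] [DecidableEq V]

/-- Menger's theorem for arc sets -/
private theorem menger_arcs (E : Finset (V × V)) : ∀ (A B : Finset V) (n : ℕ),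
    (∀ S : Finset V, (∀ l, Wk E A B l → ∃ v ∈ l, v ∈ S) → n ≤ S.card) →
    ∃ f : Fin n → List V, (∀ i, Wk E A B (f i)) ∧ ∀ i j, i ≠ j → ∀ v ∈ f i, v ∉ f j := by
  induction E using Finset.induction_on with
  | empty =>
    intro A B n h
    have h1 : n ≤ (A ∩ B).card := by
      apply h
      intro l hl
      obtain ⟨a, ha, ha'⟩ := hl.head
      obtain ⟨b, hb, hb'⟩ := hl.last
      have hc := hl.chain
      match l, ha', hb', hc with
      | [], ha', _, _ => simp at ha'
      | [c], ha', hb', _ =>
        simp at ha' hb'
        subst ha'; subst hb'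
        exact ⟨_, List.mem_singleton_self _, Finset.mem_inter.2 ⟨ha, hb⟩⟩
      | c :: d :: t, _, _, hc =>
        rw [List.isChain_cons_cons] at hc
        exact absurd hc.1 (Finset.notMem_empty _)
    obtain ⟨T, hT, hTc⟩ := Finset.exists_subset_card_eq h1
    let g := (Finset.equivFinOfCardEq hTc).symm
    refine ⟨fun i => [(g i : V)], fun i => ⟨by simp, ⟨g i, ?_, rfl⟩, ⟨g i, ?_, rfl⟩⟩, ?_⟩
    · exact (Finset.mem_inter.1 (hT (g i).2)).1
    · exact (Finset.mem_inter.1 (hT (g i).2)).2
    · intro i j hij v hv hv'
      rw [List.mem_singleton] at hv hv'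
      exact hij (g.injective (Subtype.ext (hv.symm.trans hv')))
  | insert e E he ih =>
    intro A B n h
    obtain ⟨x, y⟩ := e
    by_cases hcase : ∀ S : Finset V, (∀ l, Wk E A B l → ∃ v ∈ l, v ∈ S) → n ≤ S.card
    · obtain ⟨f, hf, hf'⟩ := ih A B n hcase
      exact ⟨f, fun i => (hf i).mono (Finset.subset_insert _ _), hf'⟩
    · push Not at hcase
      obtain ⟨S, hS, hSn⟩ := hcase
      set P := insert x S with hP
      set Q := insert y S with hQ
      have hPsep : ∀ l, Wk (insert (x, y) E) A B l → ∃ v ∈ l, v ∈ P := by
        intro l hl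
        by_contra hcon
        push Not at hcon
        have h1 : Wk E A B l := by
          refine ⟨hl.chain.imp_of_mem_imp fun a b ha _ hab => ?_, hl.head, hl.last⟩
          rw [Finset.mem_insert] at hab
          rcases hab with h1 | h1
          · exact absurd (by rw [(Prod.mk.inj h1).1]; exact Finset.mem_insert_self _ _) (hcon a ha)
          · exact h1
        obtain ⟨v, hv, hvS⟩ := hS l h1
        exact hcon v hv (Finset.mem_insert_of_mem hvS)
      have hQsep : ∀ l, Wk (insert (x, y) E) A B l → ∃ v ∈ l, v ∈ Q := by
        intro l hl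
        by_contra hcon
        push Not at hcon
        have h1 : Wk E A B l := by
          refine ⟨hl.chain.imp_of_mem_imp fun a b _ hb hab => ?_, hl.head, hl.last⟩
          rw [Finset.mem_insert] at hab
          rcases hab with h1 | h1
          · exact absurd (by rw [(Prod.mk.inj h1).2]; exact Finset.mem_insert_self _ _) (hcon b hb)
          · exact h1
        obtain ⟨v, hv, hvS⟩ := hS l h1
        exact hcon v hv (Finset.mem_insert_of_mem hvS)
      have hPn : n ≤ P.card := h P hPsep
      have hQn : n ≤ Q.card := h Q hQsep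
      have hPle : P.card ≤ S.card + 1 := Finset.card_insert_le _ _
      have hQle : Q.card ≤ S.card + 1 := Finset.card_insert_le _ _
      have hPc : P.card = n := by omega
      have hQc : Q.card = n := by omega
      have hxS : x ∉ S := by
        intro hx
        rw [hP, Finset.insert_eq_of_mem hx] at hPn
        omega
      have hyS : y ∉ S := by
        intro hy
        rw [hQ, Finset.insert_eq_of_mem hy] at hQn
        omega
      -- the two systems
      obtain ⟨f0, hf0, hf0'⟩ := ih A P n (by
        intro S' hS'
        apply h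
        intro l hl
        obtain ⟨l1, p, l2, rfl, hp, hl1⟩ := first_split (hPsep l hl)
        have h1 : Wk E A P (l1 ++ [p]) := by
          obtain ⟨a, ha, ha'⟩ := hl.head
          refine ⟨chain_avoid_left (x := x) (y := y) ?_ ?_, ⟨a, ha, ?_⟩, ⟨p, hp, by simp⟩⟩
          · have h2 := hl.chain
            rw [List.isChain_split] at h2
            exact h2.1
          · intro v hv hvx
            exact hl1 v hv (by rw [hvx]; exact Finset.mem_insert_self _ _)
          · rw [← ha', head_app l1 l2 p]
        obtain ⟨v, hv, hvS⟩ := hS' _ h1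
        exact ⟨v, by simp at hv ⊢; tauto, hvS⟩)
      obtain ⟨g0, hg0, hg0'⟩ := ih Q B n (by
        intro S' hS'
        apply h
        intro l hl
        obtain ⟨l1, p, l2, rfl, hp, hl2⟩ := last_split (hQsep l hl)
        have h1 : Wk E Q B (p :: l2) := by
          obtain ⟨b, hb, hb'⟩ := hl.last
          refine ⟨chain_avoid_right (x := x) (y := y) ?_ ?_, ⟨p, hp, rfl⟩, ⟨b, hb, ?_⟩⟩
          · have h2 := hl.chain
            rw [List.isChain_split] at h2
            exact h2.2
          · intro v hv hvy
            exact hl2 v hv (by rw [hvy]; exact Finset.mem_insert_self _ _)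
          · rw [← hb', last_app]
        obtain ⟨v, hv, hvS⟩ := hS' _ h1
        exact ⟨v, by simp at hv ⊢; tauto, hvS⟩)
      -- shortest walks
      choose f hf hfsub hfnd hfA hfP using fun i => (hf0 i).exists_min
      choose g hg hgsub hgnd hgQ hgB using fun i => (hg0 i).exists_min
      have hfd : ∀ i j, i ≠ j → ∀ v ∈ f i, v ∉ f j := fun i j hij v hv hv' =>
        hf0' i j hij v (hfsub i v hv) (hfsub j v hv')
      have hgd : ∀ i j, i ≠ j → ∀ v ∈ g i, v ∉ g j := fun i j hij v hv hv' =>
        hg0' i j hij v (hgsub i v hv) (hgsub j v hv')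
      -- ends
      have hend : ∀ i, ∃ (l : List V) (p : V), f i = l ++ [p] ∧ p ∈ P := by
        intro i
        obtain ⟨b, hb, hb'⟩ := (hf i).last
        obtain ⟨l, hl⟩ := List.getLast?_eq_some_iff.1 hb'
        exact ⟨l, b, hl, hb⟩
      have hstart : ∀ j, ∃ (q : V) (m : List V), g j = q :: m ∧ q ∈ Q := by
        intro j
        obtain ⟨a, ha, ha'⟩ := (hg j).head
        obtain ⟨m, hm⟩ := List.head?_eq_some_iff.1 ha'
        exact ⟨a, m, hm, ha⟩
      choose l p hlp hpP using hend
      choose q m hqm hqQ using hstart
      have hlP : ∀ i, ∀ v ∈ l i, v ∉ P := by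
        intro i v hv hvP
        have h1 := hfP i v (by rw [hlp i]; simp [hv]) hvP
        rw [hlp i] at h1
        simp at h1
        have h2 := hfnd i
        rw [hlp i, List.nodup_append] at h2
        exact h2.2.2 v hv (p i) (by simp) h1.symm
      have hmQ : ∀ j, ∀ v ∈ m j, v ∉ Q := by
        intro j v hv hvQ
        have h1 := hgQ j v (by rw [hqm j]; simp [hv]) hvQ
        rw [hqm j] at h1
        simp at h1
        have h2 := hgnd j
        rw [hqm j, List.nodup_cons] at h2
        exact h2.1 (h1 ▸ hv)
      have hpf : ∀ i, p i ∈ f i := fun i => by rw [hlp i]; simp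
      have hqg : ∀ j, q j ∈ g j := fun j => by rw [hqm j]; simp
      -- the vertices common to an `f` and a `g`
      have hcommon : ∀ i j, ∀ v ∈ f i, v ∈ g j → v ∈ S ∧ v = p i ∧ v = q j := by
        intro i j v hv hv'
        have hvS : v ∈ S := by
          by_contra hvS
          obtain ⟨l1, l2, h1⟩ := List.append_of_mem hv
          obtain ⟨m1, m2, h2⟩ := List.append_of_mem hv'
          have hw : Wk E A B (l1 ++ v :: m2) := by
            obtain ⟨a, ha, ha'⟩ := (hf i).head
            obtain ⟨b, hb, hb'⟩ := (hg j).last
            refine ⟨?_, ⟨a, ha, ?_⟩, ⟨b, hb, ?_⟩⟩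
            · have h3 := (hf i).chain
              have h4 := (hg j).chain
              rw [h1, List.isChain_split] at h3
              rw [h2, List.isChain_split] at h4
              rw [List.isChain_split]
              exact ⟨h3.1, h4.2⟩
            · rw [← ha', h1, head_app, head_app _ l2]
            · rw [← hb', h2, last_app, last_app]
          obtain ⟨s, hs, hsS⟩ := hS _ hw
          rw [List.mem_append, List.mem_cons] at hs
          rcases hs with hs | rfl | hs
          · -- `s` is in `f i`, so it is the last vertex
            have h3 := hfP i s (by rw [h1]; simp [hs]) (Finset.mem_insert_of_mem hsS)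
            have h4 := hfnd i
            rw [h1] at h3 h4
            rw [last_app] at h3
            have h5 : s ∈ v :: l2 := List.mem_of_getLast? h3
            rw [List.nodup_append] at h4
            exact h4.2.2 s hs s h5 rfl
          · exact hvS hsS
          · have h3 := hgQ j s (by rw [h2]; simp [hs]) (Finset.mem_insert_of_mem hsS)
            have h4 := hgnd j
            rw [h2] at h3 h4
            rw [List.nodup_append] at h4
            rcases m1 with _ | ⟨c, m1⟩
            · simp at h3
              subst h3
              have h5 := h4.2.1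
              rw [List.nodup_cons] at h5
              exact h5.1 hs
            · simp at h3
              subst h3
              exact h4.2.2 c (by simp) c (by simp [hs]) rfl
        refine ⟨hvS, ?_, ?_⟩
        · have h1 := hfP i v hv (Finset.mem_insert_of_mem hvS)
          rw [hlp i] at h1
          simp at h1
          exact h1.symm
        · have h1 := hgQ j v hv' (Finset.mem_insert_of_mem hvS)
          rw [hqm j] at h1
          simp at h1
          exact h1.symm
      have hpinj : Function.Injective p := by
        intro i i' hii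
        by_contra hne
        exact hfd i i' hne (p i) (hpf i) (hii ▸ hpf i')
      have hqinj : Function.Injective q := by
        intro i i' hii
        by_contra hne
        exact hgd i i' hne (q i) (hqg i) (hii ▸ hqg i')
      have hqsurj : ∀ w ∈ Q, ∃ j, q j = w := by
        intro w hw
        have h1 : Finset.univ.image q = Q := by
          apply Finset.eq_of_subset_of_card_le
          · intro z hz
            obtain ⟨j, -, rfl⟩ := Finset.mem_image.1 hz
            exact hqQ j
          · rw [Finset.card_image_of_injective _ hqinj, Finset.card_univ, Fintype.card_fin, hQc]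
        rw [← h1] at hw
        obtain ⟨j, -, hj⟩ := Finset.mem_image.1 hw
        exact ⟨j, hj⟩
      let φ : V → V := fun w => if w = x then y else w
      have hφ : ∀ w ∈ P, φ w ∈ Q := by
        intro w hw
        by_cases hwx : w = x
        · simp [φ, hwx, hQ]
        · have : w ∈ S := by
            rw [hP, Finset.mem_insert] at hw
            exact hw.resolve_left hwx
          simp [φ, hwx, hQ, this]
      have hφinj : ∀ w ∈ P, ∀ w' ∈ P, φ w = φ w' → w = w' := by
        intro w hw w' hw' heq
        rw [hP, Finset.mem_insert] at hw hw'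
        by_cases hwx : w = x <;> by_cases hwx' : w' = x
        · rw [hwx, hwx']
        · simp only [φ, hwx, hwx', if_true, if_false] at heq
          exact absurd (heq ▸ hw'.resolve_left hwx') hyS
        · simp only [φ, hwx, hwx', if_true, if_false] at heq
          exact absurd (heq ▸ hw.resolve_left hwx) hyS
        · simpa only [φ, hwx, hwx', if_false] using heq
      choose J hJ using fun i => hqsurj (φ (p i)) (hφ _ (hpP i))
      have hJinj : ∀ i i', J i = J i' → i = i' := by
        intro i i' hii
        apply hpinj
        apply hφinj _ (hpP i) _ (hpP i')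
        rw [← hJ i, ← hJ i', hii]
      let tl : Fin n → List V := fun i => if p i = x then g (J i) else m (J i)
      refine ⟨fun i => l i ++ p i :: tl i, ?_, ?_⟩
      · intro i
        have hE : E ⊆ insert (x, y) E := Finset.subset_insert _ _
        obtain ⟨a, ha, ha'⟩ := (hf i).head
        obtain ⟨b, hb, hb'⟩ := (hg (J i)).last
        have hfc := ((hf i).mono hE).chain
        have hgc := ((hg (J i)).mono hE).chain
        rw [hlp i] at hfc ha'
        refine ⟨?_, ⟨a, ha, ?_⟩, ⟨b, hb, ?_⟩⟩
        · rw [List.isChain_split]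
          refine ⟨hfc, ?_⟩
          by_cases hpx : p i = x
          · simp only [tl, hpx, if_true]
            have h1 : q (J i) = y := by rw [hJ i]; simp [φ, hpx]
            rw [hqm (J i)] at hgc ⊢
            rw [List.isChain_cons_cons]
            exact ⟨by rw [h1]; exact Finset.mem_insert_self _ _, hgc⟩
          · simp only [tl, hpx, if_false]
            have h1 : q (J i) = p i := by rw [hJ i]; simp [φ, hpx]
            rw [hqm (J i), h1] at hgc
            exact hgc
        · rw [← ha', head_app]
        · rw [← hb', last_app]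
          by_cases hpx : p i = x
          · simp only [tl, hpx, if_true]
            rw [hqm (J i)]
            exact last_app [x] (m (J i)) (q (J i))
          · simp only [tl, hpx, if_false]
            have h1 : q (J i) = p i := by rw [hJ i]; simp [φ, hpx]
            rw [hqm (J i), h1]
      · intro i i' hii v hv hv'
        have hmem : ∀ i, ∀ v ∈ l i ++ p i :: tl i, v ∈ f i ∨ v ∈ g (J i) := by
          intro i v hv
          rw [List.mem_append, List.mem_cons] at hv
          rcases hv with hv | rfl | hv
          · left; rw [hlp i]; simp [hv]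
          · left; exact hpf i
          · right
            by_cases hpx : p i = x
            · simpa only [tl, hpx, if_true] using hv
            · simp only [tl, hpx, if_false] at hv
              rw [hqm (J i)]
              simp [hv]
        have hcross : ∀ i i', i ≠ i' → ∀ v ∈ f i, v ∉ g (J i') := by
          intro i i' hii v hv hv'
          obtain ⟨hvS, h1, h2⟩ := hcommon i (J i') v hv hv'
          rw [hJ i'] at h2
          by_cases hpx : p i' = x
          · simp only [φ, hpx, if_true] at h2
            exact hyS (h2 ▸ hvS)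
          · simp only [φ, hpx, if_false] at h2
            exact hii (hpinj (h1.symm.trans h2))
        rcases hmem i v hv with h1 | h1 <;> rcases hmem i' v hv' with h2 | h2
        · exact hfd i i' hii v h1 h2
        · exact hcross i i' hii v h1 h2
        · exact hcross i' i hii.symm v h2 h1
        · exact hgd _ _ (fun h3 => hii (hJinj _ _ h3)) v h1 h2

/-- if every set meeting all `A`-`B` walks has at least `n` vertices then there are `n` disjoint
`A`-`B` paths -/
theorem menger (G : SimpleGraph V) (A B : Finset V) (n : ℕ)
    (h : ∀ S : Finset V, (∀ (l : List V) (a b : V), a ∈ A → b ∈ B → Seg G a l b →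
      ∃ v ∈ l, v ∈ S) → n ≤ S.card) :
    ∃ (f : Fin n → List V) (a b : Fin n → V), Linked G A B n f a b := by
  classical
  let E : Finset (V × V) := Finset.univ.filter fun e => G.Adj e.1 e.2
  have hE : ∀ u v, (u, v) ∈ E ↔ G.Adj u v := by
    intro u v
    simp [E]
  have hchain : ∀ l : List V, (l.IsChain fun u v => (u, v) ∈ E) ↔ l.IsChain G.Adj := fun l =>
    List.IsChain.iff hE
  obtain ⟨f0, hf0, hd⟩ := menger_arcs E A B n (by
    intro S hS
    apply h
    intro l a b ha hb hl
    exact hS l ⟨(hchain l).2 hl.chain, ⟨a, ha, hl.head⟩, ⟨b, hb, hl.last⟩⟩)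
  choose f hf hsub hnd hA hB using fun i => (hf0 i).exists_min
  choose a ha ha' using fun i => (hf i).head
  choose b hb hb' using fun i => (hf i).last
  refine ⟨f, a, b, fun i => ⟨(hchain _).1 (hf i).chain, ha' i, hb' i⟩, hnd, ?_, ha, hb, ?_, ?_⟩
  · intro i j hij v hv hv'
    exact hd i j hij v (hsub i v hv) (hsub j v hv')
  · intro i v hv hvA
    exact Option.some.inj ((hA i v hv hvA).symm.trans (ha' i))
  · intro i v hv hvB
    exact Option.some.inj ((hB i v hv hvB).symm.trans (hb' i))

end main

end Pool.Agent.RamQ
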