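import Pool.Agent.Lib.MP_078aef_co_q.Base
import Pool.Agent.Lib.MP_078aef_co_q.Menger

/-! Disjoint paths between large sets, and connections through a set off the cycle. -/

namespace Pool.Agent.RamQ

open Finset Pool.Agent.RamseyHam

variable {V : Type*} [Fintype V] [DecidableEq V]

/-- under the cut property two sets of at least `κ` vertices are joined by `κ` disjoint paths -/
theorem link {G : SimpleGraph V} {κ : ℕ} (hcut : Cuts G κ) {A B : Finset V} (hA : κ ≤ A.card)
    (hB : κ ≤ B.card) : ∃ (f : Fin κ → List V) (a b : Fin κ → V), Linked G A B κ f a b := by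
  classical
  apply menger
  intro S hS
  by_contra hlt
  have exn : ∀ A : Finset V, κ ≤ A.card → ∃ a ∈ A, a ∉ S := by
    intro A hA
    by_contra hcon
    push Not at hcon
    have := card_le_card (show A ⊆ S from hcon)
    omega
  obtain ⟨a, haA, haS⟩ := exn A hA
  obtain ⟨b, hbB, hbS⟩ := exn B hB
  obtain ⟨P, hPdef⟩ : ∃ P : Finset V, P = univ.filter (fun v => ∃ (l : List V) (a : V),
      a ∈ A ∧ Seg G a l v ∧ ∀ x ∈ l, x ∉ S) := ⟨_, rfl⟩
  have hP : ∀ v, v ∈ P ↔ ∃ (l : List V) (a : V), a ∈ A ∧ Seg G a l v ∧ ∀ x ∈ l, x ∉ S := by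
    intro v
    rw [hPdef, mem_filter]
    exact ⟨fun h => h.2, fun h => ⟨mem_univ _, h⟩⟩
  have hPS : Disjoint P S := by
    rw [disjoint_left]
    intro v hv
    obtain ⟨l, a, -, hl, hlS⟩ := (hP v).mp hv
    exact hlS v (List.mem_of_getLast? hl.last)
  have h1 := hcut P (univ \ (P ∪ S))
    ⟨a, (hP a).mpr ⟨[a], a, haA, Seg.single a, by simpa using haS⟩⟩
    ⟨b, mem_sdiff.mpr ⟨mem_univ _, fun hmem => by
      rcases mem_union.mp hmem with h | h
      · obtain ⟨l, a, ha, hl, hlS⟩ := (hP b).mp h
        obtain ⟨v, hv, hvS⟩ := hS l a b ha hbB hl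
        exact hlS v hv hvS
      · exact hbS h⟩⟩ (by
      rw [disjoint_left]
      intro x hx hx'
      exact (mem_sdiff.mp hx').2 (mem_union_left _ hx)) (by
      intro x hx y hy hadj
      have hy' := (mem_sdiff.mp hy).2
      apply hy'
      apply mem_union_left
      obtain ⟨l, a, ha, hl, hlS⟩ := (hP x).mp hx
      refine (hP y).mpr ⟨l ++ [y], a, ha, hl.append (Seg.single y) hadj, ?_⟩
      intro z hz
      rcases List.mem_append.mp hz with h | h
      · exact hlS z h
      · rw [List.mem_singleton] at h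
        subst h
        exact fun h => hy' (mem_union_right _ h))
  have h2 := card_sdiff_add_card_eq_card (subset_univ (P ∪ S))
  rw [card_univ, card_union_of_disjoint hPS] at h2
  omega

omit [Fintype V] [DecidableEq V] in
theorem of_chain {G : SimpleGraph V} {p q : V} {w : List V} (hne : w ≠ [])
    (h : (p :: (w ++ [q])).IsChain G.Adj) : ∃ x y, Seg G x w y ∧ G.Adj p x ∧ G.Adj y q := by
  have h1 : (([p] ++ w) ++ [q]).IsChain G.Adj := by simpa using h
  rw [List.isChain_append, List.isChain_append] at h1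
  obtain ⟨⟨-, hw, hpw⟩, -, hwq⟩ := h1
  refine ⟨w.head hne, w.getLast hne, ⟨hw, List.head?_eq_some_head hne,
    List.getLast?_eq_some_getLast hne⟩, ?_, ?_⟩
  · exact hpw p (by simp) _ (List.head?_eq_some_head hne)
  · refine hwq _ ?_ q (by simp)
    rw [List.getLast?_append, List.getLast?_eq_some_getLast hne]
    rfl

/-- disjoint arms from `D` to the cycle give connections through `D` -/
theorem conn_of_arms {G : SimpleGraph V} {D : Finset V} {c : ℕ → V} {m n : ℕ} (wt : V → ℕ)
    (hoff : ∀ v ∈ D, ∀ i < m, c i ≠ v) (r : Fin n → List V) (u b d : Fin n → V) (x : Fin n → ℕ)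
    (hseg : ∀ p, Seg G (u p) (r p) (b p)) (hnod : ∀ p, (r p).Nodup)
    (hdisj : ∀ p q, p ≠ q → ∀ v ∈ r p, v ∉ r q) (hadj : ∀ p, G.Adj (d p) (u p))
    (hrD : ∀ p, ∀ v ∈ r p, v ∉ D) (hb : ∀ p, c (x p) = b p)
    (honly : ∀ p, ∀ v ∈ r p, (∃ i < m, c i = v) → v = b p)
    (hham : ∀ p q, p ≠ q → ∃ l, Seg G (d p) l (d q) ∧ l.Nodup ∧ ∀ v, v ∈ l ↔ v ∈ D) :
    Conn G c m wt (∑ v ∈ D, wt v) (univ.image x) ∧ (univ.image x).card = n := by
  have hlast : ∀ p, b p ∈ r p := fun p => List.mem_of_getLast? (hseg p).last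
  have hinj : ∀ p q, x p = x q → p = q := by
    intro p q h
    by_contra hne
    have : b p = b q := by rw [← hb, ← hb, h]
    exact hdisj p q hne (b p) (hlast p) (this ▸ hlast q)
  refine ⟨?_, ?_⟩
  · intro i hi j hj hij
    obtain ⟨p, -, rfl⟩ := mem_image.mp hi
    obtain ⟨q, -, rfl⟩ := mem_image.mp hj
    have hpq : p ≠ q := fun h => hij (by rw [h])
    obtain ⟨l, hl, hln, hlD⟩ := hham p q hpq
    obtain ⟨hp, hhp⟩ := List.getLast?_eq_some_iff.mp (hseg p).last
    obtain ⟨hq, hhq⟩ := List.getLast?_eq_some_iff.mp (hseg q).last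
    have hlne : l ≠ [] := by
      rintro rfl
      simpa using hl.head
    have hL : Seg G (b p) ((r p).reverse ++ (l ++ r q)) (b q) :=
      (hseg p).reverse.append (hl.append (hseg q) (hadj q)) (hadj p).symm
    have hchain := hL.chain
    rw [hhp, hhq] at hchain
    have hchain' : (b p :: ((hp.reverse ++ l ++ hq) ++ [b q])).IsChain G.Adj := by
      simpa using hchain
    obtain ⟨x', y', hw, h1, h2⟩ := of_chain (by simp [hlne]) hchain'
    have np := hnod p
    have nq := hnod q
    rw [hhp, List.nodup_append] at np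
    rw [hhq, List.nodup_append] at nq
    have memp : ∀ v ∈ hp, v ∈ r p ∧ v ≠ b p := fun v hv =>
      ⟨by rw [hhp]; exact List.mem_append_left _ hv, np.2.2 v hv _ (by simp)⟩
    have memq : ∀ v ∈ hq, v ∈ r q ∧ v ≠ b q := fun v hv =>
      ⟨by rw [hhq]; exact List.mem_append_left _ hv, nq.2.2 v hv _ (by simp)⟩
    refine ⟨hp.reverse ++ l ++ hq, x', y', hw, ?_, ?_, ?_, ?_, ?_⟩
    · rw [List.nodup_append, List.nodup_append]
      refine ⟨⟨List.nodup_reverse.mpr np.1, hln, ?_⟩, nq.1, ?_⟩
      · intro v hv z hz hvz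
        subst hvz
        exact hrD p v (memp v (List.mem_reverse.mp hv)).1 ((hlD v).mp hz)
      · intro v hv z hz hvz
        subst hvz
        rcases List.mem_append.mp hv with hv | hv
        · exact hdisj p q hpq v (memp v (List.mem_reverse.mp hv)).1 (memq v hz).1
        · exact hrD q v (memq v hz).1 ((hlD v).mp hv)
    · rw [hb]; exact h1
    · rw [hb]; exact h2
    · intro v hv i hi hiv
      rcases List.mem_append.mp hv with hv | hv
      · rcases List.mem_append.mp hv with hv | hv
        · have := memp v (List.mem_reverse.mp hv)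
          exact this.2 (honly p v this.1 ⟨i, hi, hiv⟩)
        · exact hoff v ((hlD v).mp hv) i hi hiv
      · have := memq v hv
        exact this.2 (honly q v this.1 ⟨i, hi, hiv⟩)
    · have hD : D = l.toFinset := by
        ext v
        rw [List.mem_toFinset, hlD]
      have e : ∑ v ∈ D, wt v = (l.map wt).sum := by
        rw [hD]
        exact List.sum_toFinset wt hln
      rw [e, List.map_append, List.map_append, List.sum_append, List.sum_append]
      omega
  · rw [card_image_of_injective _ hinj, card_univ, Fintype.card_fin]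

end Pool.Agent.RamQ
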