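import Pool.Agent.Lib.MP_078aef_co_q.Exch
import Pool.Agent.Lib.MP_078aef_co.Main

/-! The region off a cycle of maximal weight. -/

namespace Pool.Agent.RamQ

open Finset Pool.Agent.RamseyHam

variable {V : Type*} [Fintype V] [DecidableEq V]

omit [Fintype V] [DecidableEq V] in
theorem one_le_wt {wt : V → ℕ} (hwt : ∀ v, 1 ≤ wt v) {w : List V} (hw : w ≠ []) :
    1 ≤ (w.map wt).sum := by
  cases w with
  | nil => exact absurd rfl hw
  | cons a l =>
    rw [List.map_cons, List.sum_cons]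
    have := hwt a
    omega

theorem bd_subset {G : SimpleGraph V} {D W P Q : Finset V} (hPQ : P ∪ Q = D \ W)
    (hno : Non G P Q) : bd G P ⊆ bd G D ∪ W := by
  intro u hu
  obtain ⟨huP, v, hv, huv⟩ := mem_bd.mp hu
  have hPD : ∀ x ∈ P, x ∈ D := fun x hx =>
    (mem_sdiff.mp (hPQ ▸ mem_union_left Q hx : x ∈ D \ W)).1
  rw [mem_union]
  by_cases huD : u ∈ D
  · by_cases huW : u ∈ W
    · exact Or.inr huW
    · exfalso
      have h1 : u ∈ P ∪ Q := by rw [hPQ]; exact mem_sdiff.mpr ⟨huD, huW⟩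
      rcases mem_union.mp h1 with h | h
      · exact huP h
      · exact hno v hv u h huv
  · exact Or.inl (mem_bd.mpr ⟨huD, v, hPD v hv, huv⟩)

/-- a minimal region has the region property -/
theorem exists_reg {G : SimpleGraph V} {A : ℕ} {c : ℕ → V} {m : ℕ} {H : Finset V}
    (hH : H.Nonempty) (hoff : ∀ v ∈ H, ∀ i < m, c i ≠ v)
    (hΦ : (bd G H).card + 2 * al G H ≤ 2 * A) :
    ∃ D : Finset V, D.Nonempty ∧ (∀ v ∈ D, ∀ i < m, c i ≠ v) ∧
      (bd G D).card + 2 * al G D ≤ 2 * A ∧ Reg G D := by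
  classical
  obtain ⟨F, hF⟩ : ∃ F : Finset (Finset V), F = univ.filter (fun D : Finset V => D.Nonempty ∧
      (∀ v ∈ D, ∀ i < m, c i ≠ v) ∧ (bd G D).card + 2 * al G D ≤ 2 * A) := ⟨_, rfl⟩
  have hmemF : ∀ D, D ∈ F ↔ D.Nonempty ∧ (∀ v ∈ D, ∀ i < m, c i ≠ v) ∧
      (bd G D).card + 2 * al G D ≤ 2 * A := by
    intro D
    rw [hF, mem_filter]
    exact ⟨fun h => h.2, fun h => ⟨mem_univ _, h⟩⟩
  obtain ⟨D, hD, hmin⟩ := exists_min_image F card ⟨H, (hmemF H).mpr ⟨hH, hoff, hΦ⟩⟩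
  obtain ⟨hD1, hD2, hD3⟩ := (hmemF D).mp hD
  refine ⟨D, hD1, hD2, hD3, ?_⟩
  intro W hW hWc P Q hPQ hdis hno
  -- the half with the smaller independence number
  have key : ∀ P Q : Finset V, P ∪ Q = D \ W → Disjoint P Q → Non G P Q → P.Nonempty →
      Q.Nonempty → al G P ≤ al G Q → False := by
    intro P Q hPQ hdis hno hP hQ hle
    have hPD : P ⊆ D := fun x hx =>
      (mem_sdiff.mp (hPQ ▸ mem_union_left Q hx : x ∈ D \ W)).1
    have hQD : Q ⊆ D := fun x hx =>
      (mem_sdiff.mp (hPQ ▸ mem_union_right P hx : x ∈ D \ W)).1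
    have h1 := al_add_le hPD hQD hdis hno
    have h2 := card_le_card (bd_subset hPQ hno)
    have h3 := card_union_le (bd G D) W
    have hPF : P ∈ F := (hmemF P).mpr ⟨hP, fun v hv => hD2 v (hPD hv), by omega⟩
    have h4 := hmin P hPF
    have h5 := card_le_card (union_subset hPD hQD)
    rw [card_union_of_disjoint hdis] at h5
    have h6 : 0 < Q.card := card_pos.mpr hQ
    omega
  by_contra hcon
  rw [not_or] at hcon
  have hP : P.Nonempty := nonempty_iff_ne_empty.mpr hcon.1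
  have hQ : Q.Nonempty := nonempty_iff_ne_empty.mpr hcon.2
  rcases le_total (al G P) (al G Q) with h | h
  · exact key P Q hPQ hdis hno hP hQ h
  · exact key Q P (by rw [union_comm]; exact hPQ) hdis.symm hno.symm hQ hP h

theorem region {G : SimpleGraph V} {κ A : ℕ} (hκ : 2 ≤ κ) (hcut : Cuts G κ)
    (hA : ∀ I, Ind G I → I.card ≤ A) {c : ℕ → V} {m : ℕ} (hc : CF G c m) {wt : V → ℕ}
    (hwt : ∀ v, 1 ≤ wt v) (hmax : ∀ l, Cyc G l → (l.map wt).sum ≤ ∑ i ∈ range m, wt (c i))
    {h0 : V} (hh : ∀ i < m, c i ≠ h0) :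
    κ + 1 ≤ m ∧ ∃ D : Finset V, D.Nonempty ∧ (∀ v ∈ D, ∀ i < m, c i ≠ v) ∧
      (bd G D).card + 2 * al G D ≤ 2 * A ∧ Reg G D := by
  classical
  have hm := hc.three
  obtain ⟨H, hHdef⟩ : ∃ H : Finset V,
      H = univ.filter (fun x => (offG G c m).Reachable h0 x) := ⟨_, rfl⟩
  have hH : ∀ x, x ∈ H ↔ (offG G c m).Reachable h0 x := by
    intro x
    rw [hHdef, mem_filter]
    exact ⟨fun h => h.2, fun h => ⟨mem_univ _, h⟩⟩
  have hHne : H.Nonempty := ⟨h0, (hH h0).mpr (SimpleGraph.Reachable.refl _)⟩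
  have hoff : ∀ v ∈ H, ∀ i < m, c i ≠ v := fun v hv => reach_off hh ((hH v).mp hv)
  obtain ⟨X, hXdef⟩ : ∃ X : Finset ℕ,
      X = (range m).filter (fun i => ∃ x ∈ H, G.Adj (c i) x) := ⟨_, rfl⟩
  have hX : ∀ i, i ∈ X ↔ i < m ∧ ∃ x ∈ H, G.Adj (c i) x := by
    intro i
    rw [hXdef, mem_filter, mem_range]
  have hconn : Conn G c m wt 1 X := by
    intro i hi j hj _
    obtain ⟨-, x, hx, hix⟩ := (hX i).mp hi
    obtain ⟨-, y, hy, hjy⟩ := (hX j).mp hj
    obtain ⟨w, hw, hwn, hwH⟩ := HConn_reach (G := G) c m h0 x ((hH x).mp hx) y ((hH y).mp hy)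
    refine ⟨w, x, y, hw, hwn, hix, hjy.symm, ?_, ?_⟩
    · intro v hv
      exact hoff v ((hH v).mpr (hwH v hv))
    · apply one_le_wt hwt
      rintro rfl
      simpa using hw.head
  have hXm : ∀ i ∈ X, i < m := fun i hi => ((hX i).mp hi).1
  -- a vertex of the cycle which is not an attachment
  obtain ⟨r0, hr0m, hr0X⟩ : ∃ r < m, r ∉ X := by
    by_contra hcon
    push Not at hcon
    have hXall : X = range m := by
      ext i
      exact ⟨fun h => mem_range.mpr (hXm i h), fun h => hcon i (mem_range.mp h)⟩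
    obtain ⟨T, -, hT2, hT3, -⟩ := segments hc hmax le_rfl hXm
      (by rw [hXall, card_range]; omega) hconn
    have h0X : 0 ∈ X := hcon 0 (by omega)
    obtain ⟨r, hr, hrX, -⟩ := hT3 0 h0X _ (hT2 0 h0X)
    exact hrX (hcon r hr)
  have hinj : Set.InjOn c (X : Set ℕ) := fun i hi j hj hij =>
    hc.inj i j (hXm i hi) (hXm j hj) hij
  have hnoadj : ∀ x ∈ H, ∀ y, y ∉ H → y ∉ X.image c → ¬ G.Adj x y := by
    intro x hx y hyH hyX hadj
    by_cases hyoff : ∀ i < m, c i ≠ y
    · apply hyH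
      have h1 : (offG G c m).Adj x y := ⟨hadj, hoff x hx, hyoff⟩
      exact (hH y).mpr (((hH x).mp hx).trans h1.reachable)
    · push Not at hyoff
      obtain ⟨i, hi, rfl⟩ := hyoff
      exact hyX (mem_image.mpr ⟨i, (hX i).mpr ⟨hi, x, hx, hadj.symm⟩, rfl⟩)
  have hdisHX : Disjoint H (X.image c) := by
    rw [disjoint_left]
    intro x hx hx'
    obtain ⟨i, hi, rfl⟩ := mem_image.mp hx'
    exact hoff _ hx i (hXm i hi) rfl
  have hXκ : κ ≤ X.card := by
    have hQne : (univ \ (H ∪ X.image c)).Nonempty := by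
      refine ⟨c r0, mem_sdiff.mpr ⟨mem_univ _, fun hmem => ?_⟩⟩
      rcases mem_union.mp hmem with h | h
      · exact hoff _ h r0 hr0m rfl
      · obtain ⟨j, hj, hjr⟩ := mem_image.mp h
        have := hc.inj j r0 (hXm j hj) hr0m hjr
        subst this
        exact hr0X hj
    have h1 := hcut H (univ \ (H ∪ X.image c)) hHne hQne (by
      rw [disjoint_left]
      intro x hx hx'
      exact (mem_sdiff.mp hx').2 (mem_union_left _ hx)) (by
      intro x hx y hy
      have hy' := (mem_sdiff.mp hy).2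
      exact hnoadj x hx y (fun h => hy' (mem_union_left _ h)) (fun h => hy' (mem_union_right _ h)))
    have h2 := card_sdiff_add_card_eq_card (subset_univ (H ∪ X.image c))
    rw [card_univ, card_union_of_disjoint hdisHX, card_image_of_injOn hinj] at h2
    omega
  have hXm' : X.card + 1 ≤ m := by
    have h1 : X ⊆ (range m).erase r0 := by
      intro i hi
      refine mem_erase.mpr ⟨?_, mem_range.mpr (hXm i hi)⟩
      rintro rfl
      exact hr0X hi
    have h2 := card_le_card h1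
    rw [card_erase_of_mem (mem_range.mpr hr0m), card_range] at h2
    omega
  refine ⟨by omega, ?_⟩
  -- the successors
  obtain ⟨T, -, hT2, hT3, hT4⟩ := segments hc hmax le_rfl hXm (by omega) hconn
  obtain ⟨S, hS⟩ : ∃ S : Finset V, S = X.image (fun i => c ((i + 1) % m)) := ⟨_, rfl⟩
  have hSc : S.card = X.card := by
    rw [hS]
    apply card_image_of_injOn
    intro i hi j hj hij
    by_contra hne
    have h1 := (hT4 i hi j hj hne).1
    rw [disjoint_left] at h1
    have hij' : c ((i + 1) % m) = c ((j + 1) % m) := hij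
    exact h1 (hT2 i hi) (hij' ▸ hT2 j hj)
  have hSsucc : ∀ v ∈ S, ∃ i ∈ X, v ∈ T i := by
    intro v hv
    rw [hS] at hv
    obtain ⟨i, hi, rfl⟩ := mem_image.mp hv
    exact ⟨i, hi, hT2 i hi⟩
  have hSind : Ind G S := by
    intro x hx y hy hadj
    rw [hS] at hx hy
    obtain ⟨i, hi, rfl⟩ := mem_image.mp hx
    obtain ⟨j, hj, rfl⟩ := mem_image.mp hy
    by_cases hij : i = j
    · subst hij
      exact G.loopless.irrefl _ hadj
    · exact (hT4 i hi j hj hij).2 _ (hT2 i hi) _ (hT2 j hj) hadj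
  obtain ⟨J, hJ, hJi, hJc⟩ := exists_al G H
  have hSH : ∀ v ∈ S, v ∉ H ∧ v ∉ X.image c := by
    intro v hv
    obtain ⟨i, hi, hvi⟩ := hSsucc v hv
    obtain ⟨r, hr, hrX, rfl⟩ := hT3 i hi v hvi
    refine ⟨fun h => hoff _ h r hr rfl, fun h => ?_⟩
    obtain ⟨j, hj, hjr⟩ := mem_image.mp h
    have := hc.inj j r (hXm j hj) hr hjr
    subst this
    exact hrX hj
  have hJS : Non G J S := by
    intro x hx y hy
    obtain ⟨h1, h2⟩ := hSH y hy
    exact hnoadj x (hJ hx) y h1 h2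
  have hdisJS : Disjoint J S := by
    rw [disjoint_left]
    intro x hx hx'
    exact (hSH x hx').1 (hJ hx)
  have hXA : al G H + X.card ≤ A := by
    have h1 := hA (J ∪ S) (hJi.union hSind hJS)
    rw [card_union_of_disjoint hdisJS, hJc, hSc] at h1
    exact h1
  have hbd : (bd G H).card ≤ X.card := by
    rw [← card_image_of_injOn hinj]
    apply card_le_card
    intro u hu
    obtain ⟨huH, v, hv, hvu⟩ := mem_bd.mp hu
    by_contra hcon
    exact hnoadj v hv u huH hcon hvu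
  exact exists_reg hHne hoff (by omega)

end Pool.Agent.RamQ
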