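import Pool.Agent.Lib.MP_078aef_co_q.Region
import Pool.Agent.Lib.MP_078aef_co_q.HamConn
import Pool.Agent.Lib.MP_078aef_co_q.Link

/-! The structure theorem for graphs without a Hamiltonian cycle. -/

namespace Pool.Agent.RamQ

open Finset Pool.Agent.RamseyHam

variable {V : Type*} [Fintype V] [DecidableEq V]

theorem nodup_wt_le {wt : V → ℕ} {l : List V} (hl : l.Nodup) : (l.map wt).sum ≤ ∑ v, wt v := by
  have e : ∑ v ∈ l.toFinset, wt v = (l.map wt).sum := List.sum_toFinset wt hl
  rw [← e]
  exact sum_le_sum_of_subset (subset_univ _)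

/-- there is a cycle of maximal weight -/
theorem exists_maxwt {G : SimpleGraph V} (wt : V → ℕ) (h : ∃ l, Cyc G l) :
    ∃ l, Cyc G l ∧ ∀ l', Cyc G l' → (l'.map wt).sum ≤ (l.map wt).sum := by
  obtain ⟨l0, hl0⟩ := h
  have hne : {n | ∃ l, Cyc G l ∧ (l.map wt).sum = n}.Nonempty := ⟨_, l0, hl0, rfl⟩
  have hbd : BddAbove {n | ∃ l, Cyc G l ∧ (l.map wt).sum = n} := by
    refine ⟨∑ v, wt v, ?_⟩
    rintro n ⟨l, hl, rfl⟩
    exact nodup_wt_le hl.1
  obtain ⟨l, hl, hlen⟩ := Nat.sSup_mem hne hbd
  refine ⟨l, hl, fun l' hl' => ?_⟩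
  rw [hlen]
  exact le_csSup hbd ⟨l', hl', rfl⟩

/-- the degree of a vertex of a region -/
theorem deg_reg {G : SimpleGraph V} {D : Finset V} {v : V} (hv : v ∈ D) :
    (nb G v).card + 1 ≤ D.card + (bd G D).card := by
  have h1 : nb G v ⊆ (D.erase v) ∪ bd G D := by
    intro u hu
    have hadj := mem_nb.mp hu
    by_cases huD : u ∈ D
    · exact mem_union_left _ (mem_erase.mpr ⟨hadj.ne', huD⟩)
    · exact mem_union_right _ (mem_bd.mpr ⟨huD, v, hv, hadj⟩)
  have h2 := (card_le_card h1).trans (card_union_le _ _)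
  have h3 := card_erase_add_one hv
  omega

omit [Fintype V] in
/-- not every vertex of a cycle of maximal weight is joined to an outer vertex -/
theorem exists_nonadj {G : SimpleGraph V} {c : ℕ → V} {m : ℕ} (hc : CF G c m) {wt : V → ℕ}
    (hwt : ∀ v, 1 ≤ wt v) (hmax : ∀ l, Cyc G l → (l.map wt).sum ≤ ∑ i ∈ range m, wt (c i))
    {x : V} (hx : ∀ i < m, c i ≠ x) : ∃ r < m, ¬ G.Adj x (c r) := by
  by_contra hcon
  push Not at hcon
  have hm := hc.three
  obtain ⟨T, -, hT2, hT3, -⟩ := segments (X := range m) hc hmax le_rfl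
    (fun i hi => mem_range.mp hi) (by rw [card_range]; omega) (by
      intro i hi j hj _
      refine ⟨[x], x, x, Seg.single x, by simp, (hcon i (mem_range.mp hi)).symm,
        hcon j (mem_range.mp hj), ?_, one_le_wt hwt (by simp)⟩
      intro v hv
      rw [List.mem_singleton] at hv
      subst hv
      exact hx)
  have h0 : 0 ∈ range m := mem_range.mpr (by omega)
  obtain ⟨r, hr, hrX, -⟩ := hT3 0 h0 _ (hT2 0 h0)
  exact hrX (mem_range.mpr hr)

theorem structure_thm {G : SimpleGraph V} {κ A : ℕ} (hκ : 2 ≤ κ) (hcut : Cuts G κ)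
    (hA : ∀ I, Ind G I → I.card ≤ A) (hcyc : ∃ l, Cyc G l)
    (hno : ¬ ∃ l, Cyc G l ∧ l.length = Fintype.card V) (wt : V → ℕ) (hwt : ∀ v, 1 ≤ wt v) :
    ∃ (D : Finset V) (X : Finset ℕ) (T : ℕ → Finset V), D.Nonempty ∧ X.card = κ ∧
      ((∀ v ∈ D, (nb G v).card + 4 ≤ 2 * A + κ) ∨
        (∀ v ∈ D, (nb G v).card + 3 ≤ D.card + 2 * A)) ∧
      (∀ i ∈ X, ∑ v ∈ D, wt v ≤ 2 * ∑ v ∈ T i, wt v) ∧
      ∀ i ∈ X, ∀ j ∈ X, i ≠ j → Disjoint (T i) (T j) ∧ Non G (T i) (T j) := by
  classical
  obtain ⟨l, hl, hlmax⟩ := exists_maxwt wt hcyc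
  have hlt : l.length < Fintype.card V :=
    lt_of_le_of_ne hl.1.length_le_card (fun h => hno ⟨l, hl, h⟩)
  obtain ⟨c, hc, hcl⟩ := hl.toCF
  obtain ⟨m, hm⟩ : ∃ m, m = l.length := ⟨_, rfl⟩
  rw [← hm] at hlt hc hcl
  have hinj : Set.InjOn c (range m : Set ℕ) := fun i hi j hj hij =>
    hc.inj i j (by simpa using hi) (by simpa using hj) hij
  have hmax : ∀ l', Cyc G l' → (l'.map wt).sum ≤ ∑ i ∈ range m, wt (c i) := by
    intro l' hl'
    refine (hlmax l' hl').trans (le_of_eq ?_)
    have e : ∑ v ∈ l.toFinset, wt v = (l.map wt).sum := List.sum_toFinset wt hl.1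
    have h1 : l.toFinset = (range m).image c := by
      ext x
      rw [List.mem_toFinset, hcl, mem_image]
      exact ⟨fun ⟨i, hi, h⟩ => ⟨i, mem_range.mpr hi, h⟩, fun ⟨i, hi, h⟩ => ⟨i, mem_range.mp hi, h⟩⟩
    rw [← e, h1, sum_image]
    exact fun i hi j hj hij => hinj hi hj hij
  obtain ⟨h0, hh0⟩ : ∃ h0, ∀ i < m, c i ≠ h0 := by
    by_contra hcon
    push Not at hcon
    have h1 : (univ : Finset V) ⊆ (range m).image c := by
      intro x _
      obtain ⟨i, hi, rfl⟩ := hcon x
      exact mem_image.mpr ⟨i, mem_range.mpr hi, rfl⟩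
    have h2 := card_le_card h1
    have h3 := (card_image_le (s := range m) (f := c))
    rw [card_univ] at h2
    rw [card_range] at h3
    omega
  obtain ⟨hκm, D, hDne, hDoff, hDΦ, hDreg⟩ := region hκ hcut hA hc hwt hmax hh0
  have hal := al_pos (G := G) hDne
  obtain ⟨C, hC⟩ : ∃ C : Finset V, C = (range m).image c := ⟨_, rfl⟩
  have hCc : C.card = m := by
    rw [hC, card_image_of_injOn hinj, card_range]
  have hCm : ∀ v, v ∈ C ↔ ∃ i < m, c i = v := by
    intro v
    rw [hC, mem_image]
    exact ⟨fun ⟨i, hi, h⟩ => ⟨i, mem_range.mp hi, h⟩, fun ⟨i, hi, h⟩ => ⟨i, mem_range.mpr hi, h⟩⟩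
  -- it suffices to find connections through a set
  have fin : ∀ (D' : Finset V) (X : Finset ℕ), D'.Nonempty → X.card = κ → (∀ i ∈ X, i < m) →
      Conn G c m wt (∑ v ∈ D', wt v) X → ∃ T : ℕ → Finset V,
      (∀ i ∈ X, ∑ v ∈ D', wt v ≤ 2 * ∑ v ∈ T i, wt v) ∧
      ∀ i ∈ X, ∀ j ∈ X, i ≠ j → Disjoint (T i) (T j) ∧ Non G (T i) (T j) := by
    intro D' X hD' hX hXm hconn
    have hΔ : 1 ≤ ∑ v ∈ D', wt v := by
      obtain ⟨v, hv⟩ := hD'
      exact (hwt v).trans (single_le_sum (f := wt) (fun _ _ => Nat.zero_le _) hv)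
    obtain ⟨T, hT1, -, -, hT4⟩ := segments hc hmax hΔ hXm (by omega) hconn
    exact ⟨T, hT1, hT4⟩
  rcases Nat.lt_or_ge D.card κ with hsmall | hbig
  · -- a single vertex
    obtain ⟨x, hx⟩ := hDne
    have hxoff := hDoff x hx
    have hdx := deg_reg (G := G) hx
    have hNκ : κ ≤ (nb G x).card := by
      obtain ⟨r, hr, hradj⟩ := exists_nonadj hc hwt hmax hxoff
      have hxN : x ∉ nb G x := fun h => G.loopless.irrefl _ (mem_nb.mp h)
      have h1 := hcut {x} (univ \ insert x (nb G x)) ⟨x, by simp⟩ ⟨c r, mem_sdiff.mpr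
        ⟨mem_univ _, fun hmem => by
          rcases mem_insert.mp hmem with h | h
          · exact hxoff r hr h
          · exact hradj (mem_nb.mp h)⟩⟩ (by
          rw [disjoint_left]
          intro y hy hy'
          rw [mem_singleton] at hy
          subst hy
          exact (mem_sdiff.mp hy').2 (mem_insert_self _ _)) (by
          intro y hy z hz hadj
          rw [mem_singleton] at hy
          subst hy
          exact (mem_sdiff.mp hz).2 (mem_insert_of_mem (mem_nb.mpr hadj)))
      have h2 := card_sdiff_add_card_eq_card (subset_univ (insert x (nb G x)))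
      rw [card_univ, card_insert_of_notMem hxN] at h2
      rw [card_singleton] at h1
      omega
    obtain ⟨f, a, b, hf⟩ := link hcut hNκ (show κ ≤ C.card by omega)
    have hxf : ∀ p, x ∉ f p := by
      intro p hxp
      have hsg := hf.sg p
      have hnd := hf.nodup p
      obtain ⟨l1, l2, hl12⟩ := List.append_of_mem hxp
      have hch := hsg.chain
      rw [hl12] at hnd hch
      rcases l2 with _ | ⟨y, l3⟩
      · have h1 := hsg.last
        rw [hl12, List.getLast?_append] at h1
        have h2 : x = b p := by simpa using h1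
        obtain ⟨i, hi, hix⟩ := (hCm _).mp (hf.memB p)
        exact hxoff i hi (hix.trans h2.symm)
      · have hxy : G.Adj x y := by
          rw [List.isChain_append] at hch
          have := hch.2.1
          rw [List.isChain_cons_cons] at this
          exact this.1
        have hya : y = a p := hf.onlyA p y (by rw [hl12]; simp) (mem_nb.mpr hxy)
        have hhd := hsg.head
        rw [hl12] at hhd
        rcases l1 with _ | ⟨z, l1⟩
        · have : x = a p := by simpa using hhd
          rw [hya, ← this] at hxy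
          exact G.loopless.irrefl _ hxy
        · have hz : z = a p := by simpa using hhd
          rw [List.cons_append, List.nodup_cons] at hnd
          apply hnd.1
          rw [hz, ← hya]
          simp
    choose xx hxx1 hxx2 using fun p => (hCm _).mp (hf.memB p)
    obtain ⟨hconn, hcard⟩ := conn_of_arms (D := {x}) (c := c) (m := m) wt
      (by intro v hv; rw [mem_singleton] at hv; subst hv; exact hxoff) f a b (fun _ => x) xx
      hf.sg hf.nodup hf.disj (fun p => mem_nb.mp (hf.memA p)) (by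
        intro p v hv hv'
        rw [mem_singleton] at hv'
        subst hv'
        exact hxf p hv) hxx2 (fun p v hv h => hf.onlyB p v hv ((hCm v).mpr h)) (by
        intro p q _
        exact ⟨[x], Seg.single x, by simp, by simp⟩)
    obtain ⟨T, hT1, hT2⟩ := fin {x} _ ⟨x, by simp⟩ hcard (by
      intro i hi
      obtain ⟨p, -, rfl⟩ := mem_image.mp hi
      exact hxx1 p) hconn
    refine ⟨{x}, _, T, ⟨x, by simp⟩, hcard, Or.inl ?_, hT1, hT2⟩
    intro v hv
    rw [mem_singleton] at hv
    subst hv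
    omega
  · -- the whole region
    obtain ⟨f, a, b, hf⟩ := link hcut hbig (show κ ≤ C.card by omega)
    have hab : ∀ p, a p ≠ b p := by
      intro p h
      obtain ⟨i, hi, hix⟩ := (hCm _).mp (hf.memB p)
      exact hDoff _ (hf.memA p) i hi (hix.trans h.symm)
    have hdec : ∀ p, ∃ (t : List V) (u : V), f p = a p :: t ∧ Seg G u t (b p) ∧
        G.Adj (a p) u := by
      intro p
      have hsg := hf.sg p
      obtain ⟨t, ht⟩ := List.head?_eq_some_iff.mp hsg.head
      rcases t with _ | ⟨u, t⟩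
      · exfalso
        have := hsg.last
        rw [ht] at this
        exact hab p (by simpa using this)
      · have hch := hsg.chain
        rw [ht, List.isChain_cons_cons] at hch
        refine ⟨u :: t, u, ht, ⟨hch.2, rfl, ?_⟩, hch.1⟩
        have := hsg.last
        rw [ht, List.getLast?_cons_cons] at this
        exact this
    choose r u hr1 hr2 hr3 using hdec
    have hrf : ∀ p, ∀ v ∈ r p, v ∈ f p := by
      intro p v hv
      rw [hr1 p]
      exact List.mem_cons_of_mem _ hv
    have hra : ∀ p, a p ∉ r p := by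
      intro p
      have := hf.nodup p
      rw [hr1 p, List.nodup_cons] at this
      exact this.1
    choose xx hxx1 hxx2 using fun p => (hCm _).mp (hf.memB p)
    obtain ⟨hconn, hcard⟩ := conn_of_arms (D := D) (c := c) (m := m) wt hDoff r u b a xx hr2 (by
        intro p
        have := hf.nodup p
        rw [hr1 p, List.nodup_cons] at this
        exact this.2) (fun p q hpq v hv hv' => hf.disj p q hpq v (hrf p v hv) (hrf q v hv'))
      hr3 (by
        intro p v hv hvD
        have := hf.onlyA p v (hrf p v hv) hvD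
        subst this
        exact hra p hv) hxx2 (fun p v hv h => hf.onlyB p v (hrf p v hv) ((hCm v).mpr h)) (by
        intro p q hpq
        apply hamConn hDreg (hf.memA p) (hf.memA q)
        intro h
        have h1 : a p ∈ f p := by rw [hr1 p]; simp
        have h2 : a q ∈ f q := by rw [hr1 q]; simp
        exact hf.disj p q hpq (a p) h1 (h ▸ h2))
    obtain ⟨T, hT1, hT2⟩ := fin D _ hDne hcard (by
      intro i hi
      obtain ⟨p, -, rfl⟩ := mem_image.mp hi
      exact hxx1 p) hconn
    refine ⟨D, _, T, hDne, hcard, Or.inr ?_, hT1, hT2⟩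
    intro v hv
    have := deg_reg (G := G) hv
    omega

end Pool.Agent.RamQ
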